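import Pool.Agent.Work.MP_ebd05c_an.SG.UU
import Pool.Agent.Work.MP_ebd05c_an.H.Cls

set_option autoImplicit false

open scoped BigOperators ENNReal NNReal Topology ComplexConjugate InnerProductSpace
open Finset Filter MeasureTheory

/-!
The classes of operators in the final statement (definitions only).
-/

namespace Pool.Agent.Work.MP_ebd05c_an.SG

open Pool.Agent.Work.MP_ebd05c_an.H

section defs
variable {H : Type*} [NormedAddCommGroup H] [InnerProductSpace ℂ H]

/-- Members of the class `Cls` on a separable space which are unitary plus compact of norm at most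
`ε`, have spectrum in the unit circle and satisfy a lower estimate for all `n`. -/
structure Spec0 [CompleteSpace H] (ε : ℝ) (c : ℕ → ℝ) (T : H →L[ℂ] H) : Prop where
  cls : Cls ε c T
  sep : TopologicalSpace.SeparableSpace H
  pert : ∃ U K : H →L[ℂ] H, T = U + K ∧ U ∈ unitary (H →L[ℂ] H) ∧ IsCompactOperator K ∧ ‖K‖ ≤ ε
  spec : spectrum ℂ T ⊆ Metric.sphere 0 1
  low_all : ∀ (n : ℕ) (x : H), min (1 / (1 + ε)) (c n) * ‖x‖ ≤ ‖(T ^ n) x‖

/-- quasi-similarity -/
def QuasiSimilar (T W : H →L[ℂ] H) : Prop :=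
  (∃ X : H →L[ℂ] H, Function.Injective X ∧ DenseRange X ∧ X * T = W * X) ∧
    ∃ Y : H →L[ℂ] H, Function.Injective Y ∧ DenseRange Y ∧ Y * W = T * Y

/-- a unitary operator all of whose spectral measures are singular to Lebesgue measure -/
def SingularUnitary [CompleteSpace H] (W : H →L[ℂ] H) : Prop :=
  W ∈ unitary (H →L[ℂ] H) ∧ ∀ x : H, ∃ μ : Measure UnitAddCircle, IsFiniteMeasure μ ∧
    μ ⟂ₘ AddCircle.haarAddCircle ∧ ∀ n : ℕ, ⟪x, (W ^ n) x⟫_ℂ = ∫ t, fourier (n : ℤ) t ∂μ

end defs

end Pool.Agent.Work.MP_ebd05c_an.SG
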