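import Pool.Agent.Work.MP_ebd05c_an.SG.Base
import Pool.Agent.Work.MP_ebd05c_an.H.DsC

set_option autoImplicit false

open scoped BigOperators ENNReal NNReal Topology ComplexConjugate InnerProductSpace
open Finset Filter MeasureTheory

/-!
ds_smooth: for u in H N take the vector lp.single 2 N u: A^n (single N u) = single N (W N ^ n u)
(ds_pow and extensionality), lp.inner_single_left, norm of single. ds_inj: componentwise.
ds_dense: the closure of the range is closed and contains all finite sums of single N v (v = T N v',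
A (single N v') = single N v); x is the limit of such sums (lp.hasSum_single). The range is a
submodule (LinearMap.range), so its closure is a submodule (topologicalClosure).
-/

namespace Pool.Agent.Work.MP_ebd05c_an.SG

open Pool.Agent.Work.MP_ebd05c_an.H

variable {H : ℕ → Type} [∀ N, NormedAddCommGroup (H N)] [∀ N, InnerProductSpace ℂ (H N)]
  [∀ N, CompleteSpace (H N)]

omit [∀ N, CompleteSpace (H N)] in
private theorem dsSm_single {T : ∀ N, H N →L[ℂ] H N} {A : lp H 2 →L[ℂ] lp H 2} (hA : IsDs T A)
    (N : ℕ) (v : H N) : A (lp.single 2 N v) = lp.single 2 N (T N v) := by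
  ext M
  rw [hA]
  by_cases hM : M = N
  · subst hM
    rw [lp.single_apply_self, lp.single_apply_self]
  · rw [lp.single_apply_ne _ _ _ hM, lp.single_apply_ne _ _ _ hM, map_zero]

theorem ds_smooth {W : ∀ N, H N →L[ℂ] H N} {A : lp H 2 →L[ℂ] lp H 2} (hA : IsDs W A) (y : lp H 2)
    (hy : Smooth A y) (N : ℕ) : Smooth (W N) ((y : ∀ N, H N) N) := by
  obtain ⟨C, hC⟩ := hy
  refine ⟨C, fun n u => ?_⟩
  have h1 := hC n (lp.single 2 N u)
  rw [lp.norm_single (by norm_num)] at h1
  refine le_trans (le_of_eq ?_) h1
  refine Finset.sum_congr rfl fun k _ => ?_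
  rw [dsSm_single (ds_pow hA k) N u, lp.inner_single_left]

theorem ds_inj {T : ∀ N, H N →L[ℂ] H N} {A : lp H 2 →L[ℂ] lp H 2} (hA : IsDs T A)
    (h : ∀ N, Function.Injective (T N)) : Function.Injective A := by
  intro x y hxy
  ext N
  apply h N
  rw [← hA x N, ← hA y N, hxy]

theorem ds_dense {T : ∀ N, H N →L[ℂ] H N} {A : lp H 2 →L[ℂ] lp H 2} (hA : IsDs T A)
    (h : ∀ N, Function.Surjective (T N)) : DenseRange A := by
  intro x
  have hx := lp.hasSum_single (E := H) (p := 2) (by norm_num) x
  have hs : ∀ (N : ℕ) (v : H N), lp.single 2 N v ∈ LinearMap.range A.toLinearMap := by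
    intro N v
    obtain ⟨v', rfl⟩ := h N v
    exact ⟨lp.single 2 N v', dsSm_single hA N v'⟩
  have hm : x ∈ ((LinearMap.range A.toLinearMap).topologicalClosure : Set (lp H 2)) := by
    refine (Submodule.isClosed_topologicalClosure _).mem_of_tendsto hx
      (Eventually.of_forall fun t => ?_)
    exact Submodule.le_topologicalClosure _ (Submodule.sum_mem _ fun N _ => hs N _)
  exact hm

end Pool.Agent.Work.MP_ebd05c_an.SG
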