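import Pool.Agent.Work.MP_ebd05c_an.SG.Base
import Pool.Agent.Work.MP_ebd05c_an.H.Cls

set_option autoImplicit false

open scoped BigOperators ENNReal NNReal Topology ComplexConjugate InnerProductSpace
open Finset Filter MeasureTheory

/-!
Let S be the similarity, A = S T S⁻¹, |A| <= 1, Z = S Y: A Z = Z W, so A^n Z = Z W^n. Fix g and put
y = Z* (g - A* A g). <W^n u, y> = <Z W^n u, g - A*A g> = <(1 - A*A) v_n, g>, v_n = A^n Z u. For a
contraction |v - A*A v|^2 = |v|^2 - 2 |A v|^2 + |A*A v|^2 <= |v|^2 - |A v|^2, so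
sum_(n<N) |<W^n u, y>|^2 <= |g|^2 sum_(n<N) (|v_n|^2 - |v_(n+1)|^2) <= |g|^2 |Z u|^2 <= |g|^2 |Z|^2 |u|^2
(Finset.sum_range_sub). So y is smooth, y = 0: <Z u, (1 - A*A) g> = 0 for all u; Z has dense range
(S is a homeomorphism), so (1 - A*A) g = 0 for all g, hence |A v|^2 = <A*A v, v> = |v|^2. Then
|S x| = |A^n S x| = |S T^n x| <= |S| |T^n x| and |x| <= |S⁻¹| |S x|; c = 1/((|S|+1)(|S⁻¹|+1)).
-/

namespace Pool.Agent.Work.MP_ebd05c_an.SG

open Pool.Agent.Work.MP_ebd05c_an.H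

private theorem ls_contr {H : Type} [NormedAddCommGroup H] [InnerProductSpace ℂ H]
    [CompleteSpace H] (A : H →L[ℂ] H) (hA : ‖A‖ ≤ 1) (v : H) :
    ‖v - ContinuousLinearMap.adjoint A (A v)‖ ^ 2 ≤ ‖v‖ ^ 2 - ‖A v‖ ^ 2 := by
  have h1 : ‖v - ContinuousLinearMap.adjoint A (A v)‖ ^ 2 =
      ‖v‖ ^ 2 - 2 * ‖A v‖ ^ 2 + ‖ContinuousLinearMap.adjoint A (A v)‖ ^ 2 := by
    rw [@norm_sub_sq ℂ]
    have h2 : ⟪v, ContinuousLinearMap.adjoint A (A v)⟫_ℂ = ⟪A v, A v⟫_ℂ :=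
      ContinuousLinearMap.adjoint_inner_right A v (A v)
    rw [h2, inner_self_eq_norm_sq_to_K]
    norm_cast
  have h3 : ‖ContinuousLinearMap.adjoint A (A v)‖ ≤ ‖A v‖ := by
    have h4 : ‖ContinuousLinearMap.adjoint A‖ ≤ 1 := by
      rw [← ContinuousLinearMap.star_eq_adjoint, norm_star]
      exact hA
    calc ‖ContinuousLinearMap.adjoint A (A v)‖ ≤ ‖ContinuousLinearMap.adjoint A‖ * ‖A v‖ :=
          ContinuousLinearMap.le_opNorm _ _
      _ ≤ 1 * ‖A v‖ := by gcongr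
      _ = ‖A v‖ := one_mul _
  have h5 : ‖ContinuousLinearMap.adjoint A (A v)‖ ^ 2 ≤ ‖A v‖ ^ 2 :=
    pow_le_pow_left₀ (norm_nonneg _) h3 2
  linarith

theorem lower_of_similar {H : Type} [NormedAddCommGroup H] [InnerProductSpace ℂ H]
    [CompleteSpace H] (T W Y : H →L[ℂ] H) (hns : ∀ y, Smooth W y → y = 0) (hY : DenseRange Y)
    (hTY : T * Y = Y * W) (hS : SimilarToContraction T) :
    ∃ c : ℝ, 0 < c ∧ ∀ (n : ℕ) (x : H), c * ‖x‖ ≤ ‖(T ^ n) x‖ := by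
  obtain ⟨S, hS⟩ := hS
  set A : H →L[ℂ] H := (S : H →L[ℂ] H).comp (T.comp (S.symm : H →L[ℂ] H)) with hA
  set Z : H →L[ℂ] H := (S : H →L[ℂ] H).comp Y with hZ
  have hTY' : ∀ u, T (Y u) = Y (W u) := fun u => congrArg (fun B : H →L[ℂ] H => B u) hTY
  have hAZ : ∀ u, A (Z u) = Z (W u) := by
    intro u
    show S (T (S.symm (S (Y u)))) = S (Y (W u))
    rw [S.symm_apply_apply, hTY']
  have hAZn : ∀ (n : ℕ) (u : H), (A ^ n) (Z u) = Z ((W ^ n) u) := by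
    intro n
    induction n with
    | zero => intro u; rfl
    | succ n ih =>
      intro u
      rw [pow_succ, pow_succ]
      show (A ^ n) (A (Z u)) = Z ((W ^ n) (W u))
      rw [hAZ, ih]
  have hzero : ∀ g : H, g - ContinuousLinearMap.adjoint A (A g) = 0 := by
    intro g
    set q : H := g - ContinuousLinearMap.adjoint A (A g) with hq
    have hsm : ContinuousLinearMap.adjoint Z q = 0 := by
      apply hns
      refine ⟨‖g‖ ^ 2 * ‖Z‖ ^ 2, fun N u => ?_⟩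
      have h1 : ∀ n : ℕ, ‖⟪(W ^ n) u, ContinuousLinearMap.adjoint Z q⟫_ℂ‖ ^ 2 ≤
          ‖g‖ ^ 2 * (‖(A ^ n) (Z u)‖ ^ 2 - ‖(A ^ (n + 1)) (Z u)‖ ^ 2) := by
        intro n
        set v : H := (A ^ n) (Z u) with hv
        have h2 : ⟪(W ^ n) u, ContinuousLinearMap.adjoint Z q⟫_ℂ =
            ⟪v - ContinuousLinearMap.adjoint A (A v), g⟫_ℂ := by
          rw [ContinuousLinearMap.adjoint_inner_right, ← hAZn, hq, inner_sub_right,
            inner_sub_left, ContinuousLinearMap.adjoint_inner_right,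
            ContinuousLinearMap.adjoint_inner_left]
        have h3 : (A ^ (n + 1)) (Z u) = A v := by
          rw [pow_succ']
          rfl
        rw [h2, h3]
        have h4 := norm_inner_le_norm (𝕜 := ℂ) (v - ContinuousLinearMap.adjoint A (A v)) g
        have h5 := ls_contr A hS v
        calc ‖⟪v - ContinuousLinearMap.adjoint A (A v), g⟫_ℂ‖ ^ 2 ≤
            (‖v - ContinuousLinearMap.adjoint A (A v)‖ * ‖g‖) ^ 2 :=
              pow_le_pow_left₀ (norm_nonneg _) h4 2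
          _ = ‖g‖ ^ 2 * ‖v - ContinuousLinearMap.adjoint A (A v)‖ ^ 2 := by ring
          _ ≤ ‖g‖ ^ 2 * (‖v‖ ^ 2 - ‖A v‖ ^ 2) := by gcongr
      calc ∑ n ∈ range N, ‖⟪(W ^ n) u, ContinuousLinearMap.adjoint Z q⟫_ℂ‖ ^ 2 ≤
          ∑ n ∈ range N, ‖g‖ ^ 2 * (‖(A ^ n) (Z u)‖ ^ 2 - ‖(A ^ (n + 1)) (Z u)‖ ^ 2) :=
            Finset.sum_le_sum (fun n _ => h1 n)
        _ = ‖g‖ ^ 2 * (‖(A ^ 0) (Z u)‖ ^ 2 - ‖(A ^ N) (Z u)‖ ^ 2) := by
            rw [← Finset.mul_sum, Finset.sum_range_sub' (fun n => ‖(A ^ n) (Z u)‖ ^ 2)]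
        _ ≤ ‖g‖ ^ 2 * ‖Z u‖ ^ 2 := by
            have h6 : (A ^ 0) (Z u) = Z u := rfl
            rw [h6]
            have h7 : 0 ≤ ‖(A ^ N) (Z u)‖ ^ 2 := by positivity
            have h8 : 0 ≤ ‖g‖ ^ 2 := by positivity
            nlinarith
        _ ≤ ‖g‖ ^ 2 * (‖Z‖ * ‖u‖) ^ 2 := by
            gcongr
            exact Z.le_opNorm u
        _ = ‖g‖ ^ 2 * ‖Z‖ ^ 2 * ‖u‖ ^ 2 := by ring
    have hZd : DenseRange Z := by
      have h1 : (Z : H → H) = S ∘ Y := rfl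
      rw [h1]
      exact S.surjective.denseRange.comp hY S.continuous
    apply hZd.eq_zero_of_inner_right ℂ
    intro u
    have h1 := ContinuousLinearMap.adjoint_inner_right Z u q
    rw [hsm, inner_zero_right] at h1
    exact h1.symm
  have hiso : ∀ v, ‖A v‖ = ‖v‖ := by
    intro v
    have h1 := ls_contr A hS v
    rw [hzero v] at h1
    have h2 : ⟪ContinuousLinearMap.adjoint A (A v), v⟫_ℂ = ⟪A v, A v⟫_ℂ :=
      ContinuousLinearMap.adjoint_inner_left A v (A v)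
    have h3 : ContinuousLinearMap.adjoint A (A v) = v := (sub_eq_zero.1 (hzero v)).symm
    rw [h3, inner_self_eq_norm_sq_to_K, inner_self_eq_norm_sq_to_K] at h2
    have h4 : ‖v‖ ^ 2 = ‖A v‖ ^ 2 := by exact_mod_cast h2
    exact ((pow_left_inj₀ (norm_nonneg _) (norm_nonneg _) two_ne_zero).1 h4).symm
  have hison : ∀ (n : ℕ) v, ‖(A ^ n) v‖ = ‖v‖ := by
    intro n
    induction n with
    | zero => intro v; rfl
    | succ n ih =>
      intro v
      rw [pow_succ]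
      show ‖(A ^ n) (A v)‖ = ‖v‖
      rw [ih, hiso]
  have hpow : ∀ (n : ℕ) x, S ((T ^ n) x) = (A ^ n) (S x) := by
    intro n
    induction n with
    | zero => intro x; rfl
    | succ n ih =>
      intro x
      rw [pow_succ, pow_succ]
      show S ((T ^ n) (T x)) = (A ^ n) (A (S x))
      rw [ih]
      congr 1
      show S (T x) = S (T (S.symm (S x)))
      rw [S.symm_apply_apply]
  set a : ℝ := ‖(S : H →L[ℂ] H)‖ with ha
  set b : ℝ := ‖(S.symm : H →L[ℂ] H)‖ with hb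
  have ha0 : 0 ≤ a := norm_nonneg _
  have hb0 : 0 ≤ b := norm_nonneg _
  refine ⟨1 / ((a + 1) * (b + 1)), by positivity, fun n x => ?_⟩
  rw [div_mul_eq_mul_div, one_mul, div_le_iff₀ (by positivity)]
  have h1 : ‖x‖ ≤ b * ‖S x‖ := by
    have h2 := (S.symm : H →L[ℂ] H).le_opNorm (S x)
    have h3 : (S.symm : H →L[ℂ] H) (S x) = x := S.symm_apply_apply x
    rwa [h3] at h2
  have h2 : ‖S x‖ ≤ a * ‖(T ^ n) x‖ := by
    have h3 := (S : H →L[ℂ] H).le_opNorm ((T ^ n) x)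
    have h4 : (S : H →L[ℂ] H) ((T ^ n) x) = (A ^ n) (S x) := hpow n x
    rwa [h4, hison] at h3
  calc ‖x‖ ≤ b * ‖S x‖ := h1
    _ ≤ b * (a * ‖(T ^ n) x‖) := by gcongr
    _ = a * b * ‖(T ^ n) x‖ := by ring
    _ ≤ (a + 1) * (b + 1) * ‖(T ^ n) x‖ := by
        gcongr
        · linarith
        · linarith
    _ = ‖(T ^ n) x‖ * ((a + 1) * (b + 1)) := by ring

end Pool.Agent.Work.MP_ebd05c_an.SG
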