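import Pool.Agent.Work.MP_ebd05c_an.SG.Base

set_option autoImplicit false

open scoped BigOperators ENNReal NNReal Topology ComplexConjugate InnerProductSpace
open Finset Filter MeasureTheory

/-!
Let f = μ.rnDeriv m, μ = μ.singularPart m + m.withDensity f. As μ is not singular, f is not m-a.e. 0
(Measure.rnDeriv_eq_zero or rnDeriv_eq_zero_iff_mutuallySingular), so for some natural number M the
set {0 < f <= M} has positive m measure. Let N be measurable with m N = 0 and singularPart (Nᶜ) = 0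
(mutuallySingular_singularPart), E = {0 < f <= M} ∩ Nᶜ. For measurable B: μ (B ∩ E) =
(m.withDensity f)(B ∩ E) = ∫⁻_(B ∩ E) f dm <= M m B. And μ E = ∫⁻_E f dm > 0 since f > 0 on E and
m E > 0 (setLIntegral_pos_iff / lintegral_pos_iff_support).
-/

namespace Pool.Agent.Work.MP_ebd05c_an.SG

open Pool.Agent.Work.MP_ebd05c_an.H

theorem exists_set {X : Type*} [MeasurableSpace X] (μ m : Measure X) [IsFiniteMeasure μ]
    [IsFiniteMeasure m] (h : ¬ μ ⟂ₘ m) :
    ∃ E : Set X, MeasurableSet E ∧ 0 < μ E ∧ ∃ M : ℝ≥0, μ.restrict E ≤ M • m := by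
  have hmeas : Measurable (μ.rnDeriv m) := Measure.measurable_rnDeriv μ m
  set f := μ.rnDeriv m with hf
  have hdec : μ = μ.singularPart m + m.withDensity f :=
    (Measure.singularPart_add_rnDeriv μ m).symm
  have hM : ∃ M : ℕ, m {x | 0 < f x ∧ f x ≤ M} ≠ 0 := by
    by_contra hcon
    push Not at hcon
    apply h
    rw [← Measure.rnDeriv_eq_zero]
    have hlt : ∀ᵐ x ∂m, f x < ∞ := Measure.rnDeriv_lt_top μ m
    have hall : ∀ᵐ x ∂m, ∀ M : ℕ, ¬ (0 < f x ∧ f x ≤ M) := by
      rw [ae_all_iff]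
      intro M
      rw [ae_iff]
      simpa only [not_not] using hcon M
    filter_upwards [hlt, hall] with x hx1 hx2
    by_contra hne
    obtain ⟨M, hM⟩ := ENNReal.exists_nat_gt hx1.ne
    exact hx2 M ⟨pos_iff_ne_zero.2 hne, hM.le⟩
  obtain ⟨M, hM⟩ := hM
  obtain ⟨N, hN, hN1, hN2⟩ := Measure.mutuallySingular_singularPart μ m
  have hS : MeasurableSet {x | 0 < f x ∧ f x ≤ M} :=
    (measurableSet_lt measurable_const hmeas).inter (measurableSet_le hmeas measurable_const)
  have hEm : MeasurableSet ({x | 0 < f x ∧ f x ≤ M} ∩ N) := hS.inter hN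
  have hval : ∀ B, MeasurableSet B → μ (B ∩ ({x | 0 < f x ∧ f x ≤ M} ∩ N)) =
      ∫⁻ x in B ∩ ({x | 0 < f x ∧ f x ≤ M} ∩ N), f x ∂m := by
    intro B hB
    conv_lhs => rw [hdec]
    rw [Measure.add_apply, withDensity_apply _ (hB.inter hEm)]
    have h0 : μ.singularPart m (B ∩ ({x | 0 < f x ∧ f x ≤ M} ∩ N)) = 0 := by
      apply measure_mono_null _ hN1
      intro x hx
      exact hx.2.2
    rw [h0, zero_add]
  refine ⟨{x | 0 < f x ∧ f x ≤ M} ∩ N, hEm, ?_, M, ?_⟩
  · have h1 := hval Set.univ MeasurableSet.univ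
    rw [Set.univ_inter] at h1
    rw [h1, setLIntegral_pos_iff hmeas]
    have h2 : Function.support f ∩ ({x | 0 < f x ∧ f x ≤ M} ∩ N) =
        {x | 0 < f x ∧ f x ≤ M} ∩ N := by
      apply Set.inter_eq_right.2
      intro x hx
      exact hx.1.1.ne'
    rw [h2, pos_iff_ne_zero]
    intro h3
    apply hM
    have h4 : {x | 0 < f x ∧ f x ≤ M} ⊆ ({x | 0 < f x ∧ f x ≤ M} ∩ N) ∪ Nᶜ := by
      intro x hx
      by_cases hxN : x ∈ N
      · exact Or.inl ⟨hx, hxN⟩
      · exact Or.inr hxN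
    exact measure_mono_null h4 (measure_union_null h3 hN2)
  · rw [Measure.le_iff]
    intro B hB
    rw [Measure.restrict_apply hB, hval B hB, Measure.smul_apply]
    calc ∫⁻ x in B ∩ ({x | 0 < f x ∧ f x ≤ M} ∩ N), f x ∂m
        ≤ ∫⁻ _ in B ∩ ({x | 0 < f x ∧ f x ≤ M} ∩ N), (M : ℝ≥0∞) ∂m := by
          apply setLIntegral_mono measurable_const
          intro x hx
          exact hx.2.1.2
      _ = (M : ℝ≥0∞) * m (B ∩ ({x | 0 < f x ∧ f x ≤ M} ∩ N)) := by
          rw [setLIntegral_const]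
      _ ≤ (M : ℝ≥0∞) * m B := by
          gcongr
          exact Set.inter_subset_left
      _ = _ := by
          rw [ENNReal.smul_def, smul_eq_mul]
          norm_cast

end Pool.Agent.Work.MP_ebd05c_an.SG
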