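import Pool.Agent.Work.MP_ebd05c_an.SG.Base

set_option autoImplicit false

open scoped BigOperators ENNReal NNReal Topology ComplexConjugate InnerProductSpace
open Finset Filter MeasureTheory

/-!
The indicator function 1_E is in L2(μ) (μ finite); bounded continuous functions are dense
(MemLp.exists_boundedContinuous_eLpNorm_sub_le, or ContinuousMap.toLp_denseRange), so there is a
continuous g with ∫ |g - 1_E|^2 < η/4. The span of the characters is dense in C(UnitAddCircle, ℂ)
(span_fourier_closure_eq_top): a trigonometric polynomial q with sup |q - g|^2 μ(univ) < η/4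
(elements of the span of the range of fourier: Finsupp / mem_span_range_iff_exists_finsupp).
|q - 1_E|^2 <= 2 |q - g|^2 + 2 |g - 1_E|^2.
-/

namespace Pool.Agent.Work.MP_ebd05c_an.SG

open Pool.Agent.Work.MP_ebd05c_an.H

theorem trig_dense (μ : Measure UnitAddCircle) [IsFiniteMeasure μ] (E : Set UnitAddCircle)
    (hE : MeasurableSet E) (η : ℝ) (hη : 0 < η) : ∃ (F : Finset ℤ) (a : ℤ → ℂ),
      ∫ t, ‖∑ n ∈ F, a n * fourier n t - E.indicator (fun _ => (1 : ℂ)) t‖ ^ 2 ∂μ < η := by
  have hf : MemLp (E.indicator (fun _ => (1 : ℂ))) (ENNReal.ofReal 2) μ :=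
    memLp_indicator_const _ hE _ (Or.inr (measure_ne_top _ _))
  obtain ⟨g, hg, hgm⟩ := hf.exists_boundedContinuous_integral_rpow_sub_le (by norm_num)
    (ε := η / 8) (by positivity)
  set M : ℝ := μ.real Set.univ with hM
  have hM0 : 0 ≤ M := measureReal_nonneg
  obtain ⟨δ, hδ, hδM⟩ : ∃ δ : ℝ, 0 < δ ∧ 2 * δ ^ 2 * M ≤ η / 4 := by
    refine ⟨Real.sqrt (η / (8 * (M + 1))), Real.sqrt_pos.mpr (by positivity), ?_⟩
    rw [Real.sq_sqrt (by positivity)]
    have : 2 * (η / (8 * (M + 1))) * M = η / 4 * (M / (M + 1)) := by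
      field_simp
      ring
    rw [this]
    have h1 : M / (M + 1) ≤ 1 := by
      rw [div_le_one (by positivity)]
      linarith
    nlinarith
  have hmem : (g.toContinuousMap : C(UnitAddCircle, ℂ)) ∈
      closure (Submodule.span ℂ (Set.range (@fourier 1)) : Set C(UnitAddCircle, ℂ)) := by
    have h := span_fourier_closure_eq_top (T := 1)
    have h2 : (g.toContinuousMap : C(UnitAddCircle, ℂ)) ∈
        (Submodule.span ℂ (Set.range (@fourier 1))).topologicalClosure := by
      rw [h]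
      trivial
    exact h2
  obtain ⟨q, hq, hgq⟩ := Metric.mem_closure_iff.mp hmem δ hδ
  obtain ⟨c, hc⟩ := (Finsupp.mem_span_range_iff_exists_finsupp).mp hq
  refine ⟨c.support, c, ?_⟩
  have hqt : ∀ t, ∑ n ∈ c.support, c n * fourier n t = q t := by
    intro t
    rw [← hc, Finsupp.sum]
    simp
  have hpt : ∀ t, ‖∑ n ∈ c.support, c n * fourier n t - E.indicator (fun _ => (1 : ℂ)) t‖ ^ 2 ≤
      2 * δ ^ 2 + 2 * ‖E.indicator (fun _ => (1 : ℂ)) t - g t‖ ^ (2 : ℝ) := by
    intro t
    rw [hqt t]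
    have h1 : ‖q t - g t‖ ≤ δ := by
      have h2 : dist (g.toContinuousMap t) (q t) ≤ dist (g.toContinuousMap) q :=
        ContinuousMap.dist_apply_le_dist t
      rw [dist_comm, dist_eq_norm] at h2
      exact h2.trans hgq.le
    have h3 : ‖q t - E.indicator (fun _ => (1 : ℂ)) t‖ ≤
        ‖q t - g t‖ + ‖E.indicator (fun _ => (1 : ℂ)) t - g t‖ := by
      have : q t - E.indicator (fun _ => (1 : ℂ)) t =
          (q t - g t) - (E.indicator (fun _ => (1 : ℂ)) t - g t) := by ring
      rw [this]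
      exact norm_sub_le _ _
    rw [Real.rpow_two]
    have h4 : 0 ≤ ‖q t - g t‖ := norm_nonneg _
    have h5 : 0 ≤ ‖E.indicator (fun _ => (1 : ℂ)) t - g t‖ := norm_nonneg _
    have h6 : ‖q t - E.indicator (fun _ => (1 : ℂ)) t‖ ^ 2 ≤
        (‖q t - g t‖ + ‖E.indicator (fun _ => (1 : ℂ)) t - g t‖) ^ 2 := by
      gcongr
    have h7 : ‖q t - g t‖ ^ 2 ≤ δ ^ 2 := by gcongr
    nlinarith [sq_nonneg (‖q t - g t‖ - ‖E.indicator (fun _ => (1 : ℂ)) t - g t‖)]
  have hint : Integrable (fun t => ‖E.indicator (fun _ => (1 : ℂ)) t - g t‖ ^ (2 : ℝ)) μ := by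
    have := (hf.sub hgm).integrable_norm_rpow (by simp) (by simp)
    simpa using this
  have hint2 : Integrable (fun t => 2 * δ ^ 2 +
      2 * ‖E.indicator (fun _ => (1 : ℂ)) t - g t‖ ^ (2 : ℝ)) μ :=
    (integrable_const _).add (hint.const_mul 2)
  calc ∫ t, ‖∑ n ∈ c.support, c n * fourier n t - E.indicator (fun _ => (1 : ℂ)) t‖ ^ 2 ∂μ
      ≤ ∫ t, (2 * δ ^ 2 + 2 * ‖E.indicator (fun _ => (1 : ℂ)) t - g t‖ ^ (2 : ℝ)) ∂μ :=
        integral_mono_of_nonneg (Filter.Eventually.of_forall fun t => by positivity) hint2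
          (Filter.Eventually.of_forall hpt)
    _ = 2 * δ ^ 2 * M + 2 * ∫ t, ‖E.indicator (fun _ => (1 : ℂ)) t - g t‖ ^ (2 : ℝ) ∂μ := by
        rw [integral_add (integrable_const _) (hint.const_mul 2), integral_const,
          integral_const_mul, smul_eq_mul, ← hM]
        ring
    _ < η := by
        linarith

end Pool.Agent.Work.MP_ebd05c_an.SG
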