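import Pool.Agent.Work.MP_ebd05c_an.SG.UEx

set_option autoImplicit false

open scoped BigOperators ENNReal NNReal Topology ComplexConjugate InnerProductSpace
open Finset Filter MeasureTheory

/-!
The coined shift, the weighted operators and the cut estimate (definitions only).
-/

namespace Pool.Agent.Work.MP_ebd05c_an.SG

open Pool.Agent.Work.MP_ebd05c_an.H

/-- the coined shift -/
noncomputable def UU (θ : ℕ → ℝ) : KK ≃ₗᵢ[ℂ] KK := (exists_U θ).choose

theorem UU_apply (θ : ℕ → ℝ) (u : KK) (m : ℤ) :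
    (UU θ u : ℤ → ℂ) (m + 1) = (Real.cos (ang θ m) : ℂ) * (u : ℤ → ℂ) m +
      (Real.sin (ang θ m) : ℂ) * (u : ℤ → ℂ) (sgm m) :=
  (exists_U θ).choose_spec u m

/-- the coined shift as an operator -/
noncomputable def UO (θ : ℕ → ℝ) : KK →L[ℂ] KK := (UU θ : KK →L[ℂ] KK)

/-- its inverse as an operator -/
noncomputable def UI (θ : ℕ → ℝ) : KK →L[ℂ] KK := ((UU θ).symm : KK →L[ℂ] KK)

theorem UO_pow (θ : ℕ → ℝ) (n : ℕ) (u : KK) : (UO θ ^ n) u = (UU θ ^ n) u := by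
  induction n generalizing u with
  | zero => rfl
  | succ n ih =>
    rw [pow_succ, pow_succ]
    exact ih _

theorem UI_pow (θ : ℕ → ℝ) (n : ℕ) (u : KK) : (UI θ ^ n) u = ((UU θ)⁻¹ ^ n) u := by
  induction n generalizing u with
  | zero => rfl
  | succ n ih =>
    rw [pow_succ, pow_succ]
    exact ih _

/-- the cut estimate: no more than `ε` crosses backwards over the cuts `-h`, `h ≤ h0` -/
def Good (θ : ℕ → ℝ) (h0 : ℕ) (ε : ℝ) : Prop :=
  ∀ h ≤ h0, ∀ (n : ℕ) (u : KK), (∀ m : ℤ, m < -(h : ℤ) → (u : ℤ → ℂ) m = 0) →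
    ‖PP (Set.Iio (-(h : ℤ))) ((UU θ ^ n) u)‖ ≤ ε * ‖u‖

/-- the weighted operator -/
noncomputable def TT (w : ℤ → ℝ) (θ : ℕ → ℝ) : KK →L[ℂ] KK :=
  DD w * (UO θ * DD fun m => (w m)⁻¹)

/-- its inverse -/
noncomputable def RR (w : ℤ → ℝ) (θ : ℕ → ℝ) : KK →L[ℂ] KK :=
  DD w * (UI θ * DD fun m => (w m)⁻¹)

/-- normalised Haar measure of the circle group `ℝ / ℤ` -/
noncomputable abbrev mm : Measure UnitAddCircle := AddCircle.haarAddCircle

end Pool.Agent.Work.MP_ebd05c_an.SG
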