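import Pool.Agent.Work.MP_ebd05c_an.SG.NormEq
import Pool.Agent.Work.MP_ebd05c_an.SG.TrigD
import Pool.Agent.Work.MP_ebd05c_an.SG.UU

set_option autoImplicit false

open scoped BigOperators ENNReal NNReal Topology ComplexConjugate InnerProductSpace
open Finset Filter MeasureTheory

/-!
For j natural choose (F_j, a_j) from trig_dense with η = 4^(-j) and put q_j = sum_(n in F_j) a_j n fourier n,
y_j = sum_(n in F_j) a_j n • w^n x. By norm_trig |y_j - y_l|^2 = ∫ |q_j - q_l|^2 dμ (index set the disjoint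
sum of F_j and F_l with signs), so y_j is a Cauchy sequence, y_j -> y. |y_j|^2 = ∫ |q_j|^2 -> ∫ 1_E dμ
= μ E (| |q_j|_2 - |1_E|_2 | <= |q_j - 1_E|_2), so |y|^2 = μ E > 0 and y ≠ 0.
Claim: for every finite trigonometric sum p = sum_(i in G) c_i fourier (k i):
|sum c_i w^(k i) y|^2 <= M ∫ |p|^2 dmm.                                             (*)
Indeed sum_i c_i w^(k i) y_j has norm square ∫ |p q_j|^2 dμ (norm_trig with index set G × F_j, exponents
k i + n), which tends to ∫_E |p|^2 dμ (p is bounded, q_j -> 1_E in L2(μ)) <= M ∫ |p|^2 dmm (hM).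
Smooth with C = M: for u, N put c_n = conj ? chosen as follows: b_n = <w^n u, y>, n < N,
sum_n |b_n|^2 = sum_n conj(b_n) <w^n u, y> = <u, sum_n conj(b_n) w^(-n) y> <= |u| |sum_n conj(b_n) w^(-n) y|
<= |u| (M sum_n |b_n|^2)^(1/2) by (*) and orthonormality of the characters (∫ |p|^2 dmm = sum |c_n|^2 for
distinct exponents; orthonormal_fourier, or norm_trig-like expansion). So sum |b_n|^2 <= M |u|^2.
((w : H →L H)^n = ((w^n : unitary) : H →L H), SubmonoidClass.coe_pow, zpow_natCast.)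
-/

namespace Pool.Agent.Work.MP_ebd05c_an.SG

open Pool.Agent.Work.MP_ebd05c_an.H

private theorem trig_cont {ι : Type} (F : Finset ι) (a : ι → ℂ) (k : ι → ℤ) :
    Continuous (fun t : UnitAddCircle => ∑ i ∈ F, a i * fourier (k i) t) := by
  refine continuous_finset_sum _ fun i _ => continuous_const.mul (fourier (k i)).continuous

private theorem trig_bound {ι : Type} (F : Finset ι) (a : ι → ℂ) (k : ι → ℤ) (t : UnitAddCircle) :
    ‖∑ i ∈ F, a i * fourier (k i) t‖ ≤ ∑ i ∈ F, ‖a i‖ := by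
  refine (norm_sum_le _ _).trans (Finset.sum_le_sum fun i _ => ?_)
  rw [norm_mul]
  have h1 : ‖(fourier (k i) : C(UnitAddCircle, ℂ)) t‖ ≤ 1 := by
    have h2 := (fourier (T := (1 : ℝ)) (k i)).norm_coe_le_norm t
    rw [fourier_norm] at h2
    exact h2
  calc ‖a i‖ * ‖(fourier (k i) : C(UnitAddCircle, ℂ)) t‖ ≤ ‖a i‖ * 1 := by gcongr
    _ = ‖a i‖ := mul_one _

private theorem ind_meas (E : Set UnitAddCircle) (hE : MeasurableSet E) :
    Measurable (E.indicator (fun _ => (1 : ℂ))) := measurable_const.indicator hE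

private theorem ind_norm_le (E : Set UnitAddCircle) (t : UnitAddCircle) :
    ‖E.indicator (fun _ => (1 : ℂ)) t‖ ≤ 1 := by
  classical
  by_cases h : t ∈ E
  · rw [Set.indicator_of_mem h, norm_one]
  · rw [Set.indicator_of_notMem h, norm_zero]
    exact zero_le_one

private theorem diff_int (μ : Measure UnitAddCircle) [IsFiniteMeasure μ] (E : Set UnitAddCircle)
    (hE : MeasurableSet E) (F : Finset ℤ) (a : ℤ → ℂ) :
    Integrable (fun t => ‖∑ n ∈ F, a n * fourier n t - E.indicator (fun _ => (1 : ℂ)) t‖ ^ 2) μ := by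
  refine Integrable.of_bound ?_ ((∑ n ∈ F, ‖a n‖ + 1) ^ 2) (ae_of_all _ fun t => ?_)
  · exact (((trig_cont F a id).measurable.sub (ind_meas E hE)).norm.pow_const 2).aestronglyMeasurable
  · rw [Real.norm_of_nonneg (by positivity)]
    gcongr
    refine (norm_sub_le _ _).trans (add_le_add ?_ (ind_norm_le E t))
    exact trig_bound F a id t

private theorem elem_bound (p q b : ℂ) (C s : ℝ) (hp : ‖p‖ ≤ C) (hb : ‖b‖ ≤ 1) (hs : 0 < s) :
    |‖p * q‖ ^ 2 - ‖p * b‖ ^ 2| ≤ C ^ 2 * ((1 + s) * ‖q - b‖ ^ 2 + 1 / s) := by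
  have hC : 0 ≤ C := (norm_nonneg p).trans hp
  have h1 : |‖q‖ - ‖b‖| ≤ ‖q - b‖ := abs_norm_sub_norm_le q b
  have h2 : ‖q‖ + ‖b‖ ≤ ‖q - b‖ + 2 := by
    have := norm_sub_norm_le q b
    linarith
  have h3 : |‖q‖ ^ 2 - ‖b‖ ^ 2| ≤ ‖q - b‖ * (‖q - b‖ + 2) := by
    have e : ‖q‖ ^ 2 - ‖b‖ ^ 2 = (‖q‖ - ‖b‖) * (‖q‖ + ‖b‖) := by ring
    rw [e, abs_mul, abs_of_nonneg (by positivity : (0 : ℝ) ≤ ‖q‖ + ‖b‖)]
    exact mul_le_mul h1 h2 (by positivity) (norm_nonneg _)
  have h4 : 2 * ‖q - b‖ ≤ s * ‖q - b‖ ^ 2 + 1 / s := by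
    have h5 : 0 ≤ s * (‖q - b‖ - 1 / s) ^ 2 := by positivity
    have h6 : s * (‖q - b‖ - 1 / s) ^ 2 = s * ‖q - b‖ ^ 2 - 2 * ‖q - b‖ + 1 / s := by
      field_simp
      ring
    linarith
  have h7 : ‖p * q‖ ^ 2 - ‖p * b‖ ^ 2 = ‖p‖ ^ 2 * (‖q‖ ^ 2 - ‖b‖ ^ 2) := by
    rw [norm_mul, norm_mul]; ring
  rw [h7, abs_mul, abs_of_nonneg (by positivity : (0 : ℝ) ≤ ‖p‖ ^ 2)]
  refine mul_le_mul (pow_le_pow_left₀ (norm_nonneg _) hp 2) (h3.trans ?_) (abs_nonneg _)
    (by positivity)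
  nlinarith

private theorem key_tendsto (μ : Measure UnitAddCircle) [IsFiniteMeasure μ] (E : Set UnitAddCircle)
    (hE : MeasurableSet E) (F : ℕ → Finset ℤ) (a : ℕ → ℤ → ℂ)
    (h : ∀ j : ℕ, ∫ t, ‖∑ n ∈ F j, a j n * fourier n t - E.indicator (fun _ => (1 : ℂ)) t‖ ^ 2 ∂μ <
      (1 / 4 : ℝ) ^ j) {ι : Type} (G : Finset ι) (c : ι → ℂ) (k : ι → ℤ) :
    Tendsto (fun j : ℕ => ∫ t, ‖(∑ i ∈ G, c i * fourier (k i) t) *
      ∑ n ∈ F j, a j n * fourier n t‖ ^ 2 ∂μ) atTop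
      (𝓝 (∫ t in E, ‖∑ i ∈ G, c i * fourier (k i) t‖ ^ 2 ∂μ)) := by
  set C : ℝ := ∑ i ∈ G, ‖c i‖ with hC
  have hC0 : 0 ≤ C := Finset.sum_nonneg fun i _ => norm_nonneg _
  have hI : (∫ t in E, ‖∑ i ∈ G, c i * fourier (k i) t‖ ^ 2 ∂μ) =
      ∫ t, ‖(∑ i ∈ G, c i * fourier (k i) t) * E.indicator (fun _ => (1 : ℂ)) t‖ ^ 2 ∂μ := by
    rw [← integral_indicator hE]
    refine integral_congr_ae (ae_of_all _ fun t => ?_)
    by_cases ht : t ∈ E
    · simp [Set.indicator_of_mem ht]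
    · simp [Set.indicator_of_notMem ht]
  rw [hI, tendsto_iff_norm_sub_tendsto_zero]
  have hbd : ∀ j : ℕ, ‖(∫ t, ‖(∑ i ∈ G, c i * fourier (k i) t) *
      ∑ n ∈ F j, a j n * fourier n t‖ ^ 2 ∂μ) -
      ∫ t, ‖(∑ i ∈ G, c i * fourier (k i) t) * E.indicator (fun _ => (1 : ℂ)) t‖ ^ 2 ∂μ‖ ≤
      C ^ 2 * ((1 / 4 : ℝ) ^ j + (1 / 2 : ℝ) ^ j + (1 / 2 : ℝ) ^ j * μ.real Set.univ) := by
    intro j
    have hi1 : Integrable (fun t => ‖(∑ i ∈ G, c i * fourier (k i) t) *
        ∑ n ∈ F j, a j n * fourier n t‖ ^ 2) μ := by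
      refine Integrable.of_bound ?_ ((C * ∑ n ∈ F j, ‖a j n‖) ^ 2) (ae_of_all _ fun t => ?_)
      · exact (((trig_cont G c k).measurable.mul
          (trig_cont (F j) (a j) id).measurable).norm.pow_const 2).aestronglyMeasurable
      · rw [Real.norm_of_nonneg (by positivity), norm_mul]
        gcongr
        · exact trig_bound G c k t
        · exact trig_bound (F j) (a j) id t
    have hi2 : Integrable (fun t => ‖(∑ i ∈ G, c i * fourier (k i) t) *
        E.indicator (fun _ => (1 : ℂ)) t‖ ^ 2) μ := by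
      refine Integrable.of_bound ?_ ((C * 1) ^ 2) (ae_of_all _ fun t => ?_)
      · exact (((trig_cont G c k).measurable.mul (ind_meas E hE)).norm.pow_const
          2).aestronglyMeasurable
      · rw [Real.norm_of_nonneg (by positivity), norm_mul]
        gcongr
        · exact trig_bound G c k t
        · exact ind_norm_le E t
    have hs : (0 : ℝ) < 2 ^ j := by positivity
    have hi3 := diff_int μ E hE (F j) (a j)
    rw [← integral_sub hi1 hi2]
    have hi4 : Integrable (fun t => C ^ 2 * ((1 + 2 ^ j) *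
        ‖∑ n ∈ F j, a j n * fourier n t - E.indicator (fun _ => (1 : ℂ)) t‖ ^ 2 + 1 / 2 ^ j)) μ :=
      ((hi3.const_mul _).add (integrable_const _)).const_mul _
    have h1 := norm_integral_le_of_norm_le hi4 (ae_of_all μ fun t => by
      rw [Real.norm_eq_abs]
      exact elem_bound (∑ i ∈ G, c i * fourier (k i) t) (∑ n ∈ F j, a j n * fourier n t)
        (E.indicator (fun _ => (1 : ℂ)) t) C (2 ^ j) (trig_bound G c k t) (ind_norm_le E t) hs)
    refine h1.trans ?_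
    rw [integral_const_mul, integral_add (hi3.const_mul _) (integrable_const _),
      integral_const_mul, integral_const]
    refine mul_le_mul_of_nonneg_left ?_ (by positivity)
    have h2 := (h j).le
    have e1 : (2 : ℝ) ^ j * (1 / 4) ^ j = (1 / 2) ^ j := by
      rw [← mul_pow]; norm_num
    have e2 : (1 : ℝ) / 2 ^ j = (1 / 2) ^ j := by
      rw [div_pow, one_pow]
    rw [smul_eq_mul, e2]
    have h3 : (1 + (2 : ℝ) ^ j) * ∫ t, ‖∑ n ∈ F j, a j n * fourier n t -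
        E.indicator (fun _ => (1 : ℂ)) t‖ ^ 2 ∂μ ≤ (1 + 2 ^ j) * (1 / 4) ^ j :=
      mul_le_mul_of_nonneg_left h2 (by positivity)
    have h4 : (1 + (2 : ℝ) ^ j) * (1 / 4) ^ j = (1 / 4) ^ j + (1 / 2) ^ j := by
      rw [add_mul, one_mul, e1]
    linarith [mul_comm (μ.real Set.univ) ((1 / 2 : ℝ) ^ j)]
  refine squeeze_zero (fun j => norm_nonneg _) hbd ?_
  have t1 : Tendsto (fun j : ℕ => (1 / 4 : ℝ) ^ j) atTop (𝓝 0) :=
    tendsto_pow_atTop_nhds_zero_of_lt_one (by norm_num) (by norm_num)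
  have t2 : Tendsto (fun j : ℕ => (1 / 2 : ℝ) ^ j) atTop (𝓝 0) :=
    tendsto_pow_atTop_nhds_zero_of_lt_one (by norm_num) (by norm_num)
  have t3 := ((t1.add t2).add (t2.mul_const (μ.real Set.univ))).const_mul (C ^ 2)
  simpa using t3

private theorem parseval {ι : Type} (s : Finset ι) (k : ι → ℤ) (hk : Function.Injective k)
    (c : ι → ℂ) : ∫ t, ‖∑ i ∈ s, c i * fourier (k i) t‖ ^ 2 ∂mm = ∑ i ∈ s, ‖c i‖ ^ 2 := by
  have ho : Orthonormal ℂ (fun i : ι => fourierLp (T := (1 : ℝ)) 2 (k i)) :=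
    (orthonormal_fourier (T := (1 : ℝ))).comp k hk
  set f : C(UnitAddCircle, ℂ) := ∑ i ∈ s, c i • fourier (k i) with hf
  have h1 : ContinuousMap.toLp (E := ℂ) 2 mm ℂ f =
      ∑ i ∈ s, c i • fourierLp (T := (1 : ℝ)) 2 (k i) := by
    rw [hf, map_sum]
    refine Finset.sum_congr rfl fun i _ => ?_
    rw [map_smul]
  have h2 := ho.inner_sum c c s
  rw [← h1, ContinuousMap.inner_toLp] at h2
  have h3 : ∀ t, f t * conj (f t) = ((‖∑ i ∈ s, c i * fourier (k i) t‖ ^ 2 : ℝ) : ℂ) := by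
    intro t
    rw [Complex.mul_conj, Complex.normSq_eq_norm_sq]
    congr 3
    rw [hf, ContinuousMap.sum_apply]
    rfl
  have h4 : ∀ i, conj (c i) * c i = ((‖c i‖ ^ 2 : ℝ) : ℂ) := by
    intro i
    rw [mul_comm, Complex.mul_conj, Complex.normSq_eq_norm_sq]
  simp only [h3, h4] at h2
  rw [integral_complex_ofReal] at h2
  exact_mod_cast h2

theorem smooth_of_set {H : Type} [NormedAddCommGroup H] [InnerProductSpace ℂ H] [CompleteSpace H]
    (w : unitary (H →L[ℂ] H)) (x : H) (μ : Measure UnitAddCircle) [IsFiniteMeasure μ]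
    (hμ : ∀ n : ℤ, ⟪x, ((w ^ n : unitary (H →L[ℂ] H)) : H →L[ℂ] H) x⟫_ℂ = ∫ t, fourier n t ∂μ)
    (E : Set UnitAddCircle) (hE : MeasurableSet E) (hpos : 0 < μ E) (M : ℝ≥0)
    (hM : μ.restrict E ≤ M • mm) : ∃ y : H, y ≠ 0 ∧ Smooth (w : H →L[ℂ] H) y := by
  classical
  choose F a hF using fun j : ℕ => trig_dense μ E hE ((1 / 4 : ℝ) ^ j) (by positivity)
  set W : ℤ → (H →L[ℂ] H) := fun n => ((w ^ n : unitary (H →L[ℂ] H)) : H →L[ℂ] H) with hW
  have hWadd : ∀ (m n : ℤ) (v : H), W m (W n v) = W (m + n) v := by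
    intro m n v
    simp only [hW]
    rw [zpow_add]
    rfl
  have hWzero : ∀ v : H, W 0 v = v := by
    intro v
    simp only [hW]
    rw [zpow_zero]
    rfl
  obtain ⟨Y, hY⟩ : ∃ Y : ℕ → H, ∀ j, Y j = ∑ n ∈ F j, a j n • W n x := ⟨_, fun j => rfl⟩
  -- the sequence is Cauchy
  have hd : ∀ j, dist (Y j) (Y (j + 1)) ≤ 2 * (1 / 2 : ℝ) ^ j := by
    intro j
    have h1 : ‖Y j - Y (j + 1)‖ ^ 2 = ∫ t, ‖(∑ n ∈ F j, a j n * fourier n t) -
        ∑ n ∈ F (j + 1), a (j + 1) n * fourier n t‖ ^ 2 ∂μ := by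
      have h := norm_trig w x μ hμ ((F j).disjSum (F (j + 1)))
        (Sum.elim (a j) (fun n => -a (j + 1) n)) (Sum.elim id id)
      rw [Finset.sum_disjSum] at h
      simp only [Finset.sum_disjSum, Sum.elim_inl, Sum.elim_inr, id_eq, neg_smul, neg_mul,
        Finset.sum_neg_distrib, ← sub_eq_add_neg] at h
      rw [hY, hY]
      exact h
    have hi1 := diff_int μ E hE (F j) (a j)
    have hi2 := diff_int μ E hE (F (j + 1)) (a (j + 1))
    have h2 : ‖Y j - Y (j + 1)‖ ^ 2 ≤ (2 * (1 / 2 : ℝ) ^ j) ^ 2 := by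
      rw [h1]
      have h3 : (∫ t, ‖(∑ n ∈ F j, a j n * fourier n t) -
        ∑ n ∈ F (j + 1), a (j + 1) n * fourier n t‖ ^ 2 ∂μ) ≤
        ∫ t, (2 * ‖∑ n ∈ F j, a j n * fourier n t - E.indicator (fun _ => (1 : ℂ)) t‖ ^ 2 +
          2 * ‖∑ n ∈ F (j + 1), a (j + 1) n * fourier n t -
            E.indicator (fun _ => (1 : ℂ)) t‖ ^ 2) ∂μ := by
        refine integral_mono_of_nonneg (ae_of_all _ fun t => by positivity)
          ((hi1.const_mul 2).add (hi2.const_mul 2)) (ae_of_all _ fun t => ?_)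
        have h4 := norm_sub_le (∑ n ∈ F j, a j n * fourier n t - E.indicator (fun _ => (1 : ℂ)) t)
          (∑ n ∈ F (j + 1), a (j + 1) n * fourier n t - E.indicator (fun _ => (1 : ℂ)) t)
        rw [sub_sub_sub_cancel_right] at h4
        have h5 := norm_nonneg ((∑ n ∈ F j, a j n * fourier n t) -
          ∑ n ∈ F (j + 1), a (j + 1) n * fourier n t)
        have h6 := sq_nonneg (‖∑ n ∈ F j, a j n * fourier n t -
          E.indicator (fun _ => (1 : ℂ)) t‖ - ‖∑ n ∈ F (j + 1), a (j + 1) n * fourier n t -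
            E.indicator (fun _ => (1 : ℂ)) t‖)
        simp only
        nlinarith [pow_le_pow_left₀ h5 h4 2]
      refine h3.trans ?_
      rw [integral_add (hi1.const_mul 2) (hi2.const_mul 2), integral_const_mul, integral_const_mul]
      have h7 := (hF j).le
      have h8 := (hF (j + 1)).le
      have e1 : (2 * (1 / 2 : ℝ) ^ j) ^ 2 = 4 * (1 / 4) ^ j := by
        rw [mul_pow, ← pow_mul, mul_comm j 2, pow_mul]
        norm_num
      have e2 : (1 / 4 : ℝ) ^ (j + 1) ≤ (1 / 4) ^ j := by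
        rw [pow_succ]
        have : (0 : ℝ) ≤ (1 / 4) ^ j := by positivity
        linarith
      rw [e1]
      linarith
    rw [dist_eq_norm]
    exact (pow_le_pow_iff_left₀ (norm_nonneg _) (by positivity) (by norm_num)).1 h2
  obtain ⟨y, hy⟩ := cauchySeq_tendsto_of_complete
    (cauchySeq_of_le_geometric (1 / 2 : ℝ) 2 (by norm_num) hd)
  -- the norms of trigonometric combinations of `y`
  have key : ∀ {ι : Type} (G : Finset ι) (c : ι → ℂ) (k : ι → ℤ),
      ‖∑ i ∈ G, c i • W (k i) y‖ ^ 2 = ∫ t in E, ‖∑ i ∈ G, c i * fourier (k i) t‖ ^ 2 ∂μ := by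
    intro ι G c k
    have ht1 : Tendsto (fun j => ‖∑ i ∈ G, c i • W (k i) (Y j)‖ ^ 2) atTop
        (𝓝 (‖∑ i ∈ G, c i • W (k i) y‖ ^ 2)) := by
      refine ((tendsto_finsetSum _ fun i _ => ?_).norm).pow 2
      exact (((W (k i)).continuous.tendsto y).comp hy).const_smul (c i)
    have ht2 := key_tendsto μ E hE F a hF G c k
    have he : ∀ j, ‖∑ i ∈ G, c i • W (k i) (Y j)‖ ^ 2 =
        ∫ t, ‖(∑ i ∈ G, c i * fourier (k i) t) * ∑ n ∈ F j, a j n * fourier n t‖ ^ 2 ∂μ := by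
      intro j
      have h := norm_trig w x μ hμ (G ×ˢ F j) (fun q => c q.1 * a j q.2) (fun q => k q.1 + q.2)
      have e1 : ∑ i ∈ G, c i • W (k i) (Y j) =
          ∑ q ∈ G ×ˢ F j, (c q.1 * a j q.2) •
            ((w ^ (k q.1 + q.2) : unitary (H →L[ℂ] H)) : H →L[ℂ] H) x := by
        rw [Finset.sum_product]
        refine Finset.sum_congr rfl fun i _ => ?_
        rw [hY, map_sum, Finset.smul_sum]
        refine Finset.sum_congr rfl fun n _ => ?_
        rw [map_smul, hWadd, smul_smul]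
      have e2 : ∀ t : UnitAddCircle, (∑ i ∈ G, c i * fourier (k i) t) *
          ∑ n ∈ F j, a j n * fourier n t =
          ∑ q ∈ G ×ˢ F j, (c q.1 * a j q.2) * fourier (k q.1 + q.2) t := by
        intro t
        rw [Finset.sum_product, Finset.sum_mul_sum]
        refine Finset.sum_congr rfl fun i _ => Finset.sum_congr rfl fun n _ => ?_
        rw [fourier_add]
        ring
      rw [e1, h]
      simp only [e2]
    simp only [he] at ht1
    exact tendsto_nhds_unique ht1 ht2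
  refine ⟨y, ?_, (M : ℝ), fun N u => ?_⟩
  · intro h0
    have h1 := key (ι := Unit) {()} (fun _ => 1) (fun _ => 0)
    have h2 : (∫ t in E, ‖∑ i ∈ ({()} : Finset Unit), (1 : ℂ) * fourier 0 t‖ ^ 2 ∂μ) =
        μ.real E := by
      simp
    rw [h2, h0] at h1
    simp only [Finset.sum_singleton, map_zero, smul_zero, norm_zero] at h1
    have h3 : 0 < μ.real E := by
      rw [Measure.real]
      exact ENNReal.toReal_pos hpos.ne' (measure_ne_top _ _)
    norm_num at h1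
    linarith
  · -- adjoint
    have hadj : ∀ (n : ℕ) (v : H), ⟪((w : H →L[ℂ] H) ^ n) u, v⟫_ℂ = ⟪u, W (-(n : ℤ)) v⟫_ℂ := by
      intro n v
      have e1 : W (-(n : ℤ)) = star ((w : H →L[ℂ] H) ^ n) := by
        simp only [hW]
        rw [zpow_neg, zpow_natCast]
        rfl
      rw [e1, ContinuousLinearMap.star_eq_adjoint, ContinuousLinearMap.adjoint_inner_right]
    set b : ℕ → ℂ := fun n => ⟪((w : H →L[ℂ] H) ^ n) u, y⟫_ℂ with hb
    set S : ℝ := ∑ n ∈ range N, ‖b n‖ ^ 2 with hS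
    have hS0 : 0 ≤ S := Finset.sum_nonneg fun n _ => by positivity
    set v : H := ∑ n ∈ range N, conj (b n) • W (-(n : ℤ)) y with hv
    have h1 : ((S : ℝ) : ℂ) = ⟪u, v⟫_ℂ := by
      rw [hv, inner_sum, hS, Complex.ofReal_sum]
      refine Finset.sum_congr rfl fun n _ => ?_
      rw [inner_smul_right, ← hadj n y]
      show ((‖b n‖ ^ 2 : ℝ) : ℂ) = conj (b n) * b n
      rw [mul_comm, Complex.mul_conj, Complex.normSq_eq_norm_sq]
    have h2 : S ≤ ‖u‖ * ‖v‖ := by
      have h3 : ‖((S : ℝ) : ℂ)‖ ≤ ‖u‖ * ‖v‖ := by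
        rw [h1]
        exact norm_inner_le_norm u v
      rwa [Complex.norm_real, Real.norm_of_nonneg hS0] at h3
    have h4 : ‖v‖ ^ 2 ≤ M * S := by
      have h5 := key (range N) (fun n => conj (b n)) (fun n => -(n : ℤ))
      rw [hv, h5]
      have hint : Integrable (fun t : UnitAddCircle =>
          ‖∑ i ∈ range N, conj (b i) * fourier (-(i : ℤ)) t‖ ^ 2) (M • mm) := by
        refine Integrable.of_bound ?_ ((∑ i ∈ range N, ‖conj (b i)‖) ^ 2) (ae_of_all _ fun t => ?_)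
        · exact ((trig_cont (range N) (fun n => conj (b n))
            (fun n => -(n : ℤ))).measurable.norm.pow_const 2).aestronglyMeasurable
        · rw [Real.norm_of_nonneg (by positivity)]
          gcongr
          exact trig_bound (range N) (fun n => conj (b n)) (fun n => -(n : ℤ)) t
      refine (integral_mono_measure hM (ae_of_all _ fun t => by positivity) hint).trans ?_
      rw [integral_smul_nnreal_measure, parseval (range N) (fun n => -(n : ℤ))
        (fun m n h => by simpa using h) (fun n => conj (b n)), NNReal.smul_def, smul_eq_mul, hS]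
      simp only [RCLike.norm_conj]
      exact le_rfl
    by_cases hS1 : S = 0
    · show S ≤ _
      rw [hS1]
      positivity
    · have hS2 : 0 < S := lt_of_le_of_ne hS0 (Ne.symm hS1)
      have h6 : S ^ 2 ≤ ‖u‖ ^ 2 * (M * S) := by
        calc S ^ 2 ≤ (‖u‖ * ‖v‖) ^ 2 := pow_le_pow_left₀ hS0 h2 2
          _ = ‖u‖ ^ 2 * ‖v‖ ^ 2 := by ring
          _ ≤ ‖u‖ ^ 2 * (M * S) := by gcongr
      show S ≤ M * ‖u‖ ^ 2
      have h7 : S * S ≤ S * (M * ‖u‖ ^ 2) := by nlinarith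
      exact le_of_mul_le_mul_left h7 hS2

end Pool.Agent.Work.MP_ebd05c_an.SG
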