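import Pool.Agent.Work.MP_ebd05c_an.SG.SpecEx
import Pool.Agent.Work.MP_ebd05c_an.SG.LebSet
import Pool.Agent.Work.MP_ebd05c_an.SG.SmOf

set_option autoImplicit false

open scoped BigOperators ENNReal NNReal Topology ComplexConjugate InnerProductSpace
open Finset Filter MeasureTheory

/-!
exists_spec gives μ for the unitary w = (W, hW); if μ were not singular to mm then exists_set and
smooth_of_set give a nonzero smooth vector of W, contradicting hns. (W^n x = w^(n : ℤ) x.)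
-/

namespace Pool.Agent.Work.MP_ebd05c_an.SG

open Pool.Agent.Work.MP_ebd05c_an.H

theorem sing_of_no_smooth {H : Type} [NormedAddCommGroup H] [InnerProductSpace ℂ H]
    [CompleteSpace H] (W : H →L[ℂ] H) (hW : W ∈ unitary (H →L[ℂ] H))
    (hns : ∀ y, Smooth W y → y = 0) (x : H) : ∃ μ : Measure UnitAddCircle, IsFiniteMeasure μ ∧
      μ ⟂ₘ AddCircle.haarAddCircle ∧ ∀ n : ℕ, ⟪x, (W ^ n) x⟫_ℂ = ∫ t, fourier (n : ℤ) t ∂μ := by
  obtain ⟨μ, hfin, hμ⟩ := exists_spec (⟨W, hW⟩ : unitary (H →L[ℂ] H)) x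
  refine ⟨μ, hfin, ?_, fun n => ?_⟩
  · by_contra hcon
    obtain ⟨E, hE, hpos, M, hM⟩ := exists_set μ _ hcon
    obtain ⟨y, hy, hs⟩ := smooth_of_set (⟨W, hW⟩ : unitary (H →L[ℂ] H)) x μ hμ E hE hpos M hM
    exact hy (hns y hs)
  · rw [← hμ n, zpow_natCast]
    rfl

end Pool.Agent.Work.MP_ebd05c_an.SG
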