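import Pool.Agent.Work.MP_ebd05c_an.SG.Block
import Pool.Agent.Work.MP_ebd05c_an.SG.Cls2
import Pool.Agent.Work.MP_ebd05c_an.SG.DsSm
import Pool.Agent.Work.MP_ebd05c_an.SG.LowSim
import Pool.Agent.Work.MP_ebd05c_an.SG.Sing
import Pool.Agent.Work.MP_ebd05c_an.H.Asm

set_option autoImplicit false

open scoped BigOperators ENNReal NNReal Topology ComplexConjugate InnerProductSpace
open Finset Filter MeasureTheory

/-!
Follow the proof of asm in Pool/Agent/Work/MP_ebd05c_an/H/Asm.lean (copy: A, B, V, L = direct sums of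
T, R, W, K; lower_of_inv, not_tendsto_zero and spectrum_subset are available there). Differences:
|R N ^ n| <= max (1+ε) (1/b n): for n <= n0 N by Rs and δ N <= ε, otherwise Rn and hn. |A^n| <= 1 + ε by
ds_norm_le (ds_pow) and Tn. C_11 with Mn N = κ N exactly as in asm. Separable: ds_sep with KK
separable (KK = lp over the countable index set ℤ: ds_sep-like argument; or separable_HH in
Pool/Agent/Results/MP_ebd05c_an/Dichotomy.lean: Hilbert basis indexed by a countable type).
V is unitary (ds_unitary), V has no nonzero smooth vector (ds_smooth and ns of each block, lp.ext), so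
SingularUnitary V by sing_of_no_smooth. Quasi-similar: X = direct sum of E N (|E N| <= 1), Y = direct sum
of (κ N)⁻¹ • D N (norm <= 1); X A = V X from int; D W = T D (from E T = W E: D W = D W E D = D E T D =
T D), so Y V = A Y (ds_mul and ds_ext); E N, D N are bijective by DE, ED; ds_inj, ds_dense.
Not similar: otherwise lower_of_similar (T := A, W := V, Y) gives c > 0 with c |x| <= |A^n x|; choose N with
κ N > 1/c and n, v from low of the block: for x = lp.single 2 N v, |A^n x| = |T N ^ n v| <= |v|/κ N < c |v|,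
contradiction (|x| = |v| > 0).
-/

namespace Pool.Agent.Work.MP_ebd05c_an.SG

open Pool.Agent.Work.MP_ebd05c_an.H

private theorem sep_KK : TopologicalSpace.SeparableSpace KK := by
  have b : HilbertBasis ℤ ℂ KK := ⟨LinearIsometryEquiv.refl ℂ KK⟩
  have h1 : TopologicalSpace.IsSeparable (Set.range b) := (Set.countable_range b).isSeparable
  have h2 := (h1.span (R := ℂ)).closure
  have h3 : closure ((Submodule.span ℂ (Set.range b) : Submodule ℂ KK) : Set KK) = Set.univ := by
    have := b.dense_span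
    rw [← Submodule.topologicalClosure_coe, this]
    rfl
  rw [h3] at h2
  exact TopologicalSpace.isSeparable_univ_iff.1 h2

theorem asm_s (ε : ℝ) (hε : 0 < ε) (b : ℕ → ℝ) (hb : ∀ n, 0 < b n) (hbt : Tendsto b atTop (𝓝 0))
    (hb1 : ∀ n : ℕ, 1 / b n ≤ (n : ℝ) + 1) (T R W K D E : ℕ → (KK →L[ℂ] KK)) (δ κ : ℕ → ℝ)
    (n0 : ℕ → ℕ) (hB : ∀ N, BlockData (δ N) (κ N) (n0 N) (T N) (R N) (W N) (K N) (D N) (E N))
    (hδ : ∀ N, 0 < δ N) (hδε : ∀ N, δ N ≤ ε) (hδt : Tendsto δ atTop (𝓝 0)) (hκ1 : ∀ N, 1 ≤ κ N)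
    (hκ : ∀ C : ℝ, ∃ N, C < κ N) (hn : ∀ N n, n0 N < n → κ N ≤ 1 / b n) :
    ∃ A : lp (fun _ : ℕ => KK) 2 →L[ℂ] lp (fun _ : ℕ => KK) 2, Spec0 ε b A ∧
      (∃ V, SingularUnitary V ∧ QuasiSimilar A V) ∧ ¬ SimilarToContraction A := by
  have hmax : ∀ n, 0 < max (1 + ε) (1 / b n) := fun n => lt_max_of_lt_left (by linarith)
  have hRb : ∀ N (n : ℕ), ‖R N ^ n‖ ≤ max (1 + ε) (1 / b n) := by
    intro N n
    rcases le_or_gt n (n0 N) with h | h
    · refine ((hB N).Rs n h).trans (le_trans ?_ (le_max_left _ _))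
      linarith [hδε N]
    · exact (((hB N).Rn n).trans (hn N n h)).trans (le_max_right _ _)
  have hTn : ∀ N (n : ℕ), ‖T N ^ n‖ ≤ 1 + ε := fun N n =>
    ((hB N).Tn n).trans (by linarith [hδε N])
  have hT1 : ∀ N, ‖T N‖ ≤ 1 + ε := fun N => by
    have := hTn N 1
    rwa [pow_one] at this
  have hR1 : ∀ N, ‖R N‖ ≤ max (1 + ε) (1 / b 1) := fun N => by
    have := hRb N 1
    rwa [pow_one] at this
  have hW1 : ∀ N, ‖W N‖ ≤ 1 := by
    intro N
    apply ContinuousLinearMap.opNorm_le_bound _ zero_le_one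
    intro x
    have h1 := (ContinuousLinearMap.norm_map_iff_adjoint_comp_self (W N)).2
      (Unitary.mem_iff.1 (hB N).Wu).1 x
    rw [h1, one_mul]
  have hκ0 : ∀ N, 0 < κ N := fun N => by linarith [hκ1 N]
  obtain ⟨A, hA, hAn⟩ := exists_ds T (1 + ε) (by linarith) hT1
  obtain ⟨B, hBd, hBn⟩ := exists_ds R _ (hmax 1).le hR1
  obtain ⟨V, hV, hVn⟩ := exists_ds W 1 zero_le_one hW1
  obtain ⟨L, hL, hLn⟩ := exists_ds K ε hε.le (fun N => ((hB N).Kn).trans (hδε N))
  obtain ⟨X, hX, hXn⟩ := exists_ds E 1 zero_le_one (fun N => (hB N).En)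
  set D' : ℕ → (KK →L[ℂ] KK) := fun N => (((κ N)⁻¹ : ℝ) : ℂ) • D N with hD'
  have hD'n : ∀ N, ‖D' N‖ ≤ 1 := by
    intro N
    simp only [hD']
    rw [norm_smul, Complex.norm_real, Real.norm_eq_abs, abs_of_pos (inv_pos.2 (hκ0 N)),
      inv_mul_le_iff₀ (hκ0 N), mul_one]
    exact (hB N).Dn
  obtain ⟨Y, hY, hYn⟩ := exists_ds D' 1 zero_le_one hD'n
  have hAB : A * B = 1 := by
    apply ds_ext (ds_mul hA hBd)
    have : (fun N => T N * R N) = fun _ => (1 : KK →L[ℂ] KK) := funext fun N => (hB N).TR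
    rw [this]
    exact ds_one
  have hBA : B * A = 1 := by
    apply ds_ext (ds_mul hBd hA)
    have : (fun N => R N * T N) = fun _ => (1 : KK →L[ℂ] KK) := funext fun N => (hB N).RT
    rw [this]
    exact ds_one
  have hAVL : A = V + L := by
    apply ds_ext hA
    have : T = fun N => W N + K N := funext fun N => (hB N).eq
    rw [this]
    exact ds_add hV hL
  have hBpow : ∀ n : ℕ, ‖B ^ n‖ ≤ max (1 + ε) (1 / b n) := fun n =>
    ds_norm_le (ds_pow hBd n) _ (hmax n).le (fun N => hRb N n)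
  have hApow : ∀ n : ℕ, ‖A ^ n‖ ≤ 1 + ε := fun n =>
    ds_norm_le (ds_pow hA n) _ (by linarith) (fun N => hTn N n)
  have hlow : ∀ (n : ℕ) (x : lp (fun _ : ℕ => KK) 2),
      min (1 / (1 + ε)) (b n) * ‖x‖ ≤ ‖(A ^ n) x‖ := by
    intro n x
    have h3 := lower_of_inv A B hAB hBA _ n (hBpow n) x
    have h5 : 0 ≤ min (1 / (1 + ε)) (b n) := le_min (by positivity) (hb n).le
    have h6 : min (1 / (1 + ε)) (b n) * max (1 + ε) (1 / b n) ≤ 1 := by
      rcases max_cases (1 + ε) (1 / b n) with ⟨h, _⟩ | ⟨h, _⟩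
      · rw [h]
        calc min (1 / (1 + ε)) (b n) * (1 + ε) ≤ 1 / (1 + ε) * (1 + ε) := by
              gcongr
              exact min_le_left _ _
          _ = 1 := by field_simp
      · rw [h]
        have hb := hb n
        calc min (1 / (1 + ε)) (b n) * (1 / b n) ≤ b n * (1 / b n) := by
              gcongr
              exact min_le_right _ _
          _ = 1 := by field_simp
    calc min (1 / (1 + ε)) (b n) * ‖x‖ ≤
          min (1 / (1 + ε)) (b n) * (max (1 + ε) (1 / b n) * ‖(A ^ n) x‖) := by gcongr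
      _ = (min (1 / (1 + ε)) (b n) * max (1 + ε) (1 / b n)) * ‖(A ^ n) x‖ := by ring
      _ ≤ 1 * ‖(A ^ n) x‖ := by gcongr
      _ = _ := one_mul _
  have hne : ∀ x : lp (fun _ : ℕ => KK) 2, x ≠ 0 → ∃ N, (x : ℕ → KK) N ≠ 0 := by
    intro x hx
    by_contra hcon
    push Not at hcon
    apply hx
    apply lp.ext
    funext N
    rw [hcon N]
    rfl
  have hVu : V ∈ unitary (lp (fun _ : ℕ => KK) 2 →L[ℂ] lp (fun _ : ℕ => KK) 2) :=
    ds_unitary hV (fun N => (hB N).Wu)
  have hVns : ∀ y, Smooth V y → y = 0 := by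
    intro y hy
    by_contra hne'
    obtain ⟨N, hN⟩ := hne y hne'
    exact hN ((hB N).ns _ (ds_smooth hV y hy N))
  have hYV : Y * V = A * Y := by
    apply ds_ext (ds_mul hY hV)
    have : (fun N => D' N * W N) = fun N => T N * D' N := by
      funext N
      have e1 := (hB N).ED
      have e2 := (hB N).DE
      have e3 := (hB N).int
      have e4 : D N * W N = T N * D N := by
        calc D N * W N = D N * W N * (E N * D N) := by rw [e1, mul_one]
          _ = D N * (W N * E N) * D N := by simp only [mul_assoc]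
          _ = D N * (E N * T N) * D N := by rw [e3]
          _ = (D N * E N) * T N * D N := by simp only [mul_assoc]
          _ = T N * D N := by rw [e2, one_mul]
      simp only [hD']
      rw [smul_mul_assoc, e4, mul_smul_comm]
    rw [this]
    exact ds_mul hA hY
  have hXA : X * A = V * X := by
    apply ds_ext (ds_mul hX hA)
    have : (fun N => E N * T N) = fun N => W N * E N := funext fun N => (hB N).int
    rw [this]
    exact ds_mul hV hX
  have hEi : ∀ N, Function.Injective (E N) := by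
    intro N x y hxy
    have h1 : (D N * E N) x = (D N * E N) y := congrArg (D N) hxy
    rwa [(hB N).DE] at h1
  have hEs : ∀ N, Function.Surjective (E N) := by
    intro N y
    refine ⟨D N y, ?_⟩
    have h1 : (E N * D N) y = y := by rw [(hB N).ED]; rfl
    exact h1
  have hDi : ∀ N, Function.Injective (D' N) := by
    intro N x y hxy
    have h0 : (((κ N)⁻¹ : ℝ) : ℂ) ≠ 0 := by
      have := hκ0 N
      exact_mod_cast (inv_pos.2 this).ne'
    have h2 : D N x = D N y := by
      have h3 : (((κ N)⁻¹ : ℝ) : ℂ) • D N x = (((κ N)⁻¹ : ℝ) : ℂ) • D N y := hxy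
      exact smul_right_injective _ h0 h3
    have h1 : (E N * D N) x = (E N * D N) y := congrArg (E N) h2
    rwa [(hB N).ED] at h1
  have hDs : ∀ N, Function.Surjective (D' N) := by
    intro N y
    have h0 : ((κ N : ℝ) : ℂ) ≠ 0 := by
      have := hκ0 N
      exact_mod_cast this.ne'
    refine ⟨((κ N : ℝ) : ℂ) • E N y, ?_⟩
    show (((κ N)⁻¹ : ℝ) : ℂ) • D N (((κ N : ℝ) : ℂ) • E N y) = y
    have h1 : (D N * E N) y = y := by rw [(hB N).DE]; rfl
    have h2 : D N (E N y) = y := h1
    rw [map_smul, h2, smul_smul, Complex.ofReal_inv, inv_mul_cancel₀ h0, one_smul]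
  have hYdense : DenseRange Y := ds_dense hY hDs
  refine ⟨A, ⟨⟨?_, hApow, ?_⟩, ds_sep (fun _ => sep_KK), ⟨V, L, hAVL, hVu,
    ds_compact hL (fun N => (hB N).cpt) (squeeze_zero (fun N => norm_nonneg _)
      (fun N => (hB N).Kn) hδt), hLn⟩, ?_, hlow⟩,
    ⟨V, ⟨hVu, fun x => sing_of_no_smooth V hVu hVns x⟩,
      ⟨X, ds_inj hX hEi, ds_dense hX hEs, hXA⟩, ⟨Y, ds_inj hY hDi, hYdense, hYV⟩⟩, ?_⟩
  · -- class C_11
    intro x hx
    obtain ⟨N, hN⟩ := hne x hx
    have hpos : 0 < ‖(x : ℕ → KK) N‖ := norm_pos_iff.2 hN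
    constructor
    · apply not_tendsto_zero (m := κ N) hpos
      intro n
      have h1 := lower_of_inv (T N) (R N) (hB N).TR (hB N).RT _ n ((hB N).Rn n)
        ((x : ℕ → KK) N)
      have h2 : ((A ^ n) x : ℕ → KK) N = (T N ^ n) ((x : ℕ → KK) N) := ds_pow hA n x N
      have h3 : ‖((A ^ n) x : ℕ → KK) N‖ ≤ ‖(A ^ n) x‖ :=
        lp.norm_apply_le_norm (by norm_num) _ _
      rw [h2] at h3
      exact h1.trans (mul_le_mul_of_nonneg_left h3 (hκ0 N).le)
    · apply not_tendsto_zero (m := κ N) hpos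
      intro n
      have e1 : ContinuousLinearMap.adjoint (T N) * ContinuousLinearMap.adjoint (R N) = 1 := by
        rw [← ContinuousLinearMap.star_eq_adjoint, ← ContinuousLinearMap.star_eq_adjoint,
          ← star_mul, (hB N).RT, star_one]
      have e2 : ContinuousLinearMap.adjoint (R N) * ContinuousLinearMap.adjoint (T N) = 1 := by
        rw [← ContinuousLinearMap.star_eq_adjoint, ← ContinuousLinearMap.star_eq_adjoint,
          ← star_mul, (hB N).TR, star_one]
      have e3 : ‖ContinuousLinearMap.adjoint (R N) ^ n‖ ≤ κ N := by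
        rw [← ContinuousLinearMap.star_eq_adjoint, ← star_pow, norm_star]
        exact (hB N).Rn n
      have h1 := lower_of_inv _ _ e1 e2 _ n e3 ((x : ℕ → KK) N)
      have h2 : (((ContinuousLinearMap.adjoint A) ^ n) x : ℕ → KK) N =
          ((ContinuousLinearMap.adjoint (T N)) ^ n) ((x : ℕ → KK) N) :=
        ds_pow (ds_adjoint hA) n x N
      have h3 : ‖(((ContinuousLinearMap.adjoint A) ^ n) x : ℕ → KK) N‖ ≤
          ‖((ContinuousLinearMap.adjoint A) ^ n) x‖ :=
        lp.norm_apply_le_norm (by norm_num) _ _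
      rw [h2] at h3
      exact h1.trans (mul_le_mul_of_nonneg_left h3 (hκ0 N).le)
  · -- growth
    have h1 : ∀ᶠ n in atTop, b n < 1 / (1 + ε) := hbt.eventually (gt_mem_nhds (by positivity))
    filter_upwards [h1] with n hn x
    have h4 := hlow n x
    rwa [min_eq_right hn.le] at h4
  · -- spectrum
    apply spectrum_subset A B hAB hBA (1 + ε) (1 + ε) hApow
    intro n
    refine (hBpow n).trans (max_le ?_ ?_)
    · have : (0 : ℝ) ≤ n := by positivity
      nlinarith
    · have h1 := hb1 n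
      have : (0 : ℝ) ≤ n := by positivity
      nlinarith
  · intro hS
    obtain ⟨c, hc, hlo⟩ := lower_of_similar A V Y hVns hYdense hYV.symm hS
    obtain ⟨N, hN⟩ := hκ (1 / c)
    obtain ⟨n, v, hv, hv2⟩ := (hB N).low
    have h1 := hlo n (lp.single 2 N v)
    have h2 : (A ^ n) (lp.single 2 N v : lp (fun _ : ℕ => KK) 2) =
        lp.single 2 N ((T N ^ n) v) := by
      apply lp.ext
      funext M
      have h3 := ds_pow hA n (lp.single 2 N v) M
      rw [h3]
      by_cases hM : M = N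
      · subst hM
        rw [lp.single_apply_self, lp.single_apply_self]
      · rw [lp.single_apply_ne _ _ _ hM, lp.single_apply_ne _ _ _ hM, map_zero]
    rw [h2, lp.norm_single (by norm_num), lp.norm_single (by norm_num)] at h1
    have hv0 : 0 < ‖v‖ := norm_pos_iff.2 hv
    have h3 : 1 < κ N * c := by
      rw [div_lt_iff₀ hc] at hN
      exact hN
    have h4 : κ N * (c * ‖v‖) ≤ ‖v‖ :=
      (mul_le_mul_of_nonneg_left h1 (hκ0 N).le).trans hv2
    have h5 : ‖v‖ < κ N * c * ‖v‖ := by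
      nlinarith
    linarith [mul_assoc (κ N) c ‖v‖]

end Pool.Agent.Work.MP_ebd05c_an.SG
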