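import Pool.Agent.Work.MP_ebd05c_an.SG.Base

set_option autoImplicit false

open scoped BigOperators ENNReal NNReal Topology ComplexConjugate InnerProductSpace
open Finset Filter MeasureTheory

/-!
BB_norm: induction; for |b| = |z| = 1 and real |s| < 1: |b - s| = |1 - s b| (both squares are
1 - 2 s Re b + s^2) and 1 - s b is not 0. BB_cont: induction, continuity of the quotient, the
denominator does not vanish by BB_norm (the circle-valued character: fourier 1 has norm 1;
fourier_apply / Circle.norm_coe). BB_congr: induction. BB_far: induction on x starting at X + 1: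
a step with θ = 0 multiplies by z^2 (sin 0 = 0, division by 1).
-/

namespace Pool.Agent.Work.MP_ebd05c_an.SG

open Pool.Agent.Work.MP_ebd05c_an.H

theorem norm_fourier (n : ℤ) (t : UnitAddCircle) : ‖(fourier n t : ℂ)‖ = 1 := by
  rw [fourier_apply, Circle.norm_coe]

theorem one_sub_ne (s : ℝ) (hs : |s| < 1) (b : ℂ) (hb : ‖b‖ = 1) : (1 : ℂ) - s * b ≠ 0 := by
  intro h
  have h1 : (s : ℂ) * b = 1 := (sub_eq_zero.1 h).symm
  have h2 := congrArg norm h1
  rw [norm_mul, hb, mul_one, norm_one, Complex.norm_real, Real.norm_eq_abs] at h2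
  linarith

private theorem norm_sub_eq (s : ℝ) (b : ℂ) (hb : ‖b‖ = 1) :
    ‖b - (s : ℂ)‖ = ‖(1 : ℂ) - s * b‖ := by
  have hb2 : b.re ^ 2 + b.im ^ 2 = 1 := by
    have := Complex.sq_norm b
    rw [hb, Complex.normSq_apply] at this
    nlinarith
  have h1 : ‖b - (s : ℂ)‖ ^ 2 = ‖(1 : ℂ) - s * b‖ ^ 2 := by
    rw [Complex.sq_norm, Complex.sq_norm, Complex.normSq_apply, Complex.normSq_apply]
    simp only [Complex.sub_re, Complex.sub_im, Complex.ofReal_re, Complex.ofReal_im, Complex.mul_re,
      Complex.mul_im, Complex.one_re, Complex.one_im]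
    linear_combination (1 - s ^ 2) * hb2
  exact (pow_left_inj₀ (norm_nonneg _) (norm_nonneg _) (by norm_num)).1 h1

theorem BB_norm (θ : ℕ → ℝ) (hs : ∀ m, |Real.sin (θ m)| < 1) (z : ℂ) (hz : ‖z‖ = 1) (m : ℕ) :
    ‖BB θ m z‖ = 1 := by
  induction m with
  | zero => exact hz
  | succ m ih =>
    have h1 : BB θ (m + 1) z =
        z ^ 2 * ((BB θ m z - Real.sin (θ m)) / (1 - Real.sin (θ m) * BB θ m z)) := rfl
    rw [h1, norm_mul, norm_pow, hz, one_pow, one_mul, norm_div, norm_sub_eq _ _ ih, div_self]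
    exact norm_ne_zero_iff.2 (one_sub_ne _ (hs m) _ ih)

theorem BB_cont (θ : ℕ → ℝ) (hs : ∀ m, |Real.sin (θ m)| < 1) (m : ℕ) :
    Continuous fun t : UnitAddCircle => BB θ m (fourier 1 t) := by
  induction m with
  | zero => exact (fourier 1).continuous
  | succ m ih =>
    have h1 : (fun t : UnitAddCircle => BB θ (m + 1) (fourier 1 t)) = fun t : UnitAddCircle =>
        (fourier 1 t : ℂ) ^ 2 * ((BB θ m (fourier 1 t) - Real.sin (θ m)) /
          (1 - Real.sin (θ m) * BB θ m (fourier 1 t))) := rfl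
    rw [h1]
    refine ((fourier 1).continuous.pow 2).mul ((ih.sub continuous_const).div
      (continuous_const.sub (continuous_const.mul ih)) fun t => ?_)
    exact one_sub_ne _ (hs m) _ (BB_norm θ hs _ (norm_fourier 1 t) m)

theorem PM_cont (θ : ℕ → ℝ) (hs : ∀ m, |Real.sin (θ m)| < 1) (M : ℕ) :
    Continuous fun t : UnitAddCircle => PM θ M (fourier 1 t) := by
  unfold PM
  refine continuous_finset_prod _ fun m _ => ?_
  exact (((continuous_const.sub (continuous_const.mul (BB_cont θ hs m))).norm).pow 2).div_const _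

theorem QM_cont (θ : ℕ → ℝ) (hs : ∀ m, |Real.sin (θ m)| < 1) (M : ℕ) :
    Continuous fun t : UnitAddCircle => QM θ M (fourier 1 t) := by
  unfold QM TM
  refine continuous_finset_prod _ fun m _ => ?_
  have h1 : Continuous fun t : UnitAddCircle => (BB θ m (fourier 1 t)).re :=
    Complex.continuous_re.comp (BB_cont θ hs m)
  have h2 : Continuous fun t : UnitAddCircle => Real.sin (θ m) - (BB θ m (fourier 1 t)).re :=
    continuous_const.sub h1
  exact (continuous_const.sub ((continuous_const.mul h2).div_const _)).add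
    ((continuous_const.mul (h2.pow 2)).div_const _)

theorem BB_congr (θ θ' : ℕ → ℝ) (m : ℕ) (h : ∀ i < m, θ i = θ' i) (z : ℂ) :
    BB θ m z = BB θ' m z := by
  induction m with
  | zero => rfl
  | succ m ih =>
    have h1 := ih fun i hi => h i (by omega)
    have h2 := h m (by omega)
    simp only [BB, h1, h2]

theorem QM_congr (θ θ' : ℕ → ℝ) (M : ℕ) (h : ∀ i < M, θ i = θ' i) (z : ℂ) :
    QM θ M z = QM θ' M z := by
  unfold QM
  refine Finset.prod_congr rfl fun m hm => ?_
  have hm' := Finset.mem_range.1 hm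
  rw [h m hm', BB_congr θ θ' m (fun i hi => h i (by omega))]

theorem BB_far (θ : ℕ → ℝ) (X x : ℕ) (hx : X < x) (h : ∀ i, X < i → i < x → θ i = 0) (z : ℂ) :
    BB θ x z = z ^ (2 * (x - X - 1)) * BB θ (X + 1) z := by
  induction x with
  | zero => omega
  | succ x ih =>
    rcases Nat.lt_or_ge X x with hx' | hx'
    · have h1 := ih hx' fun i hi hi' => h i hi (by omega)
      have h2 := h x hx' (by omega)
      have h3 : BB θ (x + 1) z =
          z ^ 2 * ((BB θ x z - Real.sin (θ x)) / (1 - Real.sin (θ x) * BB θ x z)) := rfl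
      have h4 : 2 * (x + 1 - X - 1) = 2 + 2 * (x - X - 1) := by omega
      rw [h3, h2, Real.sin_zero, Complex.ofReal_zero, sub_zero, zero_mul, sub_zero, div_one, h1, h4,
        pow_add, mul_assoc]
    · have h1 : x = X := by omega
      subst h1
      have h4 : 2 * (x + 1 - x - 1) = 0 := by omega
      rw [h4, pow_zero, one_mul]

end Pool.Agent.Work.MP_ebd05c_an.SG
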