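import Pool.Agent.Work.MP_ebd05c_an.H.WOp

set_option autoImplicit false

open scoped BigOperators ENNReal Topology ComplexConjugate InnerProductSpace
open Finset Filter

/-!
Basic definitions for the examples with singular unitary asymptote (sparse coins over the
bilateral shift).
-/

namespace Pool.Agent.Work.MP_ebd05c_an.SG

open Pool.Agent.Work.MP_ebd05c_an.H

/-- square summable families on the integers -/
abbrev KK : Type := LS ℤ ℂ

/-- standard basis vectors -/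
noncomputable def ee (m : ℤ) : KK := lp.single 2 m (1 : ℂ)

/-- reflection of the integers -/
def sgm (m : ℤ) : ℤ := -m - 1

/-- the angle of the coin at the position `m` -/
def ang (θ : ℕ → ℝ) (m : ℤ) : ℝ := if 0 ≤ m then -θ m.toNat else θ (-m - 1).toNat

section wo
variable {J : Type}

private theorem wo_ex (σ : J ≃ J) (a : J → ℂ) (C : ℝ) (hC : 0 ≤ C) (h : ∀ j, ‖a j‖ ≤ C) :
    ∃ T : LS J ℂ →L[ℂ] LS J ℂ,
      (∀ (x : LS J ℂ) (j : J), (T x : J → ℂ) j = a j * (x : J → ℂ) (σ j)) ∧ ‖T‖ ≤ C := by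
  obtain ⟨T, h1, h2⟩ := exists_wop σ (fun j => a j • (1 : ℂ →L[ℂ] ℂ)) C hC (by
    intro j
    rw [norm_smul]
    calc ‖a j‖ * ‖(1 : ℂ →L[ℂ] ℂ)‖ ≤ ‖a j‖ * 1 := by
          gcongr
          exact ContinuousLinearMap.norm_id_le
      _ ≤ C := by rw [mul_one]; exact h j)
  refine ⟨T, fun x j => ?_, h2⟩
  rw [h1]
  rfl

open Classical in
/-- weighted composition operators: `(wo σ a u) j = a j * u (σ j)` (for bounded `a`) -/
noncomputable def wo (σ : J ≃ J) (a : J → ℂ) : LS J ℂ →L[ℂ] LS J ℂ :=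
  if h : ∃ C : ℝ, 0 ≤ C ∧ ∀ j, ‖a j‖ ≤ C then
    (wo_ex σ a h.choose h.choose_spec.1 h.choose_spec.2).choose else 0

theorem wo_apply (σ : J ≃ J) (a : J → ℂ) (h : ∃ C : ℝ, 0 ≤ C ∧ ∀ j, ‖a j‖ ≤ C) (u : LS J ℂ)
    (j : J) : (wo σ a u : J → ℂ) j = a j * (u : J → ℂ) (σ j) := by
  rw [wo, dif_pos h]
  exact (wo_ex σ a h.choose h.choose_spec.1 h.choose_spec.2).choose_spec.1 u j

theorem wo_norm (σ : J ≃ J) (a : J → ℂ) (C : ℝ) (hC : 0 ≤ C) (h : ∀ j, ‖a j‖ ≤ C) :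
    ‖wo σ a‖ ≤ C := by
  obtain ⟨T, h1, h2⟩ := wo_ex σ a C hC h
  have : wo σ a = T := by
    ext x j
    rw [h1, wo_apply σ a ⟨C, hC, h⟩]
  rw [this]
  exact h2

end wo

/-- restriction to a set of integers -/
noncomputable def PP (A : Set ℤ) : KK →L[ℂ] KK := wo (Equiv.refl ℤ) (A.indicator fun _ => 1)

theorem PP_apply (A : Set ℤ) (u : KK) (m : ℤ) :
    (PP A u : ℤ → ℂ) m = A.indicator (u : ℤ → ℂ) m := by
  classical
  rw [PP, wo_apply]
  · by_cases h : m ∈ A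
    · simp [h]
    · simp [h]
  · refine ⟨1, zero_le_one, fun j => ?_⟩
    by_cases h : j ∈ A
    · simp [h]
    · simp [h]

theorem PP_norm (A : Set ℤ) : ‖PP A‖ ≤ 1 := by
  classical
  apply wo_norm _ _ _ zero_le_one
  intro j
  by_cases h : j ∈ A
  · simp [h]
  · simp [h]

/-- multiplication by a bounded real weight -/
noncomputable def DD (w : ℤ → ℝ) : KK →L[ℂ] KK := wo (Equiv.refl ℤ) (fun m => (w m : ℂ))

theorem DD_apply (w : ℤ → ℝ) (C : ℝ) (hw : ∀ m, |w m| ≤ C) (u : KK) (m : ℤ) :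
    (DD w u : ℤ → ℂ) m = (w m : ℂ) * (u : ℤ → ℂ) m := by
  rw [DD, wo_apply]
  · rfl
  · refine ⟨|C|, abs_nonneg _, fun j => ?_⟩
    rw [Complex.norm_real, Real.norm_eq_abs]
    exact (hw j).trans (le_abs_self C)

theorem DD_norm (w : ℤ → ℝ) (C : ℝ) (hC : 0 ≤ C) (hw : ∀ m, |w m| ≤ C) : ‖DD w‖ ≤ C := by
  apply wo_norm _ _ _ hC
  intro j
  rw [Complex.norm_real, Real.norm_eq_abs]
  exact hw j

theorem ee_apply (k m : ℤ) : (ee k : ℤ → ℂ) m = if m = k then 1 else 0 := by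
  rw [ee, lp.single_apply, Pi.single_apply]

theorem inner_ee (k : ℤ) (u : KK) : ⟪ee k, u⟫_ℂ = (u : ℤ → ℂ) k := by
  rw [ee, lp.inner_single_left]
  simp

theorem norm_ee (k : ℤ) : ‖ee k‖ = 1 := by
  rw [ee, lp.norm_single (by norm_num)]
  exact norm_one

theorem norm_sq_hasSum (u : KK) : HasSum (fun m : ℤ => ‖(u : ℤ → ℂ) m‖ ^ 2) (‖u‖ ^ 2) := by
  have h := lp.hasSum_norm (p := 2) (by norm_num) u
  have h2 : (2 : ℝ≥0∞).toReal = ((2 : ℕ) : ℝ) := by simp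
  simp only [h2, Real.rpow_natCast] at h
  exact h

theorem KK_ext {u v : KK} (h : ∀ m : ℤ, (u : ℤ → ℂ) m = (v : ℤ → ℂ) m) : u = v := by
  ext m
  exact h m

theorem norm_apply_le (u : KK) (m : ℤ) : ‖(u : ℤ → ℂ) m‖ ≤ ‖u‖ :=
  lp.norm_apply_le_norm (by norm_num) u m

/-- comparison of norms by comparison of the entries -/
theorem norm_le_of_sq {u v : KK} {c : ℝ} (hc : 0 ≤ c)
    (h : ∀ F : Finset ℤ, ∑ m ∈ F, ‖(u : ℤ → ℂ) m‖ ^ 2 ≤ c ^ 2 * ‖v‖ ^ 2) : ‖u‖ ≤ c * ‖v‖ := by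
  have h1 : ‖u‖ ^ 2 ≤ (c * ‖v‖) ^ 2 := by
    rw [mul_pow]
    exact hasSum_le_of_sum_le (norm_sq_hasSum u) h
  exact (pow_le_pow_iff_left₀ (norm_nonneg _) (by positivity) (by norm_num)).1 h1

/-! ### configurations of coins -/

/-- no coins after the position `X` -/
def Sup (θ : ℕ → ℝ) (X : ℕ) : Prop := ∀ m, X < m → θ m = 0

/-- no coins up to the position `h` -/
def Low (θ : ℕ → ℝ) (h : ℕ) : Prop := ∀ m ≤ h, θ m = 0

/-- small angles -/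
def Small (θ : ℕ → ℝ) : Prop := ∀ m, 0 ≤ θ m ∧ θ m ≤ 1 / 20

/-- coins with angles `α j` at the positions `x j` for `j < J` -/
def thJ (x : ℕ → ℕ) (α : ℕ → ℝ) (J : ℕ) (m : ℕ) : ℝ := ∑ j ∈ range J, if x j = m then α j else 0

/-- coins with angles `α j` at the positions `x j` for all `j` (for increasing `x`) -/
def thA (x : ℕ → ℕ) (α : ℕ → ℝ) (m : ℕ) : ℝ := ∑ j ∈ range (m + 1), if x j = m then α j else 0

/-- the transmission function of the coins at the positions smaller than `m` -/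
noncomputable def BB (θ : ℕ → ℝ) : ℕ → ℂ → ℂ
  | 0, z => z
  | m + 1, z => z ^ 2 * ((BB θ m z - Real.sin (θ m)) / (1 - Real.sin (θ m) * BB θ m z))

/-- the product of the energy ratios -/
noncomputable def PM (θ : ℕ → ℝ) (M : ℕ) (z : ℂ) : ℝ :=
  ∏ m ∈ range M, (‖1 - Real.sin (θ m) * BB θ m z‖ ^ 2 / Real.cos (θ m) ^ 2)

/-- trigonometric majorant -/
noncomputable def TM (s : ℝ) (b : ℂ) : ℝ :=
  1 - s * (s - b.re) / (1 - s ^ 2) + 7 / 4 * s ^ 2 * (s - b.re) ^ 2 / (1 - s ^ 2) ^ 2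

/-- product of the majorants -/
noncomputable def QM (θ : ℕ → ℝ) (M : ℕ) (z : ℂ) : ℝ :=
  ∏ m ∈ range M, TM (Real.sin (θ m)) (BB θ m z)

section smooth
variable {H : Type*} [NormedAddCommGroup H] [InnerProductSpace ℂ H]

/-- `y` is a smooth vector of `W` -/
def Smooth (W : H →L[ℂ] H) (y : H) : Prop :=
  ∃ C : ℝ, ∀ (N : ℕ) (u : H), ∑ n ∈ range N, ‖⟪(W ^ n) u, y⟫_ℂ‖ ^ 2 ≤ C * ‖u‖ ^ 2

end smooth

/-- staircase weights: `1` on the right, `κ` on the left, one step of ratio at most `r` in each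
interval of length `L` -/
structure Stair (r κ : ℝ) (L h0 I : ℕ) (γ : ℕ → ℝ) (h : ℕ → ℕ) (w : ℤ → ℝ) : Prop where
  gam : ∀ i, 0 ≤ γ i
  cut : ∀ i < I, h i ≤ h0
  sq : ∀ m : ℤ, w m ^ 2 = 1 + ∑ i ∈ range I, if m < -(h i : ℤ) then γ i else 0
  one_le : ∀ m, 1 ≤ w m
  le : ∀ m, w m ≤ κ
  right : ∀ m : ℤ, 0 ≤ m → w m = 1
  left : ∀ m : ℤ, m < -(h0 : ℤ) → w m = κ
  anti : ∀ m : ℤ, w (m + 1) ≤ w m
  slow : ∀ (m : ℤ) (n : ℕ), n ≤ L → w (m - n) ≤ r * w m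

end Pool.Agent.Work.MP_ebd05c_an.SG
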