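import Pool.Agent.Work.MP_ebd05c_an.SG.Right

set_option autoImplicit false

open scoped BigOperators ENNReal NNReal Topology ComplexConjugate InnerProductSpace
open Finset Filter MeasureTheory

/-!
(U^n y)(k) = <e_k, U^n y> = <U^(-n) e_k, y> (inner_ee, LinearIsometryEquiv.inner_map_map, zpow).
The family v_n = U^(-n) e_k, n in Z, is orthonormal: |v_n| = 1 (norm_ee), and for n < l
<v_n, v_l> = <U^(-n) e_k, U^(-l) e_k> = <U^(l-n) e_k, e_k>, where for k > X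
U^j e_k = e_(k+j) (ee_right), orthogonal to e_k for j >= 1 (inner_ee, ee_apply); for k <= -X-1 use
e_k = U^j e_(k-j) (ee_left), so <U^j e_k, e_k> = <U^j e_k, U^j e_(k-j)> = <e_k, e_(k-j)> = 0.
Then Orthonormal.sum_inner_products_le (Bessel).
-/

namespace Pool.Agent.Work.MP_ebd05c_an.SG

open Pool.Agent.Work.MP_ebd05c_an.H

private theorem be_orth (θ : ℕ → ℝ) (X : ℕ) (hθ : Sup θ X) (k : ℤ)
    (hk : (X : ℤ) < k ∨ k ≤ -(X : ℤ) - 1) (j : ℕ) (hj : 1 ≤ j) :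
    ⟪(UU θ ^ j) (ee k), ee k⟫_ℂ = 0 := by
  rcases hk with hk | hk
  · rw [ee_right θ X hθ k hk j, inner_ee, ee_apply, if_neg (by omega)]
  · have h1 := ee_left θ X hθ k hk j
    have h2 : ⟪(UU θ ^ j) (ee k), (UU θ ^ j) (ee (k - j))⟫_ℂ = ⟪ee k, ee (k - j)⟫_ℂ :=
      LinearIsometryEquiv.inner_map_map _ _ _
    rw [h1] at h2
    rw [h2, inner_ee, ee_apply, if_neg (by omega)]

private theorem be_zpow (θ : ℕ → ℝ) (a b : ℤ) (u : KK) :
    (UU θ ^ a) ((UU θ ^ b) u) = (UU θ ^ (a + b)) u := by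
  rw [zpow_add]
  rfl

theorem bessel (θ : ℕ → ℝ) (X : ℕ) (hθ : Sup θ X) (k : ℤ) (hk : (X : ℤ) < k ∨ k ≤ -(X : ℤ) - 1)
    (y : KK) (F : Finset ℤ) : ∑ n ∈ F, ‖((UU θ ^ n) y : ℤ → ℂ) k‖ ^ 2 ≤ ‖y‖ ^ 2 := by
  set v : ℤ → KK := fun n => (UU θ ^ (-n)) (ee k) with hv
  have hlt : ∀ n l : ℤ, n < l → ⟪v n, v l⟫_ℂ = 0 := by
    intro n l hnl
    obtain ⟨j, hj⟩ : ∃ j : ℕ, l - n = j := ⟨(l - n).toNat, (Int.toNat_of_nonneg (by omega)).symm⟩
    have h1 : ⟪(UU θ ^ l) (v n), (UU θ ^ l) (v l)⟫_ℂ = ⟪v n, v l⟫_ℂ :=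
      LinearIsometryEquiv.inner_map_map _ _ _
    rw [← h1, hv]
    simp only
    rw [be_zpow, be_zpow, show l + -l = 0 by ring, show l + -n = l - n by ring, hj, zpow_natCast,
      zpow_zero]
    exact be_orth θ X hθ k hk j (by omega)
  have horth : Orthonormal ℂ v := by
    refine ⟨fun n => ?_, fun n l hnl => ?_⟩
    · rw [hv]
      simp only
      rw [LinearIsometryEquiv.norm_map, norm_ee]
    · rcases lt_or_gt_of_ne hnl with h | h
      · exact hlt n l h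
      · have h1 := hlt l n h
        have h2 : ⟪v n, v l⟫_ℂ = (starRingEnd ℂ) ⟪v l, v n⟫_ℂ := (inner_conj_symm _ _).symm
        rw [h2, h1, map_zero]
  have hin : ∀ n : ℤ, ⟪v n, y⟫_ℂ = ((UU θ ^ n) y : ℤ → ℂ) k := by
    intro n
    have h1 : ⟪(UU θ ^ n) (v n), (UU θ ^ n) y⟫_ℂ = ⟪v n, y⟫_ℂ :=
      LinearIsometryEquiv.inner_map_map _ _ _
    rw [← h1, hv]
    simp only
    rw [be_zpow, show n + -n = 0 by ring, zpow_zero]
    exact inner_ee k _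
  have h3 := horth.sum_inner_products_le (s := F) y
  simp_rw [hin] at h3
  exact h3

end Pool.Agent.Work.MP_ebd05c_an.SG
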