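import Pool.Agent.Work.MP_ebd05c_an.SG.WN

set_option autoImplicit false

open scoped BigOperators ENNReal NNReal Topology ComplexConjugate InnerProductSpace
open Finset Filter MeasureTheory

/-!
Let E = DD (w⁻¹), D = DD w; entrywise E D = D E = 1 (w >= 1, DD_apply with bounds 1 and κ; from Stair).
UO θ * UI θ = UI θ * UO θ = 1 (LinearIsometryEquiv.apply_symm_apply). TT = D UO E, RR = D UI E.
tt_pow / rr_pow: induction. tt_norm: x = D v with v = E x, T^n x = D U^n v, so by weighted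
|T^n x|^2 <= (1+2δ) |x|^2 <= ((1+δ)|x|)^2 (UO_pow). rr_norm: |R^n x| = |D U^(-n) E x| <= κ |E x| <= κ |x|
(DD_norm with κ and with 1; UI_pow; the powers of (UU θ)⁻¹ are isometric).
-/

set_option autoImplicit false

open scoped BigOperators ENNReal NNReal Topology ComplexConjugate InnerProductSpace
open Finset Filter MeasureTheory

namespace Pool.Agent.Work.MP_ebd05c_an.SG

open Pool.Agent.Work.MP_ebd05c_an.H

private theorem tpow_b1 (κ : ℝ) (w : ℤ → ℝ) (h1 : ∀ m, 1 ≤ w m) (h2 : ∀ m, w m ≤ κ) :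
    ∀ m, |w m| ≤ κ := by
  intro m
  rw [abs_of_nonneg (by linarith [h1 m])]
  exact h2 m

private theorem tpow_b2 (w : ℤ → ℝ) (h1 : ∀ m, 1 ≤ w m) :
    ∀ m, |(fun m => (w m)⁻¹) m| ≤ 1 := by
  intro m
  have h := h1 m
  have h0 : 0 < w m := by linarith
  show |(w m)⁻¹| ≤ 1
  rw [abs_of_nonneg (inv_nonneg.2 h0.le)]
  exact inv_le_one_of_one_le₀ h

theorem de_one (κ : ℝ) (w : ℤ → ℝ) (h1 : ∀ m, 1 ≤ w m) (h2 : ∀ m, w m ≤ κ) :
    DD w * DD (fun m => (w m)⁻¹) = 1 ∧ DD (fun m => (w m)⁻¹) * DD w = 1 ∧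
      ‖DD w‖ ≤ κ ∧ ‖DD (fun m => (w m)⁻¹)‖ ≤ 1 := by
  have hb1 := tpow_b1 κ w h1 h2
  have hb2 := tpow_b2 w h1
  have hκ : 0 ≤ κ := by linarith [h1 0, h2 0]
  have hne : ∀ m, (w m : ℂ) ≠ 0 := by
    intro m
    have h := h1 m
    have h0 : w m ≠ 0 := by
      intro h3
      rw [h3] at h
      linarith
    exact_mod_cast h0
  refine ⟨?_, ?_, DD_norm w κ hκ hb1, DD_norm _ 1 zero_le_one hb2⟩
  · apply ContinuousLinearMap.ext
    intro u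
    apply KK_ext
    intro m
    show (DD w (DD (fun m => (w m)⁻¹) u) : ℤ → ℂ) m = (u : ℤ → ℂ) m
    rw [DD_apply w κ hb1, DD_apply _ 1 hb2]
    push_cast
    rw [← mul_assoc, mul_inv_cancel₀ (hne m), one_mul]
  · apply ContinuousLinearMap.ext
    intro u
    apply KK_ext
    intro m
    show (DD (fun m => (w m)⁻¹) (DD w u) : ℤ → ℂ) m = (u : ℤ → ℂ) m
    rw [DD_apply _ 1 hb2, DD_apply w κ hb1]
    push_cast
    rw [← mul_assoc, inv_mul_cancel₀ (hne m), one_mul]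

theorem uo_ui (θ : ℕ → ℝ) : UO θ * UI θ = 1 ∧ UI θ * UO θ = 1 ∧
    UO θ ∈ unitary (KK →L[ℂ] KK) := by
  have h1 : UO θ * UI θ = 1 := by
    apply ContinuousLinearMap.ext
    intro u
    exact (UU θ).apply_symm_apply u
  have h2 : UI θ * UO θ = 1 := by
    apply ContinuousLinearMap.ext
    intro u
    exact (UU θ).symm_apply_apply u
  have h3 : star (UO θ) = UI θ := by
    rw [ContinuousLinearMap.star_eq_adjoint]
    exact LinearIsometryEquiv.adjoint_eq_symm (UU θ)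
  refine ⟨h1, h2, ?_⟩
  rw [Unitary.mem_iff, h3]
  exact ⟨h2, h1⟩

private theorem tpow_alg {R : Type*} [Ring R] (D E U V : R) (hED : E * D = 1) :
    D * (U * E) * (D * (V * E)) = D * ((U * V) * E) := by
  calc D * (U * E) * (D * (V * E)) = D * (U * ((E * D) * (V * E))) := by
        simp only [mul_assoc]
    _ = D * ((U * V) * E) := by rw [hED, one_mul, mul_assoc]

private theorem tpow_pow {R : Type*} [Ring R] (D E U : R) (hDE : D * E = 1) (hED : E * D = 1)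
    (n : ℕ) : (D * (U * E)) ^ n = D * (U ^ n * E) := by
  induction n with
  | zero => rw [pow_zero, pow_zero, one_mul, hDE]
  | succ n ih => rw [pow_succ, ih, tpow_alg D E (U ^ n) U hED, pow_succ]

theorem tt_rr (κ : ℝ) (w : ℤ → ℝ) (h1 : ∀ m, 1 ≤ w m) (h2 : ∀ m, w m ≤ κ) (θ : ℕ → ℝ) :
    TT w θ * RR w θ = 1 ∧ RR w θ * TT w θ = 1 := by
  obtain ⟨hDE, hED, -, -⟩ := de_one κ w h1 h2
  obtain ⟨hu1, hu2, -⟩ := uo_ui θ
  constructor
  · unfold TT RR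
    rw [tpow_alg _ _ _ _ hED, hu1, one_mul, hDE]
  · unfold TT RR
    rw [tpow_alg _ _ _ _ hED, hu2, one_mul, hDE]

theorem tt_pow (κ : ℝ) (w : ℤ → ℝ) (h1 : ∀ m, 1 ≤ w m) (h2 : ∀ m, w m ≤ κ) (θ : ℕ → ℝ) (n : ℕ) :
    TT w θ ^ n = DD w * (UO θ ^ n * DD fun m => (w m)⁻¹) := by
  obtain ⟨hDE, hED, -, -⟩ := de_one κ w h1 h2
  exact tpow_pow _ _ _ hDE hED n

theorem rr_pow (κ : ℝ) (w : ℤ → ℝ) (h1 : ∀ m, 1 ≤ w m) (h2 : ∀ m, w m ≤ κ) (θ : ℕ → ℝ) (n : ℕ) :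
    RR w θ ^ n = DD w * (UI θ ^ n * DD fun m => (w m)⁻¹) := by
  obtain ⟨hDE, hED, -, -⟩ := de_one κ w h1 h2
  exact tpow_pow _ _ _ hDE hED n

theorem tt_norm (r κ : ℝ) (L h0 I : ℕ) (γ : ℕ → ℝ) (h : ℕ → ℕ) (w : ℤ → ℝ)
    (St : Stair r κ L h0 I γ h w) (θ : ℕ → ℝ) (ε δ : ℝ) (hδ : 0 < δ) (hε : 0 ≤ ε)
    (hG : Good θ h0 ε) (hκ : κ ^ 2 * (1 + 1 / δ) * ε ^ 2 ≤ δ) (n : ℕ) :
    ‖TT w θ ^ n‖ ≤ 1 + δ := by
  obtain ⟨hDE, hED, hn1, hn2⟩ := de_one κ w St.one_le St.le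
  apply ContinuousLinearMap.opNorm_le_bound _ (by linarith)
  intro x
  rw [tt_pow κ w St.one_le St.le]
  have h3 : (DD w * (UO θ ^ n * DD fun m => (w m)⁻¹)) x =
      DD w ((UU θ ^ n) (DD (fun m => (w m)⁻¹) x)) := by
    rw [← UO_pow]
    rfl
  have h4 : DD w (DD (fun m => (w m)⁻¹) x) = x := by
    have := congrArg (fun T : KK →L[ℂ] KK => T x) hDE
    exact this
  have h5 := weighted r κ L h0 I γ h w St θ ε δ hδ hε hG hκ (DD (fun m => (w m)⁻¹) x) n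
  rw [h4] at h5
  rw [h3]
  have h6 : ‖DD w ((UU θ ^ n) (DD (fun m => (w m)⁻¹) x))‖ ^ 2 ≤ ((1 + δ) * ‖x‖) ^ 2 := by
    refine h5.trans ?_
    rw [mul_pow]
    apply mul_le_mul_of_nonneg_right _ (sq_nonneg _)
    nlinarith
  exact (pow_le_pow_iff_left₀ (norm_nonneg _) (by positivity) (by norm_num)).1 h6

theorem rr_norm (κ : ℝ) (w : ℤ → ℝ) (h1 : ∀ m, 1 ≤ w m) (h2 : ∀ m, w m ≤ κ) (θ : ℕ → ℝ) (n : ℕ) :
    ‖RR w θ ^ n‖ ≤ κ := by
  obtain ⟨hDE, hED, hn1, hn2⟩ := de_one κ w h1 h2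
  have hκ : 0 ≤ κ := by linarith [h1 0, h2 0]
  apply ContinuousLinearMap.opNorm_le_bound _ hκ
  intro x
  rw [rr_pow κ w h1 h2]
  have h3 : (DD w * (UI θ ^ n * DD fun m => (w m)⁻¹)) x =
      DD w (((UU θ)⁻¹ ^ n) (DD (fun m => (w m)⁻¹) x)) := by
    rw [← UI_pow]
    rfl
  rw [h3]
  calc ‖DD w (((UU θ)⁻¹ ^ n) (DD (fun m => (w m)⁻¹) x))‖
      ≤ ‖DD w‖ * ‖((UU θ)⁻¹ ^ n) (DD (fun m => (w m)⁻¹) x)‖ := ContinuousLinearMap.le_opNorm _ _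
    _ = ‖DD w‖ * ‖DD (fun m => (w m)⁻¹) x‖ := by rw [LinearIsometryEquiv.norm_map]
    _ ≤ κ * (1 * ‖x‖) := by
        apply mul_le_mul hn1 _ (norm_nonneg _) hκ
        exact (ContinuousLinearMap.le_opNorm _ _).trans
          (mul_le_mul_of_nonneg_right hn2 (norm_nonneg _))
    _ = κ * ‖x‖ := by rw [one_mul]

end Pool.Agent.Work.MP_ebd05c_an.SG
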