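import Pool.Agent.Work.MP_ebd05c_an.SG.WoC
import Pool.Agent.Work.MP_ebd05c_an.SG.TPow

set_option autoImplicit false

open scoped BigOperators ENNReal NNReal Topology ComplexConjugate InnerProductSpace
open Finset Filter MeasureTheory

/-!
(TT w θ u)(m+1) = w(m+1) [cos(ang m) u m / w m + sin(ang m) u(sgm m) / w(sgm m)] (DD_apply, UU_apply), so
K := TT w θ - UO θ = K1 + K2 with
K1 = wo (m -> m-1) a1, a1 (m+1) = cos(ang m) (w(m+1)/w m - 1),
K2 = wo (m -> -m) a2, a2 (m+1) = sin(ang m) (w(m+1)/w(sgm m) - 1) (sgm (m-1) = -m).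
|a1| <= 1 - 1/r: w(m+1) <= w(m) (anti) and w(m) = w((m+1)-1) <= r w(m+1) (slow, n = 1 <= L); a1 (m+1) = 0
unless -h0-1 <= m < 0 (right, left): finitely many. |a2 (m+1)| <= |sin(ang m)| * κ <= κ |ang m|
(w(m+1)/w(sgm m) is in [1/κ, κ], so |w(m+1)/w(sgm m) - 1| <= κ, κ >= 1), <= κ a, and for ε > 0 only
finitely many m have κ |ang m| > ε because θ tends to 0. wo_compact, wo_norm, IsCompactOperator.add.
-/

namespace Pool.Agent.Work.MP_ebd05c_an.SG

open Pool.Agent.Work.MP_ebd05c_an.H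

theorem k_comp (r κ : ℝ) (hr : 1 ≤ r) (L h0 I : ℕ) (hL : 1 ≤ L) (γ : ℕ → ℝ) (h : ℕ → ℕ) (w : ℤ → ℝ)
    (St : Stair r κ L h0 I γ h w) (θ : ℕ → ℝ) (a : ℝ) (ha : ∀ m, |θ m| ≤ a)
    (ht : Tendsto θ atTop (𝓝 0)) :
    IsCompactOperator (TT w θ - UO θ) ∧ ‖TT w θ - UO θ‖ ≤ (1 - 1 / r) + κ * a := by
  have ha0 : 0 ≤ a := (abs_nonneg _).trans (ha 0)
  have hw0 : ∀ m, 0 < w m := fun m => lt_of_lt_of_le one_pos (St.one_le m)
  have hκ1 : 1 ≤ κ := (St.one_le 0).trans (St.le 0)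
  have hκ0 : 0 ≤ κ := zero_le_one.trans hκ1
  have hr0 : 0 < r := lt_of_lt_of_le one_pos hr
  have hr1 : 0 ≤ 1 - 1 / r := by
    rw [sub_nonneg, div_le_one hr0]
    exact hr
  have hang : ∀ m : ℤ, |ang θ m| ≤ a := by
    intro m
    unfold ang
    split_ifs
    · rw [abs_neg]; exact ha _
    · exact ha _
  obtain ⟨a1, ha1⟩ : ∃ a1 : ℤ → ℝ, ∀ m, a1 m =
      Real.cos (ang θ (m - 1)) * (w m / w (m - 1) - 1) := ⟨_, fun _ => rfl⟩
  obtain ⟨a2, ha2⟩ : ∃ a2 : ℤ → ℝ, ∀ m, a2 m =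
      Real.sin (ang θ (m - 1)) * (w m / w (-m) - 1) := ⟨_, fun _ => rfl⟩
  have b1 : ∀ m, ‖(a1 m : ℂ)‖ ≤ 1 - 1 / r := by
    intro m
    rw [Complex.norm_real, Real.norm_eq_abs, ha1, abs_mul]
    have h1 : w m ≤ w (m - 1) := by
      have := St.anti (m - 1)
      rwa [sub_add_cancel] at this
    have h2 : w (m - 1) ≤ r * w m := by
      have := St.slow m 1 hL
      rwa [Nat.cast_one] at this
    have h3 : w m / w (m - 1) ≤ 1 := by
      rw [div_le_one (hw0 _)]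
      exact h1
    have h4 : 1 / r ≤ w m / w (m - 1) := by
      rw [div_le_div_iff₀ hr0 (hw0 _), one_mul, mul_comm]
      exact h2
    have h5 : |w m / w (m - 1) - 1| ≤ 1 - 1 / r := by
      rw [abs_of_nonpos (by linarith)]
      linarith
    calc |Real.cos (ang θ (m - 1))| * |w m / w (m - 1) - 1| ≤ 1 * (1 - 1 / r) :=
          mul_le_mul (Real.abs_cos_le_one _) h5 (abs_nonneg _) zero_le_one
      _ = 1 - 1 / r := one_mul _
  have b2' : ∀ m, ‖(a2 m : ℂ)‖ ≤ κ * |ang θ (m - 1)| := by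
    intro m
    rw [Complex.norm_real, Real.norm_eq_abs, ha2, abs_mul, mul_comm κ]
    have h3 : 0 < w m / w (-m) := div_pos (hw0 _) (hw0 _)
    have h4 : w m / w (-m) ≤ κ := by
      rw [div_le_iff₀ (hw0 _)]
      have h6 := St.one_le (-m)
      have h7 := St.le m
      nlinarith
    have h5 : |w m / w (-m) - 1| ≤ κ := by
      rw [abs_le]
      constructor <;> linarith
    exact mul_le_mul Real.abs_sin_le_abs h5 (abs_nonneg _) (abs_nonneg _)
  have b2 : ∀ m, ‖(a2 m : ℂ)‖ ≤ κ * a := fun m =>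
    (b2' m).trans (mul_le_mul_of_nonneg_left (hang _) hκ0)
  have e0 : TT w θ - UO θ = wo (Equiv.subRight 1) (fun m : ℤ => (a1 m : ℂ)) +
      wo (Equiv.neg ℤ) (fun m : ℤ => (a2 m : ℂ)) := by
    refine ContinuousLinearMap.ext fun u => KK_ext fun m => ?_
    obtain ⟨k, hk⟩ : ∃ k : ℤ, m = k + 1 := ⟨m - 1, by ring⟩
    have hbw : ∀ m, |w m| ≤ κ := fun m => by
      rw [abs_of_pos (hw0 m)]
      exact St.le m
    have hbw' : ∀ m, |(w m)⁻¹| ≤ 1 := fun m => by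
      rw [abs_of_pos (inv_pos.2 (hw0 m))]
      exact inv_le_one_of_one_le₀ (St.one_le m)
    have e1 : ((TT w θ u : KK) : ℤ → ℂ) m = (w m : ℂ) *
        ((Real.cos (ang θ k) : ℂ) * (((w k)⁻¹ : ℝ) * (u : ℤ → ℂ) k) +
        (Real.sin (ang θ k) : ℂ) * (((w (sgm k))⁻¹ : ℝ) * (u : ℤ → ℂ) (sgm k))) := by
      show (DD w (UU θ (DD (fun m => (w m)⁻¹) u)) : ℤ → ℂ) m = _
      rw [DD_apply w κ hbw, hk, UU_apply, DD_apply _ 1 hbw', DD_apply _ 1 hbw']
    have e2 : ((UO θ u : KK) : ℤ → ℂ) m = (Real.cos (ang θ k) : ℂ) * (u : ℤ → ℂ) k +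
        (Real.sin (ang θ k) : ℂ) * (u : ℤ → ℂ) (sgm k) := by
      show (UU θ u : ℤ → ℂ) m = _
      rw [hk, UU_apply]
    have e3 : (((TT w θ - UO θ) u : KK) : ℤ → ℂ) m =
        ((TT w θ u : KK) : ℤ → ℂ) m - ((UO θ u : KK) : ℤ → ℂ) m := rfl
    have e4 : (((wo (Equiv.subRight 1) (fun m : ℤ => (a1 m : ℂ)) +
        wo (Equiv.neg ℤ) (fun m : ℤ => (a2 m : ℂ))) u : KK) : ℤ → ℂ) m =
        ((wo (Equiv.subRight 1) (fun m : ℤ => (a1 m : ℂ)) u : KK) : ℤ → ℂ) m +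
        ((wo (Equiv.neg ℤ) (fun m : ℤ => (a2 m : ℂ)) u : KK) : ℤ → ℂ) m := rfl
    rw [e3, e4, e1, e2, wo_apply _ _ ⟨_, hr1, b1⟩, wo_apply _ _ ⟨_, mul_nonneg hκ0 ha0, b2⟩,
      ha1, ha2]
    have hs : sgm k = -m := by unfold sgm; rw [hk]; ring
    have hk' : m - 1 = k := by rw [hk]; ring
    simp only [Equiv.subRight_apply, Equiv.neg_apply]
    rw [hs, hk']
    push_cast
    ring
  rw [e0]
  constructor
  · refine IsCompactOperator.add ?_ ?_
    · refine wo_compact _ _ (1 - 1 / r) hr1 b1 fun ε hε => ?_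
      refine (Set.finite_Icc (-(h0 : ℤ)) 0).subset fun m hm => ?_
      by_contra hm2
      rw [Set.mem_Icc, not_and_or, not_le, not_le] at hm2
      have h1 : a1 m = 0 := by
        rw [ha1]
        rcases hm2 with hm2 | hm2
        · rw [St.left m hm2, St.left (m - 1) (by omega), div_self (by linarith), sub_self,
            mul_zero]
        · rw [St.right m hm2.le, St.right (m - 1) (by omega), div_self one_ne_zero, sub_self,
            mul_zero]
      have h2 : ε < ‖(a1 m : ℂ)‖ := hm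
      rw [h1, Complex.ofReal_zero, norm_zero] at h2
      linarith
    · refine wo_compact _ _ (κ * a) (mul_nonneg hκ0 ha0) b2 fun ε hε => ?_
      have h3 : Tendsto (fun n => κ * |θ n|) atTop (𝓝 (κ * |(0 : ℝ)|)) :=
        (ht.abs).const_mul κ
      rw [abs_zero, mul_zero] at h3
      obtain ⟨N, hN⟩ := eventually_atTop.1 (h3.eventually (gt_mem_nhds hε))
      refine (Set.finite_Icc (-(N : ℤ) - 1) (N + 1)).subset fun m hm => ?_
      have h4 : ε < ‖(a2 m : ℂ)‖ := hm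
      have h5 := h4.trans_le (b2' m)
      have h6 : ∀ j : ℕ, κ * |ang θ (m - 1)| = κ * |θ j| → j < N := by
        intro j hj
        by_contra hjN
        have := hN j (not_lt.1 hjN)
        rw [← hj] at this
        linarith
      rw [Set.mem_Icc]
      by_cases hm0 : 0 ≤ m - 1
      · have h7 := h6 (m - 1).toNat (by unfold ang; rw [if_pos hm0, abs_neg])
        omega
      · have h7 := h6 (-(m - 1) - 1).toNat (by unfold ang; rw [if_neg hm0])
        omega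
  · exact (norm_add_le _ _).trans (add_le_add (wo_norm _ _ _ hr1 b1)
      (wo_norm _ _ _ (mul_nonneg hκ0 ha0) b2))

end Pool.Agent.Work.MP_ebd05c_an.SG
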