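import Pool.Agent.Work.MP_ebd05c_an.SG.UU

set_option autoImplicit false

open scoped BigOperators ENNReal NNReal Topology ComplexConjugate InnerProductSpace
open Finset Filter MeasureTheory

/-!
Free motion. ee_step: (U e_j)(m+1) = cos(ang m)[m = j] + sin(ang m)[sgm m = j]; if ang j = 0 then the
first term is [m = j], and if sgm m = j then ang m = -ang j = 0 (ang_sgm), so (U e_j)(m+1) = [m = j],
i.e. U e_j = e_(j+1) (KK_ext; write an arbitrary integer as m + 1; ee_apply).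
right_pow: induction on n; v := U^n u satisfies v m = u (m - n), vanishing for m <= X. Step:
(U v)(m+1) = cos(ang m) v m + sin(ang m) v (sgm m). If m > X: ang m = 0, get v m. If m <= X:
v m = 0, and if ang m is not 0 then -X-1 <= m <= X so sgm m <= X and v (sgm m) = 0; so (U v)(m+1) = 0 = v m.
ee_right: iterate ee_step (ang (k+i) = 0 since k + i > X). ee_left: ang (k-n+i) = 0 for i < n since
k - n + i < -X-1 gives -(k-n+i)-1 > X. ee_low: ang j = 0 for -h-1 <= j <= h by Low.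
Use pow_succ : U^(n+1) = U^n * U and (U^n * U) v = (U^n) (U v) by rfl.
-/

namespace Pool.Agent.Work.MP_ebd05c_an.SG

open Pool.Agent.Work.MP_ebd05c_an.H

private theorem rt_succ' (θ : ℕ → ℝ) (n : ℕ) (u : KK) :
    (UU θ ^ (n + 1)) u = UU θ ((UU θ ^ n) u) := by
  rw [pow_succ']
  rfl

private theorem rt_succ (θ : ℕ → ℝ) (n : ℕ) (u : KK) :
    (UU θ ^ (n + 1)) u = (UU θ ^ n) (UU θ u) := by
  rw [pow_succ]
  rfl

private theorem rt_ang_pos {θ : ℕ → ℝ} {X : ℕ} (hθ : Sup θ X) {m : ℤ} (h : (X : ℤ) < m) :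
    ang θ m = 0 := by
  unfold ang
  rw [if_pos (by omega), hθ _ (by omega), neg_zero]

private theorem rt_ang_neg {θ : ℕ → ℝ} {X : ℕ} (hθ : Sup θ X) {m : ℤ} (h : m < -(X : ℤ) - 1) :
    ang θ m = 0 := by
  unfold ang
  rw [if_neg (by omega), hθ _ (by omega)]

theorem ee_step (θ : ℕ → ℝ) (j : ℤ) (h : ang θ j = 0) : UU θ (ee j) = ee (j + 1) := by
  refine KK_ext fun k => ?_
  obtain ⟨m, rfl⟩ : ∃ m : ℤ, k = m + 1 := ⟨k - 1, by ring⟩
  rw [UU_apply, ee_apply, ee_apply, ee_apply]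
  by_cases hm : m = j
  · rw [hm, h]
    simp
  · have h1 : m + 1 ≠ j + 1 := fun e => hm (by omega)
    rw [if_neg hm, if_neg h1]
    by_cases hs : sgm m = j
    · have h2 : ang θ m = 0 := by
        have h3 := ang_sgm θ m
        rw [hs, h] at h3
        linarith
      rw [h2]
      simp
    · rw [if_neg hs]
      simp

theorem right_pow (θ : ℕ → ℝ) (X : ℕ) (hθ : Sup θ X) (u : KK)
    (hu : ∀ m : ℤ, m ≤ (X : ℤ) → (u : ℤ → ℂ) m = 0) (n : ℕ) (m : ℤ) :
    ((UU θ ^ n) u : ℤ → ℂ) m = (u : ℤ → ℂ) (m - n) := by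
  induction n generalizing m with
  | zero =>
    rw [pow_zero]
    have : m - ((0 : ℕ) : ℤ) = m := by simp
    rw [this]
    rfl
  | succ n ih =>
    obtain ⟨k, rfl⟩ : ∃ k : ℤ, m = k + 1 := ⟨m - 1, by ring⟩
    rw [rt_succ', UU_apply, ih, ih]
    have e : k + 1 - ((n + 1 : ℕ) : ℤ) = k - n := by push_cast; ring
    rw [e]
    by_cases hk : (X : ℤ) < k
    · rw [rt_ang_pos hθ hk]
      simp
    · rw [hu (k - n) (by omega)]
      by_cases hk2 : k < -(X : ℤ) - 1
      · rw [rt_ang_neg hθ hk2]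
        simp
      · rw [hu (sgm k - n) (by unfold sgm; omega)]
        simp

theorem ee_right (θ : ℕ → ℝ) (X : ℕ) (hθ : Sup θ X) (k : ℤ) (hk : (X : ℤ) < k) (n : ℕ) :
    (UU θ ^ n) (ee k) = ee (k + n) := by
  induction n with
  | zero =>
    rw [pow_zero]
    have : k + ((0 : ℕ) : ℤ) = k := by simp
    rw [this]
    rfl
  | succ n ih =>
    rw [rt_succ', ih, ee_step θ _ (rt_ang_pos hθ (by omega))]
    congr 1
    push_cast
    ring

theorem ee_left (θ : ℕ → ℝ) (X : ℕ) (hθ : Sup θ X) (k : ℤ) (hk : k ≤ -(X : ℤ) - 1) (n : ℕ) :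
    (UU θ ^ n) (ee (k - n)) = ee k := by
  induction n with
  | zero =>
    rw [pow_zero]
    have : k - ((0 : ℕ) : ℤ) = k := by simp
    rw [this]
    rfl
  | succ n ih =>
    rw [rt_succ, ee_step θ _ (rt_ang_neg hθ (by push_cast; omega))]
    have e : k - ((n + 1 : ℕ) : ℤ) + 1 = k - n := by push_cast; ring
    rw [e, ih]

theorem ee_low (θ : ℕ → ℝ) (h : ℕ) (hθ : Low θ h) (k : ℤ) (hk : -(h : ℤ) - 1 ≤ k) (n : ℕ)
    (hn : k + n ≤ h + 1) : (UU θ ^ n) (ee k) = ee (k + n) := by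
  induction n with
  | zero =>
    rw [pow_zero]
    have : k + ((0 : ℕ) : ℤ) = k := by simp
    rw [this]
    rfl
  | succ n ih =>
    have h1 : k + (n : ℤ) + 1 ≤ h + 1 := by
      have := hn
      push_cast at this
      omega
    have h2 : ang θ (k + n) = 0 := by
      unfold ang
      by_cases h3 : 0 ≤ k + (n : ℤ)
      · rw [if_pos h3, hθ _ (by omega), neg_zero]
      · rw [if_neg h3, hθ _ (by omega)]
    rw [rt_succ', ih (by omega), ee_step θ _ h2]
    congr 1
    push_cast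
    ring

end Pool.Agent.Work.MP_ebd05c_an.SG
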