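import Pool.Agent.Work.MP_ebd05c_an.SG.TPow
import Pool.Agent.Work.MP_ebd05c_an.SG.Right

set_option autoImplicit false

open scoped BigOperators ENNReal NNReal Topology ComplexConjugate InnerProductSpace
open Finset Filter MeasureTheory

/-!
tt_pow: T^k e_(-k) = D U^k (E e_(-k)), E e_(-k) = (w(-k))⁻¹ e_(-k) = κ⁻¹ e_(-k) (left: -k < -h0),
U^k e_(-k) = e_0 by ee_low with h = k - 1 (k >= 1 as h0 < k; -h-1 = -k; -k + k = 0 <= h + 1), UO_pow,
D e_0 = w(0) e_0 = e_0 (right).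
-/

namespace Pool.Agent.Work.MP_ebd05c_an.SG

open Pool.Agent.Work.MP_ebd05c_an.H

theorem low_vec (r κ : ℝ) (L h0 I : ℕ) (γ : ℕ → ℝ) (h : ℕ → ℕ) (w : ℤ → ℝ)
    (St : Stair r κ L h0 I γ h w) (θ : ℕ → ℝ) (k : ℕ) (hk : h0 < k) (hL : ∀ m < k, θ m = 0) :
    (TT w θ ^ k) (ee (-(k : ℤ))) = ((κ⁻¹ : ℝ) : ℂ) • ee 0 := by
  have e1 : DD (fun m => (w m)⁻¹) (ee (-(k : ℤ))) = ((κ⁻¹ : ℝ) : ℂ) • ee (-(k : ℤ)) := by
    refine KK_ext fun m => ?_
    rw [DD_apply (fun m => (w m)⁻¹) 1 (fun m => by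
      have h1 := St.one_le m
      rw [abs_of_nonneg (inv_nonneg.2 (by linarith))]
      exact inv_le_one_of_one_le₀ h1)]
    rw [lp.coeFn_smul, Pi.smul_apply, smul_eq_mul, ee_apply]
    by_cases hm : m = -(k : ℤ)
    · rw [hm, St.left _ (by omega)]
    · rw [if_neg hm, mul_zero, mul_zero]
  have e2 : (UU θ ^ k) (ee (-(k : ℤ))) = ee 0 := by
    have h1 := ee_low θ (k - 1) (fun m hm => hL m (by omega)) (-(k : ℤ)) (by omega) k (by omega)
    rw [h1]
    congr 1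
    ring
  have e3 : DD w (ee 0) = ee 0 := by
    refine KK_ext fun m => ?_
    rw [DD_apply w κ (fun m => by
      have h1 := St.one_le m
      rw [abs_of_nonneg (by linarith)]
      exact St.le m), ee_apply]
    by_cases hm : m = 0
    · rw [hm, St.right 0 le_rfl]
      simp
    · rw [if_neg hm, mul_zero]
  rw [tt_pow κ w St.one_le St.le θ k]
  show DD w ((UO θ ^ k) (DD (fun m => (w m)⁻¹) (ee (-(k : ℤ))))) = _
  rw [e1, map_smul, map_smul, UO_pow, e2, e3]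

end Pool.Agent.Work.MP_ebd05c_an.SG
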