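import Pool.Agent.Work.MP_ebd05c_an.SG.UU

set_option autoImplicit false

open scoped BigOperators ENNReal NNReal Topology ComplexConjugate InnerProductSpace
open Finset Filter MeasureTheory

/-!
For each m the sequence ρ m is square summable, so g m := fourierBasis.repr.symm of it is an element
of Lp ℂ 2 haarAddCircle with fourierCoeff (g m) n = ρ m n (fourierBasis_repr) and |g m|^2 <= C
(norm of lp / hasSum); f m := a measurable representative ((Lp.aestronglyMeasurable _).mk or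
StronglyMeasurable of Lp; then AEEqFun). Integral: lintegral of ‖f m‖ₑ^2 = eLpNorm^2 <= ofReal C.
If f m = 0 a.e. then g m = 0 and all coefficients vanish.
Recurrence: both sides are in L2 and have the same Fourier coefficients: for h in L2,
fourierCoeff (fun t => fourier 1 t * h t) (n+1) = fourierCoeff h n (fourier (-(n+1)) * fourier 1 =
fourier (-n)), and fourierCoeff is linear; so the coefficients of the right side at n + 1 are
cos * ρ m n + sin * ρ (sgm m) n = ρ (m+1) (n+1). An L2 function with vanishing coefficients is 0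
(fourierBasis.repr injective), so equality a.e. for each m; ae_all_iff (ℤ countable).
-/

namespace Pool.Agent.Work.MP_ebd05c_an.SG

open Pool.Agent.Work.MP_ebd05c_an.H

private theorem ff_mem (r : ℤ → ℂ) (C : ℝ) (hC : ∀ F : Finset ℤ, ∑ n ∈ F, ‖r n‖ ^ 2 ≤ C) :
    ∃ g : Lp ℂ 2 (AddCircle.haarAddCircle : Measure UnitAddCircle),
      (∀ n, fourierCoeff (g : UnitAddCircle → ℂ) n = r n) ∧ ‖g‖ ^ 2 ≤ C := by
  have hs : Summable fun n => ‖r n‖ ^ 2 := summable_of_sum_le (fun n => by positivity) hC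
  have hm : Memℓp r 2 := by
    refine memℓp_gen ?_
    have e : (fun n => ‖r n‖ ^ (2 : ℝ≥0∞).toReal) = fun n => ‖r n‖ ^ 2 := by
      funext n
      rw [ENNReal.toReal_ofNat]
      exact Real.rpow_natCast _ 2
    rw [e]
    exact hs
  let c : lp (fun _ : ℤ => ℂ) 2 := ⟨r, hm⟩
  refine ⟨(fourierBasis (T := 1)).repr.symm c, fun n => ?_, ?_⟩
  · rw [← fourierBasis_repr, LinearIsometryEquiv.apply_symm_apply]
  · rw [LinearIsometryEquiv.norm_map]
    have h1 := lp.norm_rpow_eq_tsum (p := 2) (by norm_num) c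
    have e : (fun n => ‖(c : ℤ → ℂ) n‖ ^ (2 : ℝ≥0∞).toReal) = fun n => ‖r n‖ ^ 2 := by
      funext n
      rw [ENNReal.toReal_ofNat]
      exact Real.rpow_natCast _ 2
    rw [e, ENNReal.toReal_ofNat] at h1
    have h2 : ‖c‖ ^ 2 = ∑' n, ‖r n‖ ^ 2 := by
      rw [← h1]
      exact (Real.rpow_natCast _ 2).symm
    rw [h2]
    exact hs.tsum_le_of_sum_le hC

private theorem ff_lint (g : Lp ℂ 2 (AddCircle.haarAddCircle : Measure UnitAddCircle)) {C : ℝ}
    (h : ‖g‖ ^ 2 ≤ C) : ∫⁻ t, ‖(g : UnitAddCircle → ℂ) t‖ₑ ^ 2 ∂mm ≤ ENNReal.ofReal C := by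
  have h1 : ∫⁻ t, ‖(g : UnitAddCircle → ℂ) t‖ₑ ^ 2 ∂mm =
      (eLpNorm (g : UnitAddCircle → ℂ) 2 mm) ^ 2 := by
    rw [eLpNorm_eq_lintegral_rpow_enorm_toReal (by norm_num) (by norm_num)]
    rw [ENNReal.toReal_ofNat, ← ENNReal.rpow_natCast, ← ENNReal.rpow_mul]
    norm_num
  rw [h1]
  have h2 : eLpNorm (g : UnitAddCircle → ℂ) 2 mm = ENNReal.ofReal ‖g‖ := by
    rw [Lp.norm_def, ENNReal.ofReal_toReal (Lp.eLpNorm_ne_top g)]
  rw [h2, ← ENNReal.ofReal_pow (norm_nonneg _)]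
  exact ENNReal.ofReal_le_ofReal h

private theorem ff_shift (k : Lp ℂ 2 (AddCircle.haarAddCircle : Measure UnitAddCircle))
    (g : Lp ℂ 2 (AddCircle.haarAddCircle : Measure UnitAddCircle))
    (h : ∀ n, fourierCoeff (g : UnitAddCircle → ℂ) (n + 1) =
      fourierCoeff (k : UnitAddCircle → ℂ) n) :
    (g : UnitAddCircle → ℂ) =ᵐ[mm] fun t => fourier 1 t * (k : UnitAddCircle → ℂ) t := by
  have hn : ∀ t : UnitAddCircle, ‖(fourier 1 t : ℂ)‖ = 1 := fun t => Circle.norm_coe _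
  have hm : MemLp (fun t => fourier 1 t * (k : UnitAddCircle → ℂ) t) 2 mm := by
    refine (Lp.memLp k).of_le ?_ (Filter.Eventually.of_forall fun t => ?_)
    · exact ((fourier 1).continuous.aestronglyMeasurable).mul (Lp.aestronglyMeasurable k)
    · rw [norm_mul, hn, one_mul]
  have h1 : g = hm.toLp _ := by
    apply (fourierBasis (T := 1)).repr.injective
    ext n
    rw [fourierBasis_repr, fourierBasis_repr]
    have e1 : fourierCoeff (hm.toLp _ : UnitAddCircle → ℂ) n =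
        fourierCoeff (fun t => fourier 1 t * (k : UnitAddCircle → ℂ) t) n := by
      rw [fourierCoeff_congr_ae hm.coeFn_toLp]
    rw [e1]
    have e2 := h (n - 1)
    rw [sub_add_cancel] at e2
    rw [e2]
    unfold fourierCoeff
    refine integral_congr_ae (Filter.Eventually.of_forall fun t => ?_)
    change fourier (-(n - 1)) t • (k : UnitAddCircle → ℂ) t =
      fourier (-n) t • (fourier 1 t * (k : UnitAddCircle → ℂ) t)
    have e3 : (-(n - 1) : ℤ) = -n + 1 := by ring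
    rw [e3, fourier_add, smul_eq_mul, smul_eq_mul]
    ring
  rw [h1]
  exact hm.coeFn_toLp

theorem fourier_fun (ρ : ℤ → ℤ → ℂ) (C : ℝ) (hC : ∀ (m : ℤ) (F : Finset ℤ), ∑ n ∈ F, ‖ρ m n‖ ^ 2 ≤ C)
    (A : ℤ → ℝ) (hρ : ∀ m n : ℤ, ρ (m + 1) (n + 1) =
      (Real.cos (A m) : ℂ) * ρ m n + (Real.sin (A m) : ℂ) * ρ (sgm m) n) :
    ∃ f : ℤ → UnitAddCircle → ℂ, (∀ m, Measurable (f m)) ∧
      (∀ m, ∫⁻ t, ‖f m t‖ₑ ^ 2 ∂mm ≤ ENNReal.ofReal C) ∧
      (∀ m, f m =ᵐ[mm] 0 → ∀ n, ρ m n = 0) ∧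
      ∀ᵐ t ∂mm, ∀ m : ℤ, f (m + 1) t =
        fourier 1 t * ((Real.cos (A m) : ℂ) * f m t + (Real.sin (A m) : ℂ) * f (sgm m) t) := by
  choose g hg hgn using fun m => ff_mem (ρ m) C (hC m)
  refine ⟨fun m => (g m : UnitAddCircle → ℂ), fun m => (Lp.stronglyMeasurable (g m)).measurable,
    fun m => ff_lint (g m) (hgn m), ?_, ?_⟩
  · intro m hm n
    rw [← hg m n]
    have e : fourierCoeff (g m : UnitAddCircle → ℂ) = fourierCoeff (0 : UnitAddCircle → ℂ) :=
      fourierCoeff_congr_ae hm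
    rw [e]
    simp [fourierCoeff]
  · rw [ae_all_iff]
    intro m
    let k : Lp ℂ 2 (AddCircle.haarAddCircle : Measure UnitAddCircle) :=
      (Real.cos (A m) : ℂ) • g m + (Real.sin (A m) : ℂ) • g (sgm m)
    have hk : ∀ n, fourierCoeff (g (m + 1) : UnitAddCircle → ℂ) (n + 1) =
        fourierCoeff (k : UnitAddCircle → ℂ) n := by
      intro n
      rw [hg (m + 1) (n + 1), hρ m n, ← hg m n, ← hg (sgm m) n, ← fourierBasis_repr,
        ← fourierBasis_repr, ← fourierBasis_repr]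
      change _ = ((fourierBasis (T := 1)).repr ((Real.cos (A m) : ℂ) • g m +
        (Real.sin (A m) : ℂ) • g (sgm m)) : ℤ → ℂ) n
      rw [map_add, map_smul, map_smul]
      rfl
    have h1 := ff_shift k (g (m + 1)) hk
    have h2 : (k : UnitAddCircle → ℂ) =ᵐ[mm]
        ((Real.cos (A m) : ℂ) • g m : Lp ℂ 2 (AddCircle.haarAddCircle : Measure UnitAddCircle)) +
        ((Real.sin (A m) : ℂ) • g (sgm m) :
          Lp ℂ 2 (AddCircle.haarAddCircle : Measure UnitAddCircle)) := Lp.coeFn_add _ _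
    filter_upwards [h1, h2, Lp.coeFn_smul (Real.cos (A m) : ℂ) (g m),
      Lp.coeFn_smul (Real.sin (A m) : ℂ) (g (sgm m))] with t e1 e2 e3 e4
    rw [e1, e2, Pi.add_apply, e3, e4, Pi.smul_apply, Pi.smul_apply, smul_eq_mul, smul_eq_mul]

end Pool.Agent.Work.MP_ebd05c_an.SG
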