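import Pool.Agent.Work.MP_ebd05c_an.SG.UU

set_option autoImplicit false

open scoped BigOperators ENNReal NNReal Topology ComplexConjugate InnerProductSpace
open Finset Filter MeasureTheory

/-!
Young: for a, λ > 0 (a = g t, p = P k t): a^(1/3) = (a p)^(1/3) p^(-1/3) <= (λ/3) a p + (2/3) λ^(-1/2) p^(-1/2)
(Real.young_inequality or: x y <= x^3/3 + 2 y^(3/2)/3 with x = (λ a p)^(1/3), y = (λ p)^(-1/3)).
Alternatively without powers: fix η > 0, A = {t | η <= g t}. For K > 0 and every k
mm(A) <= mm{P k <= K^2} + mm(A and P k > K^2) <= K ∫ Q k + C/(η K^2): on {P k <= K^2} we have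
1 <= K / sqrt(P k) <= K Q k (Markov), and on the second set η K^2 <= g P k (Markov for lintegral).
Let k -> infinity, then K -> infinity: mm(A) = 0. So g = 0 a.e. (union over η = 1/(n+1)).
-/

namespace Pool.Agent.Work.MP_ebd05c_an.SG

open Pool.Agent.Work.MP_ebd05c_an.H

theorem zero_of_weights (g : UnitAddCircle → ℝ) (hg0 : ∀ t, 0 ≤ g t) (hgm : Measurable g)
    (P Q : ℕ → UnitAddCircle → ℝ) (hP : ∀ k t, 0 < P k t) (hPc : ∀ k, Continuous (P k))
    (hQc : ∀ k, Continuous (Q k)) (hPQ : ∀ k t, 1 / Real.sqrt (P k t) ≤ Q k t) (C : ℝ)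
    (hC : ∀ k, ∫⁻ t, ENNReal.ofReal (g t * P k t) ∂mm ≤ ENNReal.ofReal C)
    (hQ : Tendsto (fun k => ∫ t, Q k t ∂mm) atTop (𝓝 0)) : g =ᵐ[mm] 0 := by
  have key : ∀ η : ℝ, 0 < η → mm {t | η ≤ g t} = 0 := by
    intro η hη
    have h1 : ∀ (K : ℝ), 0 < K → ∀ k, mm.real {t | η ≤ g t} ≤
        K * ∫ t, Q k t ∂mm + |C| / (η * K ^ 2) := by
      intro K hK k
      have hQpos : ∀ t, 0 ≤ Q k t := fun t =>
        le_trans (by positivity) (hPQ k t)
      have hQi : Integrable (Q k) mm :=
        (hQc k).integrable_of_hasCompactSupport (HasCompactSupport.of_compactSpace _)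
      have hA : mm.real {t | P k t ≤ K ^ 2} ≤ K * ∫ t, Q k t ∂mm := by
        have hsub : {t | P k t ≤ K ^ 2} ⊆ {t | 1 / K ≤ Q k t} := by
          intro t ht
          have ht' : P k t ≤ K ^ 2 := ht
          have hsq : Real.sqrt (P k t) ≤ K := by
            rw [Real.sqrt_le_left hK.le]
            exact ht'
          have hsp : 0 < Real.sqrt (P k t) := Real.sqrt_pos.mpr (hP k t)
          exact le_trans (one_div_le_one_div_of_le hsp hsq) (hPQ k t)
        have hm := mul_meas_ge_le_integral_of_nonneg (μ := mm) (f := Q k)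
          (Filter.Eventually.of_forall hQpos) hQi (1 / K)
        have hmono : mm.real {t | P k t ≤ K ^ 2} ≤ mm.real {t | 1 / K ≤ Q k t} :=
          measureReal_mono hsub
        have h3 : mm.real {t | 1 / K ≤ Q k t} ≤ K * ∫ t, Q k t ∂mm := by
          have h4 : mm.real {t | 1 / K ≤ Q k t} =
              K * (1 / K * mm.real {t | 1 / K ≤ Q k t}) := by
            field_simp
          rw [h4]
          exact mul_le_mul_of_nonneg_left hm hK.le
        exact hmono.trans h3
      have hB : mm.real {t | η * K ^ 2 ≤ g t * P k t} ≤ |C| / (η * K ^ 2) := by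
        have hc : 0 < η * K ^ 2 := by positivity
        have hmeas : AEMeasurable (fun t => ENNReal.ofReal (g t * P k t)) mm :=
          ((hgm.mul (hPc k).measurable).ennreal_ofReal).aemeasurable
        have h5 := meas_ge_le_lintegral_div (μ := mm) hmeas
          (ε := ENNReal.ofReal (η * K ^ 2)) (by simpa using hc) ENNReal.ofReal_ne_top
        have h6 : {t | η * K ^ 2 ≤ g t * P k t} ⊆
            {t | ENNReal.ofReal (η * K ^ 2) ≤ ENNReal.ofReal (g t * P k t)} := by
          intro t ht
          exact ENNReal.ofReal_le_ofReal ht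
        have h7 : mm {t | η * K ^ 2 ≤ g t * P k t} ≤
            ENNReal.ofReal |C| / ENNReal.ofReal (η * K ^ 2) := by
          refine (measure_mono h6).trans (h5.trans ?_)
          gcongr
          exact (hC k).trans (ENNReal.ofReal_le_ofReal (le_abs_self C))
        rw [← ENNReal.ofReal_div_of_pos hc] at h7
        exact ENNReal.toReal_le_of_le_ofReal (by positivity) h7
      have hsub : {t | η ≤ g t} ⊆ {t | P k t ≤ K ^ 2} ∪ {t | η * K ^ 2 ≤ g t * P k t} := by
        intro t ht
        have ht' : η ≤ g t := ht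
        rcases le_or_gt (P k t) (K ^ 2) with h | h
        · exact Or.inl h
        · right
          change η * K ^ 2 ≤ g t * P k t
          exact mul_le_mul ht' h.le (by positivity) (hg0 t)
      calc mm.real {t | η ≤ g t}
          ≤ mm.real ({t | P k t ≤ K ^ 2} ∪ {t | η * K ^ 2 ≤ g t * P k t}) :=
            measureReal_mono hsub
        _ ≤ mm.real {t | P k t ≤ K ^ 2} + mm.real {t | η * K ^ 2 ≤ g t * P k t} :=
            measureReal_union_le _ _
        _ ≤ _ := add_le_add hA hB
    have h2 : ∀ (K : ℝ), 0 < K → mm.real {t | η ≤ g t} ≤ |C| / (η * K ^ 2) := by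
      intro K hK
      have hlim : Tendsto (fun k => K * ∫ t, Q k t ∂mm + |C| / (η * K ^ 2)) atTop
          (𝓝 (K * 0 + |C| / (η * K ^ 2))) := (hQ.const_mul K).add_const _
      have := ge_of_tendsto hlim (Filter.Eventually.of_forall (h1 K hK))
      simpa using this
    have h3 : mm.real {t | η ≤ g t} ≤ 0 := by
      have hlim : Tendsto (fun n : ℕ => |C| / (η * ((n : ℝ) + 1) ^ 2)) atTop (𝓝 0) := by
        have h8 : Tendsto (fun n : ℕ => η * ((n : ℝ) + 1) ^ 2) atTop atTop := by
          refine Tendsto.const_mul_atTop hη ?_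
          have h9 : Tendsto (fun n : ℕ => (n : ℝ) + 1) atTop atTop :=
            tendsto_atTop_add_const_right _ _ tendsto_natCast_atTop_atTop
          exact (tendsto_pow_atTop (by norm_num)).comp h9
        exact h8.const_div_atTop _
      exact ge_of_tendsto hlim (Filter.Eventually.of_forall fun n => h2 _ (by positivity))
    have h4 : mm.real {t | η ≤ g t} = 0 := le_antisymm h3 measureReal_nonneg
    exact (measureReal_eq_zero_iff).mp h4
  have hU : mm (⋃ n : ℕ, {t | 1 / ((n : ℝ) + 1) ≤ g t}) = 0 :=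
    measure_iUnion_null fun n => key _ (by positivity)
  rw [Filter.EventuallyEq, ae_iff]
  refine measure_mono_null ?_ hU
  intro t ht
  have ht' : g t ≠ 0 := ht
  have hpos : 0 < g t := lt_of_le_of_ne (hg0 t) (Ne.symm ht')
  obtain ⟨n, hn⟩ := exists_nat_one_div_lt hpos
  exact Set.mem_iUnion.mpr ⟨n, hn.le⟩

end Pool.Agent.Work.MP_ebd05c_an.SG
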