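import Pool.Agent.Work.MP_ebd05c_an.SG.Base

set_option autoImplicit false

open scoped BigOperators ENNReal NNReal Topology ComplexConjugate InnerProductSpace
open Finset Filter MeasureTheory

/-!
t = Re b in [-1, 1], y = |1 - s b|^2/(1 - s^2) = (1 - 2 s t + s^2)/(1 - s^2) > 0 and d := y - 1 =
2 s (s - t)/(1 - s^2), |d| <= 2 s/(1 - s) <= 2/19 < 1/8. TM s b = 1 - d/2 + 7 d^2/16 > 0. Claim
1/sqrt y <= 1 - d/2 + 7 d^2/16, i.e. 1 <= (1 + d)(1 - d/2 + 7d^2/16)^2 =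
1 + d^2 (1/8 + 11 d/16 - 63 d^2/256 + 49 d^3/256), true for |d| <= 1/8.
(Real.le_sqrt / one_div_le, y = 1 + d.)
tm_expand: t^2 = (1 + Re b^2)/2 for |b| = 1 (Re b^2 = t^2 - (Im b)^2, t^2 + (Im b)^2 = 1); ring.
tm_mean: with u = s^2 <= 1/400: 1 - u/(1-u) + (7/4) u (u + 1/2)/(1-u)^2 <= 1 - u/10; multiply by
(1-u)^2: -(1-u) + (7/4)(u + 1/2) <= -(1-u)^2/10, i.e. 7/8 - 1 + (11/4) u <= -(1-u)^2/10: left side
<= -1/8 + 11/1600 = -0.118.., right side >= -1/10. tm_mean_nonneg: the mean is >= 0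
(it is >= 1 - u/(1-u) > 0).
-/

namespace Pool.Agent.Work.MP_ebd05c_an.SG

open Pool.Agent.Work.MP_ebd05c_an.H

private theorem maj_t (b : ℂ) (hb : ‖b‖ = 1) : b.re ^ 2 + b.im ^ 2 = 1 := by
  have h := Complex.sq_norm b
  rw [hb, Complex.normSq_apply] at h
  linarith

private theorem maj_d (s : ℝ) (h0 : 0 ≤ s) (h1 : s ≤ 1 / 20) (b : ℂ) (hb : ‖b‖ = 1) :
    |2 * s * (s - b.re) / (1 - s ^ 2)| ≤ 1 / 8 := by
  have ht := maj_t b hb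
  have h2 : b.re ≤ 1 := by nlinarith [sq_nonneg b.im]
  have h3 : -1 ≤ b.re := by nlinarith [sq_nonneg b.im]
  have hD : 0 < 1 - s ^ 2 := by nlinarith
  rw [abs_le]
  constructor
  · rw [le_div_iff₀ hD]
    nlinarith
  · rw [div_le_iff₀ hD]
    nlinarith

private theorem maj_eq (s : ℝ) (b : ℂ) : TM s b = 1 - (2 * s * (s - b.re) / (1 - s ^ 2)) / 2 +
    7 * (2 * s * (s - b.re) / (1 - s ^ 2)) ^ 2 / 16 := by
  unfold TM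
  rw [div_pow]
  ring

theorem tm_pos (s : ℝ) (h0 : 0 ≤ s) (h1 : s ≤ 1 / 20) (b : ℂ) (hb : ‖b‖ = 1) : 0 < TM s b := by
  have h := (abs_le.1 (maj_d s h0 h1 b hb)).2
  rw [maj_eq]
  nlinarith [sq_nonneg (2 * s * (s - b.re) / (1 - s ^ 2))]

theorem tm_maj (s : ℝ) (h0 : 0 ≤ s) (h1 : s ≤ 1 / 20) (b : ℂ) (hb : ‖b‖ = 1) :
    1 / Real.sqrt (‖1 - s * b‖ ^ 2 / (1 - s ^ 2)) ≤ TM s b := by
  have ht := maj_t b hb
  have hD : 0 < 1 - s ^ 2 := by nlinarith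
  obtain ⟨d, hd⟩ : ∃ d, d = 2 * s * (s - b.re) / (1 - s ^ 2) := ⟨_, rfl⟩
  have hd1 := maj_d s h0 h1 b hb
  have hT := tm_pos s h0 h1 b hb
  have hTe := maj_eq s b
  rw [← hd] at hd1 hTe
  obtain ⟨hd2, hd3⟩ := abs_le.1 hd1
  have hn : ‖(1 : ℂ) - s * b‖ ^ 2 = 1 - 2 * s * b.re + s ^ 2 := by
    rw [Complex.sq_norm, Complex.normSq_apply]
    simp only [Complex.sub_re, Complex.one_re, Complex.mul_re, Complex.ofReal_re,
      Complex.ofReal_im, zero_mul, sub_zero, Complex.sub_im, Complex.one_im, Complex.mul_im,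
      add_zero]
    linear_combination s ^ 2 * ht
  have hy : ‖(1 : ℂ) - s * b‖ ^ 2 / (1 - s ^ 2) = 1 + d := by
    rw [hn, hd]
    field_simp
    ring
  rw [hy]
  have hy0 : 0 < 1 + d := by linarith
  have hsq : 0 < Real.sqrt (1 + d) := Real.sqrt_pos.2 hy0
  rw [div_le_iff₀ hsq]
  have hb1 : 0 ≤ 1 / 8 + 11 * d / 16 - 63 * d ^ 2 / 256 + 49 * d ^ 3 / 256 := by
    have e1 : d ^ 2 ≤ 1 / 64 := by nlinarith
    have e2 : -(1 / 512) ≤ d ^ 3 := by nlinarith [sq_nonneg d]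
    linarith
  have hb2 : 1 ≤ TM s b ^ 2 * (1 + d) := by
    have e3 := mul_nonneg (sq_nonneg d) hb1
    rw [hTe]
    nlinarith
  have hb3 : TM s b * Real.sqrt (1 + d) = Real.sqrt (TM s b ^ 2 * (1 + d)) := by
    rw [Real.sqrt_mul (sq_nonneg _), Real.sqrt_sq hT.le]
  rw [hb3]
  exact Real.one_le_sqrt.2 hb2

theorem tm_expand (s : ℝ) (b : ℂ) (hb : ‖b‖ = 1) : TM s b =
    (1 - s ^ 2 / (1 - s ^ 2) + 7 / 4 * s ^ 2 * (s ^ 2 + 1 / 2) / (1 - s ^ 2) ^ 2) +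
      (s / (1 - s ^ 2) - 7 / 2 * s ^ 3 / (1 - s ^ 2) ^ 2) * b.re +
      7 / 8 * s ^ 2 / (1 - s ^ 2) ^ 2 * (b ^ 2).re := by
  have ht := maj_t b hb
  have h1 : (b ^ 2).re = 2 * b.re ^ 2 - 1 := by
    rw [pow_two, Complex.mul_re]
    linear_combination -ht
  rw [h1]
  unfold TM
  simp only [div_eq_mul_inv, ← inv_pow]
  ring

theorem tm_mean (s : ℝ) (h0 : 0 ≤ s) (h1 : s ≤ 1 / 20) :
    1 - s ^ 2 / (1 - s ^ 2) + 7 / 4 * s ^ 2 * (s ^ 2 + 1 / 2) / (1 - s ^ 2) ^ 2 ≤ 1 - s ^ 2 / 10 := by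
  have hu : s ^ 2 ≤ 1 / 400 := by nlinarith
  have hD : 0 < 1 - s ^ 2 := by linarith
  have h2 : 1 - s ^ 2 / (1 - s ^ 2) + 7 / 4 * s ^ 2 * (s ^ 2 + 1 / 2) / (1 - s ^ 2) ^ 2 -
      (1 - s ^ 2 / 10) = s ^ 2 * (-(1 - s ^ 2) + 7 / 4 * (s ^ 2 + 1 / 2) + (1 - s ^ 2) ^ 2 / 10) /
        (1 - s ^ 2) ^ 2 := by
    field_simp
    ring
  have h3 : s ^ 2 * (-(1 - s ^ 2) + 7 / 4 * (s ^ 2 + 1 / 2) + (1 - s ^ 2) ^ 2 / 10) /
        (1 - s ^ 2) ^ 2 ≤ 0 := by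
    refine div_nonpos_of_nonpos_of_nonneg ?_ (sq_nonneg _)
    refine mul_nonpos_of_nonneg_of_nonpos (sq_nonneg _) ?_
    nlinarith [sq_nonneg s]
  linarith

theorem tm_zero (b : ℂ) : TM 0 b = 1 := by
  unfold TM
  simp

end Pool.Agent.Work.MP_ebd05c_an.SG
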