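import Pool.Agent.Work.MP_ebd05c_an.SG.BBl
import Pool.Agent.Work.MP_ebd05c_an.SG.UU

set_option autoImplicit false

open scoped BigOperators ENNReal NNReal Topology ComplexConjugate InnerProductSpace
open Finset Filter MeasureTheory

/-!
Induction on M, s = sin (θ M), c = cos (θ M) > 0, B = BB θ M z. M = 0: trivial (BB θ 0 z = z).
Step: hF at m = M (ang = -θ M, sgm M = -M-1): F(M+1) = z (c F M - s F(-M-1)). hF at m = -M-1
(ang = θ M, sgm (-M-1) = M): F(-M) = z (c F(-M-1) + s F M). With z F M = B F(-M):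
z c F(-M-1) = (1 - s B) F(-M), which gives |F(-M-1)|^2 = |F(-M)|^2 |1 - s B|^2 / c^2 (first claim,
PM is a product over range (M+1)), and
z F(M+1) = z (c z F M) - s z^2 F(-M-1) = z F(-M) (c B - s (1 - s B)/c) = (z/c) (B - s) F(-M), while
BB θ (M+1) z * F(-M-1) = z^2 (B-s)/(1-sB) * F(-M) (1-sB)/(z c) = (z/c)(B - s) F(-M). (z ≠ 0, 1 - sB ≠ 0.)
point_zero: if F 0 = 0 then F(-M) = 0 for all M by the first claim, and z F M = B F(-M) = 0.
Every integer is M or -M.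
-/

namespace Pool.Agent.Work.MP_ebd05c_an.SG

open Pool.Agent.Work.MP_ebd05c_an.H

theorem point (θ : ℕ → ℝ) (hc : ∀ m, 0 < Real.cos (θ m)) (hs : ∀ m, |Real.sin (θ m)| < 1) (z : ℂ)
    (hz : ‖z‖ = 1) (F : ℤ → ℂ) (hF : ∀ m : ℤ, F (m + 1) =
      z * ((Real.cos (ang θ m) : ℂ) * F m + (Real.sin (ang θ m) : ℂ) * F (sgm m))) (M : ℕ) :
    ‖F (-(M : ℤ))‖ ^ 2 = ‖F 0‖ ^ 2 * PM θ M z ∧ z * F M = BB θ M z * F (-(M : ℤ)) := by
  induction M with
  | zero =>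
    refine ⟨?_, ?_⟩
    · simp [PM]
    · simp [BB]
  | succ M ih =>
    obtain ⟨hA, hB⟩ := ih
    have ang1 : ang θ (M : ℤ) = -θ M := by
      unfold ang
      rw [if_pos (Int.natCast_nonneg M), Int.toNat_natCast]
    have ang2 : ang θ (-(M : ℤ) - 1) = θ M := by
      unfold ang
      rw [if_neg (by omega)]
      congr 1
      omega
    have sg1 : sgm (M : ℤ) = -(M : ℤ) - 1 := rfl
    have sg2 : sgm (-(M : ℤ) - 1) = (M : ℤ) := by unfold sgm; ring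
    have h1 := hF (M : ℤ)
    have h2 := hF (-(M : ℤ) - 1)
    rw [ang1, sg1, Real.cos_neg, Real.sin_neg] at h1
    rw [ang2, sg2, sub_add_cancel] at h2
    have hcast : (-((M + 1 : ℕ) : ℤ)) = -(M : ℤ) - 1 := by push_cast; ring
    have hcast2 : ((M + 1 : ℕ) : ℤ) = (M : ℤ) + 1 := by push_cast; ring
    rw [hcast, hcast2]
    obtain ⟨b, hb⟩ : ∃ b, b = BB θ M z := ⟨_, rfl⟩
    obtain ⟨f, hf⟩ : ∃ f, f = F (-(M : ℤ)) := ⟨_, rfl⟩
    obtain ⟨g, hg⟩ : ∃ g, g = F (-(M : ℤ) - 1) := ⟨_, rfl⟩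
    obtain ⟨s, hsd⟩ : ∃ s, s = Real.sin (θ M) := ⟨_, rfl⟩
    obtain ⟨c, hcd⟩ : ∃ c, c = Real.cos (θ M) := ⟨_, rfl⟩
    have hBBs : BB θ (M + 1) z = z ^ 2 * ((b - s) / (1 - s * b)) := by rw [hb, hsd]; rfl
    have hPM : PM θ (M + 1) z = PM θ M z * (‖1 - s * b‖ ^ 2 / c ^ 2) := by
      unfold PM
      rw [prod_range_succ, hb, hsd, hcd]
    have hb1 : ‖b‖ = 1 := by rw [hb]; exact BB_norm θ hs z hz M
    have hne : (1 : ℂ) - s * b ≠ 0 := one_sub_ne s (by rw [hsd]; exact hs M) b hb1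
    have hc0 : 0 < c := by rw [hcd]; exact hc M
    have hcs : (c : ℂ) ^ 2 + (s : ℂ) ^ 2 = 1 := by
      have h3 : c ^ 2 + s ^ 2 = 1 := by rw [hcd, hsd]; exact Real.cos_sq_add_sin_sq (θ M)
      exact_mod_cast h3
    rw [hBBs, hPM, ← hg]
    rw [← hcd, ← hsd, ← hg] at h1
    rw [← hcd, ← hsd, ← hf, ← hg] at h2
    rw [← hf] at hA hB
    rw [← hb] at hB
    have h4 : z * c * g = (1 - s * b) * f := by
      linear_combination (-1 : ℂ) * h2 - (s : ℂ) * hB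
    refine ⟨?_, ?_⟩
    · have h5 : ‖z * c * g‖ ^ 2 = ‖(1 - s * b) * f‖ ^ 2 := by rw [h4]
      rw [norm_mul, norm_mul, hz, one_mul, norm_mul, mul_pow, mul_pow, hA, Complex.norm_real,
        Real.norm_eq_abs, sq_abs] at h5
      have h6 : c ^ 2 ≠ 0 := by positivity
      field_simp
      linear_combination h5
    · rw [h1, mul_div_assoc', div_mul_eq_mul_div, eq_div_iff hne]
      push_cast
      linear_combination (z * c * (1 - s * b)) * hB - (z * c * b) * h4 + (z ^ 2 * b * g) * hcs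

theorem point_zero (θ : ℕ → ℝ) (hc : ∀ m, 0 < Real.cos (θ m)) (hs : ∀ m, |Real.sin (θ m)| < 1)
    (z : ℂ) (hz : ‖z‖ = 1) (F : ℤ → ℂ) (hF : ∀ m : ℤ, F (m + 1) =
      z * ((Real.cos (ang θ m) : ℂ) * F m + (Real.sin (ang θ m) : ℂ) * F (sgm m))) (h0 : F 0 = 0)
    (m : ℤ) : F m = 0 := by
  have hneg : ∀ M : ℕ, F (-(M : ℤ)) = 0 := by
    intro M
    have h1 := (point θ hc hs z hz F hF M).1
    rw [h0, norm_zero, zero_pow two_ne_zero, zero_mul] at h1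
    exact norm_eq_zero.1 (pow_eq_zero_iff two_ne_zero |>.1 h1)
  have hz0 : z ≠ 0 := by
    intro h
    rw [h, norm_zero] at hz
    exact zero_ne_one hz
  obtain ⟨M, rfl | rfl⟩ := m.eq_nat_or_neg
  · have h2 := (point θ hc hs z hz F hF M).2
    rw [hneg M, mul_zero] at h2
    exact (mul_eq_zero.1 h2).resolve_left hz0
  · exact hneg M

end Pool.Agent.Work.MP_ebd05c_an.SG
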