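import Pool.Agent.Work.MP_ebd05c_an.SG.Base

set_option autoImplicit false

open scoped BigOperators ENNReal NNReal Topology ComplexConjugate InnerProductSpace
open Finset Filter MeasureTheory

/-!
Elementary: x strictly increasing, so x j = x j' only for j = j', and j <= x j.
thJ_succ: by cases m = x J (then x j = m for no j < J) or not. thJ_sup: x j = m and j <= J give m <= x J.
thA_eq: for m < x J: if x j = m then j <= x j = m < m + 1 and j < J (strictly increasing), so both sums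
have the same nonzero term (Finset.sum_eq_single or Finset.sum_filter). thA_low: m < x 0 <= x j.
thA_le, thJ_small: at most one nonzero term. thA_tendsto: for m >= x J the value is 0 or α j, j >= J.
-/

namespace Pool.Agent.Work.MP_ebd05c_an.SG

open Pool.Agent.Work.MP_ebd05c_an.H

private theorem tj_hit {x : ℕ → ℕ} (α : ℕ → ℝ) (hx : StrictMono x) {J j : ℕ} (hj : j < J) :
    thJ x α J (x j) = α j := by
  unfold thJ
  rw [Finset.sum_eq_single j, if_pos rfl]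
  · intro i _ hi
    rw [if_neg]
    intro h
    exact hi (hx.injective h)
  · intro h
    exact absurd (Finset.mem_range.2 hj) h

private theorem tj_miss {x : ℕ → ℕ} (α : ℕ → ℝ) {J m : ℕ} (h : ∀ j < J, x j ≠ m) :
    thJ x α J m = 0 := by
  unfold thJ
  apply Finset.sum_eq_zero
  intro j hj
  rw [if_neg (h j (Finset.mem_range.1 hj))]

private theorem ta_tj (x : ℕ → ℕ) (α : ℕ → ℝ) (m : ℕ) : thA x α m = thJ x α (m + 1) m := rfl

theorem thJ_succ (x : ℕ → ℕ) (α : ℕ → ℝ) (hx : StrictMono x) (J : ℕ) :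
    thJ x α (J + 1) = Function.update (thJ x α J) (x J) (α J) := by
  funext m
  by_cases h : m = x J
  · subst h
    rw [Function.update_self, tj_hit α hx (Nat.lt_succ_self J)]
  · rw [Function.update_of_ne h]
    unfold thJ
    rw [Finset.sum_range_succ, if_neg (fun h1 => h h1.symm), add_zero]

theorem thJ_sup (x : ℕ → ℕ) (α : ℕ → ℝ) (hx : StrictMono x) (J : ℕ) :
    Sup (thJ x α (J + 1)) (x J) := by
  intro m hm
  apply tj_miss
  intro j hj h
  have h1 := hx.monotone (Nat.lt_succ_iff.1 hj)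
  omega

theorem thA_eq (x : ℕ → ℕ) (α : ℕ → ℝ) (hx : StrictMono x) (J m : ℕ) (hm : m < x J) :
    thA x α m = thJ x α J m := by
  rw [ta_tj]
  by_cases h : ∃ j, x j = m
  · obtain ⟨j, rfl⟩ := h
    have h1 : j < J := hx.lt_iff_lt.1 hm
    have h2 : j ≤ x j := hx.le_apply
    rw [tj_hit α hx h1, tj_hit α hx (Nat.lt_succ_of_le h2)]
  · have h1 : ∀ j, x j ≠ m := fun j hj => h ⟨j, hj⟩
    rw [tj_miss α fun j _ => h1 j, tj_miss α fun j _ => h1 j]

theorem thA_low (x : ℕ → ℕ) (α : ℕ → ℝ) (hx : StrictMono x) (m : ℕ) (hm : m < x 0) :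
    thA x α m = 0 := by
  rw [ta_tj]
  apply tj_miss
  intro j _ h
  have h1 := hx.monotone (Nat.zero_le j)
  omega

private theorem tj_le (x : ℕ → ℕ) (α : ℕ → ℝ) (hx : StrictMono x) (a : ℝ)
    (hα : ∀ j, 0 ≤ α j ∧ α j ≤ a) (J m : ℕ) : 0 ≤ thJ x α J m ∧ thJ x α J m ≤ a := by
  by_cases h : ∃ j, j < J ∧ x j = m
  · obtain ⟨j, hj, rfl⟩ := h
    rw [tj_hit α hx hj]
    exact hα j
  · rw [tj_miss α fun j hj h1 => h ⟨j, hj, h1⟩]
    exact ⟨le_rfl, (hα 0).1.trans (hα 0).2⟩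

theorem thA_le (x : ℕ → ℕ) (α : ℕ → ℝ) (hx : StrictMono x) (a : ℝ)
    (hα : ∀ j, 0 ≤ α j ∧ α j ≤ a) (m : ℕ) : 0 ≤ thA x α m ∧ thA x α m ≤ a := by
  rw [ta_tj]
  exact tj_le x α hx a hα _ _

theorem thJ_le (x : ℕ → ℕ) (α : ℕ → ℝ) (hx : StrictMono x) (a : ℝ)
    (hα : ∀ j, 0 ≤ α j ∧ α j ≤ a) (J m : ℕ) : 0 ≤ thJ x α J m ∧ thJ x α J m ≤ a :=
  tj_le x α hx a hα J m

theorem thA_tendsto (x : ℕ → ℕ) (α : ℕ → ℝ) (hx : StrictMono x) (hα : Tendsto α atTop (𝓝 0)) :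
    Tendsto (thA x α) atTop (𝓝 0) := by
  rw [Metric.tendsto_atTop] at hα ⊢
  intro ε hε
  obtain ⟨J, hJ⟩ := hα ε hε
  refine ⟨x J, fun m hm => ?_⟩
  rw [ta_tj]
  by_cases h : ∃ j, x j = m
  · obtain ⟨j, rfl⟩ := h
    have h1 : J ≤ j := hx.le_iff_le.1 hm
    have h2 : j ≤ x j := hx.le_apply
    rw [tj_hit α hx (Nat.lt_succ_of_le h2)]
    exact hJ j h1
  · rw [tj_miss α fun j _ h1 => h ⟨j, h1⟩, dist_self]
    exact hε

end Pool.Agent.Work.MP_ebd05c_an.SG
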