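import Pool.Agent.Work.MP_ebd05c_an.SG.TwoS
import Pool.Agent.Work.MP_ebd05c_an.SG.FFun
import Pool.Agent.Work.MP_ebd05c_an.SG.Point
import Pool.Agent.Work.MP_ebd05c_an.SG.Maj
import Pool.Agent.Work.MP_ebd05c_an.SG.Hold
import Pool.Agent.Work.MP_ebd05c_an.SG.Thj

set_option autoImplicit false

open scoped BigOperators ENNReal NNReal Topology ComplexConjugate InnerProductSpace
open Finset Filter MeasureTheory

/-!
θ = thA x α, all 0 <= θ m <= 1/20 (thA_le), so cos (θ m) > 0, 0 <= sin (θ m) <= 1/20. Let C be the constant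
of Smooth (may be replaced by |C|); ρ m n := (U^n y)(m), two_sided gives the bounds, and UU_apply for
U^(n+1) y = U (U^n y) gives the recurrence with A = ang θ. Take f from fourier_fun. For a.e. t put
z = fourier 1 t and F m = f m t: point applies. Let g t = |f 0 t|^2, P k t = PM θ (x k + 1) (fourier 1 t)
(positive: 1 - sB ≠ 0, cos > 0; PM_cont). Then ∫⁻ g P k = ∫⁻ |f (-(x k + 1))|^2 <= C (point, a.e.). Let
Q k t = QM θ (x k + 1) (fourier 1 t); 1/sqrt(PM) <= QM factorwise (tm_maj with s = sin (θ m),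
cos^2 = 1 - sin^2, Finset.prod_le_prod, sqrt of a product). QM θ (x k + 1) = QM (thJ x α (k+1)) (x k + 1)
by QM_congr and thA_eq (for m < x k + 1 <= x (k+1)). So ∫ Q k <= Π_(j<=k) (1 - sin(α j)^2/20) <=
exp (- sum sin(α j)^2/20) -> 0 (Real.add_one_le_exp). zero_of_weights: f 0 = 0 a.e. Then by
point_zero all f m = 0 a.e., so ρ m n = 0, in particular y m = ρ m 0 = 0 for all m.
-/

namespace Pool.Agent.Work.MP_ebd05c_an.SG

open Pool.Agent.Work.MP_ebd05c_an.H

private theorem nosm_rec (θ : ℕ → ℝ) (y : KK) (m n : ℤ) :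
    ((UU θ ^ (n + 1)) y : ℤ → ℂ) (m + 1) =
      (Real.cos (ang θ m) : ℂ) * ((UU θ ^ n) y : ℤ → ℂ) m +
        (Real.sin (ang θ m) : ℂ) * ((UU θ ^ n) y : ℤ → ℂ) (sgm m) := by
  have h1 : (UU θ ^ (n + 1)) y = UU θ ((UU θ ^ n) y) := by
    rw [add_comm, zpow_add, zpow_one]
    rfl
  rw [h1]
  exact UU_apply θ _ m

private theorem nosm_pm_pos (θ : ℕ → ℝ) (hc : ∀ m, 0 < Real.cos (θ m))
    (hs : ∀ m, |Real.sin (θ m)| < 1) (M : ℕ) (z : ℂ) (hz : ‖z‖ = 1) : 0 < PM θ M z := by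
  apply Finset.prod_pos
  intro m _
  have h1 : (1 : ℂ) - Real.sin (θ m) * BB θ m z ≠ 0 := one_sub_ne _ (hs m) _ (BB_norm θ hs z hz m)
  have h2 := norm_pos_iff.2 h1
  have h3 := hc m
  positivity

private theorem nosm_sqrt (θ : ℕ → ℝ)
    (hs : ∀ m, 0 ≤ Real.sin (θ m) ∧ Real.sin (θ m) ≤ 1 / 20) (M : ℕ) (z : ℂ) (hz : ‖z‖ = 1) :
    1 / Real.sqrt (PM θ M z) ≤ QM θ M z := by
  have hs' : ∀ m, |Real.sin (θ m)| < 1 := fun m => by
    rw [abs_of_nonneg (hs m).1]
    linarith [(hs m).2]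
  have h1 : 1 / Real.sqrt (PM θ M z) = ∏ m ∈ range M,
      (1 / Real.sqrt (‖1 - Real.sin (θ m) * BB θ m z‖ ^ 2 / Real.cos (θ m) ^ 2)) := by
    unfold PM
    rw [Real.sqrt_prod]
    · simp
    · intro m _
      positivity
  rw [h1]
  unfold QM
  apply Finset.prod_le_prod
  · intro m _
    positivity
  · intro m _
    have h2 := tm_maj (Real.sin (θ m)) (hs m).1 (hs m).2 (BB θ m z) (BB_norm θ hs' z hz m)
    have h3 : Real.cos (θ m) ^ 2 = 1 - Real.sin (θ m) ^ 2 := Real.cos_sq' _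
    rw [h3]
    exact h2

theorem no_smooth (x : ℕ → ℕ) (α : ℕ → ℝ) (hx : StrictMono x) (hα : ∀ j, 0 < α j ∧ α j ≤ 1 / 20)
    (hI : ∀ J : ℕ, ∫ t, QM (thJ x α (J + 1)) (x J + 1) (fourier 1 t) ∂mm ≤
      ∏ j ∈ range (J + 1), (1 - Real.sin (α j) ^ 2 / 20))
    (hdiv : Tendsto (fun J => ∑ j ∈ range J, Real.sin (α j) ^ 2) atTop atTop) (y : KK)
    (hy : Smooth (UO (thA x α)) y) : y = 0 := by
  set θ : ℕ → ℝ := thA x α with hθ
  have hθ1 : ∀ m, 0 ≤ θ m ∧ θ m ≤ 1 / 20 := fun m =>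
    thA_le x α hx (1 / 20) (fun j => ⟨(hα j).1.le, (hα j).2⟩) m
  have hpi := Real.pi_gt_three
  have hs : ∀ m, 0 ≤ Real.sin (θ m) ∧ Real.sin (θ m) ≤ 1 / 20 := fun m =>
    ⟨Real.sin_nonneg_of_nonneg_of_le_pi (hθ1 m).1 (by linarith [(hθ1 m).2]),
      (Real.sin_le (hθ1 m).1).trans (hθ1 m).2⟩
  have hs' : ∀ m, |Real.sin (θ m)| < 1 := fun m => by
    rw [abs_of_nonneg (hs m).1]
    linarith [(hs m).2]
  have hc : ∀ m, 0 < Real.cos (θ m) := fun m =>
    Real.cos_pos_of_mem_Ioo ⟨by linarith [(hθ1 m).1], by linarith [(hθ1 m).2]⟩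
  obtain ⟨C, hC⟩ := hy
  have h2 := two_sided θ y C hC
  obtain ⟨f, hf1, hf2, hf3, hf4⟩ := fourier_fun (fun m n => ((UU θ ^ n) y : ℤ → ℂ) m) C h2 (ang θ)
    (fun m n => nosm_rec θ y m n)
  -- the function at the origin
  have key : (fun t => ‖f 0 t‖ ^ 2) =ᵐ[mm] 0 := by
    apply zero_of_weights (fun t => ‖f 0 t‖ ^ 2) (fun t => by positivity)
      ((hf1 0).norm.pow_const 2) (fun k t => PM θ (x k + 1) (fourier 1 t))
      (fun k t => QM θ (x k + 1) (fourier 1 t))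
      (fun k t => nosm_pm_pos θ hc hs' _ _ (norm_fourier 1 t))
      (fun k => PM_cont θ hs' _) (fun k => QM_cont θ hs' _)
      (fun k t => nosm_sqrt θ hs _ _ (norm_fourier 1 t)) C
    · intro k
      have h3 : ∫⁻ t, ENNReal.ofReal (‖f 0 t‖ ^ 2 * PM θ (x k + 1) (fourier 1 t)) ∂mm =
          ∫⁻ t, ‖f (-((x k + 1 : ℕ) : ℤ)) t‖ₑ ^ 2 ∂mm := by
        apply lintegral_congr_ae
        filter_upwards [hf4] with t ht
        have h4 := (point θ hc hs' (fourier 1 t) (norm_fourier 1 t) (fun m => f m t) ht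
          (x k + 1)).1
        rw [← h4, ← ofReal_norm, ENNReal.ofReal_pow (norm_nonneg _)]
      rw [h3]
      exact hf2 _
    · have h5 : ∀ k, ∫ t, QM θ (x k + 1) (fourier 1 t) ∂mm ≤
          Real.exp (-(1 / 20) * ∑ j ∈ range (k + 1), Real.sin (α j) ^ 2) := by
        intro k
        have h6 : ∀ t : UnitAddCircle, QM θ (x k + 1) (fourier 1 t) =
            QM (thJ x α (k + 1)) (x k + 1) (fourier 1 t) := by
          intro t
          apply QM_congr
          intro i hi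
          apply thA_eq x α hx (k + 1) i
          have h9 : x k < x (k + 1) := hx (Nat.lt_succ_self k)
          omega
        simp_rw [h6]
        refine (hI k).trans ?_
        rw [Finset.mul_sum, Real.exp_sum]
        apply Finset.prod_le_prod
        · intro j _
          have h7 := Real.sin_sq_le_one (α j)
          linarith
        · intro j _
          have h7 := Real.add_one_le_exp (-(1 / 20) * Real.sin (α j) ^ 2)
          linarith
      have h6 : Tendsto (fun k => Real.exp (-(1 / 20) * ∑ j ∈ range (k + 1),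
          Real.sin (α j) ^ 2)) atTop (𝓝 0) := by
        apply Real.tendsto_exp_atBot.comp
        have h7 := (tendsto_add_atTop_iff_nat 1).2 hdiv
        exact h7.const_mul_atTop_of_neg (by norm_num)
      refine squeeze_zero (fun k => ?_) h5 h6
      apply integral_nonneg
      intro t
      apply Finset.prod_nonneg
      intro m _
      exact (tm_pos (Real.sin (θ m)) (hs m).1 (hs m).2 _
        (BB_norm θ hs' _ (norm_fourier 1 t) m)).le
  have hall : ∀ m : ℤ, f m =ᵐ[mm] 0 := by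
    intro m
    filter_upwards [key, hf4] with t ht1 ht2
    have h3 : f 0 t = 0 := by
      have h4 : ‖f 0 t‖ ^ 2 = 0 := ht1
      exact norm_eq_zero.1 (pow_eq_zero_iff (two_ne_zero) |>.1 h4)
    exact point_zero θ hc hs' (fourier 1 t) (norm_fourier 1 t) (fun m => f m t) ht2 h3 m
  apply KK_ext
  intro m
  have h3 := hf3 m (hall m) 0
  have h4 : ((UU θ ^ (0 : ℤ)) y : ℤ → ℂ) m = (y : ℤ → ℂ) m := by
    rw [zpow_zero]
    rfl
  rw [← h4, h3]
  rfl

end Pool.Agent.Work.MP_ebd05c_an.SG
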