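import Pool.Agent.Work.MP_ebd05c_an.SG.TPow

set_option autoImplicit false

open scoped BigOperators ENNReal NNReal Topology ComplexConjugate InnerProductSpace
open Finset Filter MeasureTheory

/-!
Let S = UU (fun _ => 0) (the free shift: (S u)(m+1) = u m, so (S⁻¹^n u) m = u (m+n)). For all u,
|UU θ u - S u| <= 2a |u|: entries (cos(ang θ m) - 1) u m + sin(ang θ m) u (sgm m), |cos t - 1| <= |t|,
|sin t| <= |t|, |ang θ m| <= a; so it is the sum of two weighted compositions of norm <= a each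
(apply S⁻¹ and use wo_norm, or norm_le_of_sq with |x+y|^2 <= 2|x|^2 + 2|y|^2:
sum <= 2 a^2 |u|^2 + 2 a^2 |u|^2 = (2a)^2 |u|^2). Hence |U⁻¹ v - S⁻¹ v| = |S (U⁻¹ v) - U (U⁻¹ v)| <= 2a |v|
and |U⁻¹^n v - S⁻¹^n v| <= 2 a n |v| by induction. So
|R^n x| <= |D S⁻¹^n E x| + κ * 2 a n |E x|, E = DD w⁻¹, and (D S⁻¹^n E x)(m) = w(m)/w(m+n) x(m+n) with
w(m) = w((m+n)-n) <= r w(m+n) (Stair.slow, n <= L), so the first term is <= r |x|.
-/

namespace Pool.Agent.Work.MP_ebd05c_an.SG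

open Pool.Agent.Work.MP_ebd05c_an.H

private theorem rsm_diff (θ : ℕ → ℝ) (a : ℝ) (ha : ∀ m, |θ m| ≤ a) (u : KK) :
    ‖UU θ u - UU (fun _ => 0) u‖ ≤ 2 * a * ‖u‖ := by
  have ha0 : 0 ≤ a := (abs_nonneg _).trans (ha 0)
  have hang : ∀ m : ℤ, |ang θ m| ≤ a := by
    intro m
    unfold ang
    split_ifs
    · rw [abs_neg]; exact ha _
    · exact ha _
  have h1 : ∀ m : ℤ, ‖((Real.cos (ang θ (m - 1)) - 1 : ℝ) : ℂ)‖ ≤ a := by
    intro m
    rw [Complex.norm_real, Real.norm_eq_abs]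
    refine le_trans ?_ (hang (m - 1))
    have h2 := Real.one_sub_sq_div_two_le_cos (x := ang θ (m - 1))
    have h3 := Real.cos_le_one (ang θ (m - 1))
    have h4 := Real.neg_one_le_cos (ang θ (m - 1))
    rw [abs_of_nonpos (by linarith)]
    have h5 : ang θ (m - 1) ^ 2 = |ang θ (m - 1)| ^ 2 := (sq_abs _).symm
    rcases le_total |ang θ (m - 1)| 2 with h6 | h6
    · have := abs_nonneg (ang θ (m - 1))
      nlinarith
    · linarith
  have h2 : ∀ m : ℤ, ‖((Real.sin (ang θ (m - 1)) : ℝ) : ℂ)‖ ≤ a := by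
    intro m
    rw [Complex.norm_real, Real.norm_eq_abs]
    exact (Real.abs_sin_le_abs).trans (hang (m - 1))
  have e0 : UU θ u - UU (fun _ => 0) u =
      wo (Equiv.subRight 1) (fun m : ℤ => ((Real.cos (ang θ (m - 1)) - 1 : ℝ) : ℂ)) u +
      wo (Equiv.neg ℤ) (fun m : ℤ => ((Real.sin (ang θ (m - 1)) : ℝ) : ℂ)) u := by
    refine KK_ext fun m => ?_
    obtain ⟨k, hk⟩ : ∃ k : ℤ, m = k + 1 := ⟨m - 1, by ring⟩
    have hz : ang (fun _ => 0) k = 0 := by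
      unfold ang
      split_ifs
      · exact neg_zero
      · rfl
    rw [lp.coeFn_sub, lp.coeFn_add, Pi.sub_apply, Pi.add_apply, wo_apply _ _ ⟨a, ha0, h1⟩,
      wo_apply _ _ ⟨a, ha0, h2⟩, hk, UU_apply, UU_apply, hz, Real.cos_zero, Real.sin_zero]
    simp only [Equiv.subRight_apply, Equiv.neg_apply, add_sub_cancel_right]
    have hs : sgm k = -(k + 1) := by unfold sgm; ring
    rw [hs]
    push_cast
    ring
  rw [e0]
  refine (norm_add_le _ _).trans ?_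
  have h3 := (wo (Equiv.subRight 1)
    (fun m : ℤ => ((Real.cos (ang θ (m - 1)) - 1 : ℝ) : ℂ))).le_of_opNorm_le
      (wo_norm _ _ a ha0 h1) u
  have h4 := (wo (Equiv.neg ℤ)
    (fun m : ℤ => ((Real.sin (ang θ (m - 1)) : ℝ) : ℂ))).le_of_opNorm_le
      (wo_norm _ _ a ha0 h2) u
  linarith

private theorem rsm_norm (θ : ℕ → ℝ) (v : KK) : ‖UI θ v‖ = ‖v‖ :=
  LinearIsometryEquiv.norm_map (UU θ).symm v

private theorem rsm_inv (θ : ℕ → ℝ) (a : ℝ) (ha : ∀ m, |θ m| ≤ a) (v : KK) :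
    ‖UI θ v - UI (fun _ => 0) v‖ ≤ 2 * a * ‖v‖ := by
  have h1 := rsm_diff θ a ha (UI θ v)
  have h2 : UU θ (UI θ v) = v := (UU θ).apply_symm_apply v
  have h3 : UU (fun _ => 0) (UI (fun _ => 0) v) = v := (UU (fun _ => 0)).apply_symm_apply v
  rw [h2, rsm_norm] at h1
  have h4 : ‖UI θ v - UI (fun _ => 0) v‖ = ‖UU (fun _ => 0) (UI θ v) - v‖ := by
    conv_rhs => rw [← h3, ← map_sub, LinearIsometryEquiv.norm_map]
    rw [h3]
  rw [h4, norm_sub_rev]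
  exact h1

private theorem rsm_pow_norm (θ : ℕ → ℝ) (n : ℕ) (v : KK) : ‖(UI θ ^ n) v‖ = ‖v‖ := by
  induction n with
  | zero => rfl
  | succ n ih =>
    rw [pow_succ']
    show ‖UI θ ((UI θ ^ n) v)‖ = ‖v‖
    rw [rsm_norm, ih]

private theorem rsm_pow (θ : ℕ → ℝ) (a : ℝ) (ha : ∀ m, |θ m| ≤ a) (n : ℕ) (v : KK) :
    ‖(UI θ ^ n) v - (UI (fun _ => 0) ^ n) v‖ ≤ n * (2 * a) * ‖v‖ := by
  induction n with
  | zero => simp
  | succ n ih =>
    rw [pow_succ', pow_succ']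
    show ‖UI θ ((UI θ ^ n) v) - UI (fun _ => 0) ((UI (fun _ => 0) ^ n) v)‖ ≤ _
    have h1 : UI θ ((UI θ ^ n) v) - UI (fun _ => 0) ((UI (fun _ => 0) ^ n) v) =
        (UI θ ((UI θ ^ n) v) - UI (fun _ => 0) ((UI θ ^ n) v)) +
        UI (fun _ => 0) ((UI θ ^ n) v - (UI (fun _ => 0) ^ n) v) := by
      rw [map_sub]
      abel
    rw [h1]
    refine (norm_add_le _ _).trans ?_
    have h2 := rsm_inv θ a ha ((UI θ ^ n) v)
    rw [rsm_pow_norm] at h2
    rw [rsm_norm, Nat.cast_add, Nat.cast_one]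
    linarith

private theorem rsm_free (n : ℕ) (v : KK) (m : ℤ) :
    ((UI (fun _ => 0) ^ n) v : ℤ → ℂ) m = (v : ℤ → ℂ) (m + n) := by
  have h0 : ∀ (x : KK) (k : ℤ), (UI (fun _ => 0) x : ℤ → ℂ) k = (x : ℤ → ℂ) (k + 1) := by
    intro x k
    have h1 : UU (fun _ => 0) (UI (fun _ => 0) x) = x := (UU (fun _ => 0)).apply_symm_apply x
    have hz : ang (fun _ => 0) k = 0 := by
      unfold ang
      split_ifs
      · exact neg_zero
      · rfl
    have h2 := UU_apply (fun _ => 0) (UI (fun _ => 0) x) k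
    rw [h1, hz, Real.cos_zero, Real.sin_zero, Complex.ofReal_one, Complex.ofReal_zero, one_mul,
      zero_mul, add_zero] at h2
    exact h2.symm
  induction n generalizing m with
  | zero =>
    rw [pow_zero, Nat.cast_zero, add_zero]
    rfl
  | succ n ih =>
    rw [pow_succ']
    show (UI (fun _ => 0) ((UI (fun _ => 0) ^ n) v) : ℤ → ℂ) m = _
    have h1 : m + 1 + (n : ℤ) = m + ((n + 1 : ℕ) : ℤ) := by
      push_cast
      ring
    rw [h0, ih, h1]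

theorem rr_small (r κ : ℝ) (L h0 I : ℕ) (γ : ℕ → ℝ) (h : ℕ → ℕ) (w : ℤ → ℝ)
    (St : Stair r κ L h0 I γ h w) (θ : ℕ → ℝ) (a : ℝ) (ha : ∀ m, |θ m| ≤ a) (n : ℕ) (hn : n ≤ L) :
    ‖RR w θ ^ n‖ ≤ r + κ * n * (2 * a) := by
  have ha0 : 0 ≤ a := (abs_nonneg _).trans (ha 0)
  have hw0 : ∀ m, 0 < w m := fun m => lt_of_lt_of_le one_pos (St.one_le m)
  have hr0 : 0 ≤ r := by
    have h1 := St.slow 0 0 (Nat.zero_le _)
    have h2 : w (0 - (0 : ℕ)) = w 0 := by norm_num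
    rw [h2] at h1
    have h3 := hw0 0
    by_contra h4
    nlinarith
  have hκ0 : 0 ≤ κ := le_trans (le_trans zero_le_one (St.one_le 0)) (St.le 0)
  obtain ⟨-, -, hD, hE⟩ := de_one κ w St.one_le St.le
  have hM : 0 ≤ r + κ * n * (2 * a) := by positivity
  refine ContinuousLinearMap.opNorm_le_bound _ hM fun x => ?_
  rw [rr_pow κ w St.one_le St.le θ n]
  obtain ⟨y, hy⟩ : ∃ y, y = DD (fun m => (w m)⁻¹) x := ⟨_, rfl⟩
  show ‖DD w ((UI θ ^ n) (DD (fun m => (w m)⁻¹) x))‖ ≤ _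
  rw [← hy]
  have hyn : ‖y‖ ≤ ‖x‖ := by
    rw [hy]
    have := (DD (fun m => (w m)⁻¹)).le_of_opNorm_le hE x
    rwa [one_mul] at this
  have e1 : DD w ((UI θ ^ n) y) = DD w ((UI (fun _ => 0) ^ n) y) +
      DD w ((UI θ ^ n) y - (UI (fun _ => 0) ^ n) y) := by
    rw [← map_add]
    congr 1
    abel
  rw [e1]
  refine (norm_add_le _ _).trans ?_
  have h2 : ‖DD w ((UI θ ^ n) y - (UI (fun _ => 0) ^ n) y)‖ ≤ κ * (n * (2 * a) * ‖x‖) := by
    refine ((DD w).le_of_opNorm_le hD _).trans ?_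
    refine mul_le_mul_of_nonneg_left ?_ hκ0
    refine (rsm_pow θ a ha n y).trans ?_
    exact mul_le_mul_of_nonneg_left hyn (by positivity)
  have h3 : ‖DD w ((UI (fun _ => 0) ^ n) y)‖ ≤ r * ‖x‖ := by
    have hb : ∀ m : ℤ, ‖((w m * (w (m + n))⁻¹ : ℝ) : ℂ)‖ ≤ r := by
      intro m
      rw [Complex.norm_real, Real.norm_eq_abs, abs_of_nonneg
        (mul_nonneg (hw0 m).le (inv_nonneg.2 (hw0 _).le)), ← div_eq_mul_inv,
        div_le_iff₀ (hw0 _)]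
      have h4 := St.slow (m + n) n hn
      rwa [add_sub_cancel_right] at h4
    have e2 : DD w ((UI (fun _ => 0) ^ n) y) = wo (Equiv.addRight (n : ℤ))
        (fun m : ℤ => ((w m * (w (m + n))⁻¹ : ℝ) : ℂ)) x := by
      refine KK_ext fun m => ?_
      have hbw : ∀ m, |w m| ≤ κ := fun m => by
        rw [abs_of_pos (hw0 m)]; exact St.le m
      have hbw' : ∀ m, |(w m)⁻¹| ≤ 1 := fun m => by
        rw [abs_of_pos (inv_pos.2 (hw0 m))]
        exact inv_le_one_of_one_le₀ (St.one_le m)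
      rw [DD_apply w κ hbw, rsm_free, hy, DD_apply _ 1 hbw', wo_apply _ _ ⟨r, hr0, hb⟩]
      simp only [Equiv.coe_addRight]
      push_cast
      ring
    rw [e2]
    exact (wo (Equiv.addRight (n : ℤ)) _).le_of_opNorm_le (wo_norm _ _ r hr0 hb) x
  calc ‖DD w ((UI (fun _ => 0) ^ n) y)‖ + ‖DD w ((UI θ ^ n) y - (UI (fun _ => 0) ^ n) y)‖
      ≤ r * ‖x‖ + κ * (n * (2 * a) * ‖x‖) := add_le_add h3 h2
    _ = (r + κ * n * (2 * a)) * ‖x‖ := by ring

end Pool.Agent.Work.MP_ebd05c_an.SG
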