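import Pool.Agent.Work.MP_ebd05c_an.SG.RL
import Pool.Agent.Work.MP_ebd05c_an.SG.BBl
import Pool.Agent.Work.MP_ebd05c_an.SG.Maj

set_option autoImplicit false

open scoped BigOperators ENNReal NNReal Topology ComplexConjugate InnerProductSpace
open Finset Filter MeasureTheory

/-!
s = sin α in (0, 1/20], all |sin (θ m)| <= 1/20 (Small: 0 <= sin (θ m) <= θ m). Let θ' = update θ x α,
x > X. QM θ' (x+1) z = QM θ (X+1) z * TM s (BB θ x z): for m <= X the angles agree (BB_congr), for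
X < m < x the factor is TM 0 = 1 (Sup, tm_zero), and the last factor has BB θ' x z = BB θ x z =
z^(2(x-X-1)) * β(z), β = BB θ (X+1) (BB_far). With F(t) = QM θ (X+1) (fourier 1 t) > 0 continuous
(QM_cont, tm_pos), β unimodular continuous, k = 2(x-X-1), z^k = fourier k t: by tm_expand
∫ QM θ' (x+1) = τ0 ∫ F + τ1 Re ∫ fourier k * β F + τ2 Re ∫ fourier (2k) * β^2 F, and the last two
tend to 0 as x -> infinity (rl for the continuous functions β F, β^2 F), while
τ0 ∫ F <= (1 - s^2/10) ∫ F (tm_mean) and ∫ F > 0 (continuous, positive; compactness or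
integral_pos). So for large x the sum is <= (1 - s^2/20) ∫ F.
-/

set_option autoImplicit false

open scoped BigOperators ENNReal NNReal Topology ComplexConjugate InnerProductSpace
open Finset Filter MeasureTheory

namespace Pool.Agent.Work.MP_ebd05c_an.SG

open Pool.Agent.Work.MP_ebd05c_an.H

private theorem ie_fourier_pow (k : ℕ) (t : UnitAddCircle) :
    (fourier 1 t : ℂ) ^ k = fourier (k : ℤ) t := by
  induction k with
  | zero => rw [pow_zero, Nat.cast_zero, fourier_zero]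
  | succ n ih => rw [pow_succ, ih, Nat.cast_succ, fourier_add]

private theorem ie_sin (θ : ℕ → ℝ) (hS : Small θ) (m : ℕ) :
    0 ≤ Real.sin (θ m) ∧ Real.sin (θ m) ≤ 1 / 20 := by
  obtain ⟨h1, h2⟩ := hS m
  constructor
  · apply Real.sin_nonneg_of_nonneg_of_le_pi h1
    have := Real.pi_gt_three
    linarith
  · exact (Real.sin_le h1).trans h2

private theorem ie_qm_pos (θ : ℕ → ℝ) (hS : Small θ) (M : ℕ) (t : UnitAddCircle)
    (hs : ∀ m, |Real.sin (θ m)| < 1) : 0 < QM θ M (fourier 1 t) := by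
  unfold QM
  apply Finset.prod_pos
  intro m _
  obtain ⟨h1, h2⟩ := ie_sin θ hS m
  exact tm_pos _ h1 h2 _ (BB_norm θ hs _ (norm_fourier 1 t) m)

private theorem ie_qm_far (θ : ℕ → ℝ) (X : ℕ) (hθ : Sup θ X) (j : ℕ) (z : ℂ) :
    QM θ (X + 1 + j) z = QM θ (X + 1) z := by
  induction j with
  | zero => rfl
  | succ j ih =>
    have h : QM θ (X + 1 + (j + 1)) z = QM θ (X + 1 + j) z *
        TM (Real.sin (θ (X + 1 + j))) (BB θ (X + 1 + j) z) := by
      unfold QM
      rw [← add_assoc, Finset.prod_range_succ]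
    rw [h, hθ (X + 1 + j) (by omega), Real.sin_zero, tm_zero, mul_one, ih]

private theorem ie_key (θ : ℕ → ℝ) (X : ℕ) (hθ : Sup θ X) (α : ℝ) (x : ℕ) (hx : X < x) (z : ℂ) :
    QM (Function.update θ x α) (x + 1) z = QM θ (X + 1) z *
      TM (Real.sin α) (z ^ (2 * (x - X - 1)) * BB θ (X + 1) z) := by
  have hc : ∀ i < x, Function.update θ x α i = θ i := by
    intro i hi
    exact Function.update_of_ne (by omega) _ _
  have h : QM (Function.update θ x α) (x + 1) z = QM (Function.update θ x α) x z *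
      TM (Real.sin (Function.update θ x α x)) (BB (Function.update θ x α) x z) := by
    unfold QM
    rw [Finset.prod_range_succ]
  rw [h, Function.update_self, QM_congr _ θ x hc, BB_congr _ θ x hc,
    BB_far θ X x hx (fun i hi _ => hθ i hi)]
  congr 1
  obtain ⟨j, rfl⟩ : ∃ j, x = X + 1 + j := ⟨x - (X + 1), by omega⟩
  exact ie_qm_far θ X hθ j z

theorem int_ext (θ : ℕ → ℝ) (X : ℕ) (hθ : Sup θ X) (hS : Small θ) (α : ℝ) (h0 : 0 < α)
    (h1 : α ≤ 1 / 20) : ∃ x0 : ℕ, ∀ x ≥ x0, X < x ∧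
      ∫ t, QM (Function.update θ x α) (x + 1) (fourier 1 t) ∂mm ≤
        (1 - Real.sin α ^ 2 / 20) * ∫ t, QM θ (X + 1) (fourier 1 t) ∂mm := by
  have hs : ∀ m, |Real.sin (θ m)| < 1 := by
    intro m
    obtain ⟨h2, h3⟩ := ie_sin θ hS m
    rw [abs_of_nonneg h2]
    linarith
  set s := Real.sin α with hsdef
  have hpi := Real.pi_gt_three
  have hs0 : 0 < s := Real.sin_pos_of_pos_of_lt_pi h0 (by linarith)
  have hs1 : s ≤ 1 / 20 := (Real.sin_le h0.le).trans h1
  set F : UnitAddCircle → ℝ := fun t => QM θ (X + 1) (fourier 1 t) with hF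
  set β : UnitAddCircle → ℂ := fun t => BB θ (X + 1) (fourier 1 t) with hβ
  have hFc : Continuous F := QM_cont θ hs (X + 1)
  have hβc : Continuous β := BB_cont θ hs (X + 1)
  have hβn : ∀ t, ‖β t‖ = 1 := fun t => BB_norm θ hs _ (norm_fourier 1 t) (X + 1)
  have hFpos : ∀ t, 0 < F t := fun t => ie_qm_pos θ hS (X + 1) t hs
  have hint : ∀ g : UnitAddCircle → ℝ, Continuous g → Integrable g mm := fun g hg =>
    hg.integrable_of_hasCompactSupport (HasCompactSupport.of_compactSpace g)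
  have hintC : ∀ g : UnitAddCircle → ℂ, Continuous g → Integrable g mm := fun g hg =>
    hg.integrable_of_hasCompactSupport (HasCompactSupport.of_compactSpace g)
  have hIpos : 0 < ∫ t, F t ∂mm := by
    rw [integral_pos_iff_support_of_nonneg (fun t => (hFpos t).le) (hint F hFc)]
    have : Function.support F = Set.univ := by
      ext t
      simp only [Function.mem_support, Set.mem_univ, iff_true]
      exact (hFpos t).ne'
    rw [this]
    simp
  -- the two oscillating integrals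
  let g1 : C(UnitAddCircle, ℂ) := ⟨fun t => β t * (F t : ℂ),
    hβc.mul (Complex.continuous_ofReal.comp hFc)⟩
  let g2 : C(UnitAddCircle, ℂ) := ⟨fun t => β t ^ 2 * (F t : ℂ),
    (hβc.pow 2).mul (Complex.continuous_ofReal.comp hFc)⟩
  set τ0 : ℝ := 1 - s ^ 2 / (1 - s ^ 2) + 7 / 4 * s ^ 2 * (s ^ 2 + 1 / 2) / (1 - s ^ 2) ^ 2
    with hτ0
  set τ1 : ℝ := s / (1 - s ^ 2) - 7 / 2 * s ^ 3 / (1 - s ^ 2) ^ 2 with hτ1
  set τ2 : ℝ := 7 / 8 * s ^ 2 / (1 - s ^ 2) ^ 2 with hτ2
  have hτ0le : τ0 ≤ 1 - s ^ 2 / 10 := tm_mean s hs0.le hs1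
  have hI : ∀ x : ℕ, X < x → ∫ t, QM (Function.update θ x α) (x + 1) (fourier 1 t) ∂mm =
      τ0 * (∫ t, F t ∂mm) +
        τ1 * (∫ t, (fourier ((2 * (x - X - 1) : ℕ) : ℤ) t : ℂ) * g1 t ∂mm).re +
        τ2 * (∫ t, (fourier ((2 * (2 * (x - X - 1)) : ℕ) : ℤ) t : ℂ) * g2 t ∂mm).re := by
    intro x hx
    set k : ℕ := 2 * (x - X - 1) with hk
    have hpt : ∀ t : UnitAddCircle, QM (Function.update θ x α) (x + 1) (fourier 1 t) =
        τ0 * F t + τ1 * ((fourier (k : ℤ) t : ℂ) * g1 t).re +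
          τ2 * ((fourier ((2 * k : ℕ) : ℤ) t : ℂ) * g2 t).re := by
      intro t
      rw [ie_key θ X hθ α x hx]
      have hb : ‖(fourier 1 t : ℂ) ^ k * β t‖ = 1 := by
        rw [norm_mul, norm_pow, norm_fourier, hβn, one_pow, one_mul]
      have h2 := tm_expand s ((fourier 1 t : ℂ) ^ k * β t) hb
      rw [h2]
      have e1 : ((fourier (k : ℤ) t : ℂ) * g1 t).re = F t * ((fourier 1 t : ℂ) ^ k * β t).re := by
        rw [ie_fourier_pow]
        show ((fourier (k : ℤ) t : ℂ) * (β t * (F t : ℂ))).re = _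
        rw [← mul_assoc, Complex.re_mul_ofReal, mul_comm]
      have e2 : ((fourier ((2 * k : ℕ) : ℤ) t : ℂ) * g2 t).re =
          F t * (((fourier 1 t : ℂ) ^ k * β t) ^ 2).re := by
        rw [mul_pow, ← pow_mul, mul_comm k 2, ie_fourier_pow]
        show ((fourier ((2 * k : ℕ) : ℤ) t : ℂ) * (β t ^ 2 * (F t : ℂ))).re = _
        rw [← mul_assoc, Complex.re_mul_ofReal, mul_comm]
      rw [e1, e2]
      show F t * (τ0 + τ1 * ((fourier 1 t : ℂ) ^ k * β t).re +
        τ2 * (((fourier 1 t : ℂ) ^ k * β t) ^ 2).re) = _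
      ring
    have hc1 : Continuous fun t : UnitAddCircle => (fourier (k : ℤ) t : ℂ) * g1 t :=
      (fourier (k : ℤ)).continuous.mul g1.continuous
    have hc2 : Continuous fun t : UnitAddCircle => (fourier ((2 * k : ℕ) : ℤ) t : ℂ) * g2 t :=
      (fourier ((2 * k : ℕ) : ℤ)).continuous.mul g2.continuous
    have hr1 : ∫ t, ((fourier (k : ℤ) t : ℂ) * g1 t).re ∂mm =
        (∫ t, (fourier (k : ℤ) t : ℂ) * g1 t ∂mm).re :=
      Complex.reCLM.integral_comp_comm (hintC _ hc1)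
    have hr2 : ∫ t, ((fourier ((2 * k : ℕ) : ℤ) t : ℂ) * g2 t).re ∂mm =
        (∫ t, (fourier ((2 * k : ℕ) : ℤ) t : ℂ) * g2 t ∂mm).re :=
      Complex.reCLM.integral_comp_comm (hintC _ hc2)
    rw [integral_congr_ae (Filter.Eventually.of_forall hpt)]
    have i0 : Integrable (fun t => τ0 * F t) mm := (hint F hFc).const_mul τ0
    have i1 : Integrable (fun t => τ1 * ((fourier (k : ℤ) t : ℂ) * g1 t).re) mm :=
      (hint _ (Complex.continuous_re.comp hc1)).const_mul τ1
    have i2 : Integrable (fun t => τ2 * ((fourier ((2 * k : ℕ) : ℤ) t : ℂ) * g2 t).re) mm :=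
      (hint _ (Complex.continuous_re.comp hc2)).const_mul τ2
    have i01 : Integrable (fun t => τ0 * F t + τ1 * ((fourier (k : ℤ) t : ℂ) * g1 t).re) mm :=
      i0.add i1
    rw [integral_add i01 i2, integral_add i0 i1, integral_const_mul, integral_const_mul,
      integral_const_mul, hr1, hr2]
  -- they tend to zero
  have hk : Tendsto (fun x : ℕ => 2 * (x - X - 1)) atTop atTop := by
    apply tendsto_atTop_mono' atTop (f₁ := fun x : ℕ => x - (X + 1))
    · exact Filter.Eventually.of_forall (fun x => by show x - (X + 1) ≤ 2 * (x - X - 1); omega)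
    · exact tendsto_sub_atTop_nat (X + 1)
  have hk2 : Tendsto (fun x : ℕ => 2 * (2 * (x - X - 1))) atTop atTop := by
    apply tendsto_atTop_mono' atTop (f₁ := fun x : ℕ => 2 * (x - X - 1))
    · exact Filter.Eventually.of_forall
        (fun x => by show 2 * (x - X - 1) ≤ 2 * (2 * (x - X - 1)); omega)
    · exact hk
  have ht1 : Tendsto (fun x : ℕ =>
      (∫ t, (fourier ((2 * (x - X - 1) : ℕ) : ℤ) t : ℂ) * g1 t ∂mm).re) atTop (𝓝 0) := by
    have := (Complex.continuous_re.tendsto (0 : ℂ)).comp ((rl g1).comp hk)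
    rwa [Complex.zero_re] at this
  have ht2 : Tendsto (fun x : ℕ =>
      (∫ t, (fourier ((2 * (2 * (x - X - 1)) : ℕ) : ℤ) t : ℂ) * g2 t ∂mm).re) atTop (𝓝 0) := by
    have := (Complex.continuous_re.tendsto (0 : ℂ)).comp ((rl g2).comp hk2)
    rwa [Complex.zero_re] at this
  have ht : Tendsto (fun x : ℕ =>
      τ1 * (∫ t, (fourier ((2 * (x - X - 1) : ℕ) : ℤ) t : ℂ) * g1 t ∂mm).re +
        τ2 * (∫ t, (fourier ((2 * (2 * (x - X - 1)) : ℕ) : ℤ) t : ℂ) * g2 t ∂mm).re)
      atTop (𝓝 0) := by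
    have := (ht1.const_mul τ1).add (ht2.const_mul τ2)
    simpa using this
  have hsmall : 0 < s ^ 2 / 20 * ∫ t, F t ∂mm := by positivity
  obtain ⟨N, hN⟩ := Filter.eventually_atTop.1 (ht.eventually (gt_mem_nhds hsmall))
  refine ⟨max N (X + 1), fun x hx => ?_⟩
  have hxX : X < x := by
    have := le_trans (le_max_right N (X + 1)) hx
    omega
  refine ⟨hxX, ?_⟩
  have hxN : N ≤ x := le_trans (le_max_left N (X + 1)) hx
  have h5 := hN x hxN
  rw [hI x hxX]
  have h6 : τ0 * ∫ t, F t ∂mm ≤ (1 - s ^ 2 / 10) * ∫ t, F t ∂mm :=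
    mul_le_mul_of_nonneg_right hτ0le hIpos.le
  have h7 : (1 - s ^ 2 / 20) * ∫ t, F t ∂mm =
      (1 - s ^ 2 / 10) * (∫ t, F t ∂mm) + s ^ 2 / 20 * ∫ t, F t ∂mm := by ring
  rw [h7]
  linarith

theorem qm_zero (M : ℕ) : ∫ t, QM (fun _ => 0) M (fourier 1 t) ∂mm = 1 := by
  have h : ∀ t : UnitAddCircle, QM (fun _ => 0) M (fourier 1 t) = 1 := by
    intro t
    unfold QM
    apply Finset.prod_eq_one
    intro m _
    rw [Real.sin_zero]
    exact tm_zero _
  rw [integral_congr_ae (Filter.Eventually.of_forall h)]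
  simp

end Pool.Agent.Work.MP_ebd05c_an.SG
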