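import Pool.Agent.Work.MP_ebd05c_an.SG.Supp

set_option autoImplicit false

open scoped BigOperators ENNReal NNReal Topology ComplexConjugate InnerProductSpace
open Finset Filter MeasureTheory

/-!
Fix h <= h0, n, u with u m = 0 for m < -h. For R natural let u_R = PP {m | -R-1 <= m <= R} u; it vanishes
below -h as well, |u_R| <= |u| (PP_norm), and u_R -> u as R -> infinity (|u - u_R|^2 is the tail of
the convergent series of |u m|^2; e.g. lp.hasSum_single, or tendsto from norm_sq_hasSum). Choose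
θ' with Good θ' h0 ε and θ' m = θ m for m < R + n. agree_gen: (UU θ')^n u_R = (UU θ)^n u_R, so
|PP (..) ((UU θ)^n u_R)| <= ε |u_R| <= ε |u|. Let R -> infinity (le_of_tendsto, continuity).
-/

namespace Pool.Agent.Work.MP_ebd05c_an.SG

open Pool.Agent.Work.MP_ebd05c_an.H

private theorem lim_PP (u : KK) (s : Finset ℤ) :
    PP (s : Set ℤ) u = ∑ k ∈ s, lp.single 2 k ((u : ℤ → ℂ) k) := by
  classical
  refine KK_ext fun m => ?_
  rw [PP_apply, lp.coeFn_sum, Finset.sum_apply]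
  simp only [lp.single_apply, Pi.single_apply]
  rw [Finset.sum_ite_eq s m]
  by_cases h : m ∈ s
  · rw [if_pos h, Set.indicator_of_mem (Finset.mem_coe.2 h)]
  · rw [if_neg h, Set.indicator_of_notMem (fun h' => h (Finset.mem_coe.1 h'))]

private theorem lim_tendsto (u : KK) :
    Tendsto (fun R : ℕ => PP ((Finset.Icc (-(R : ℤ) - 1) (R : ℤ) : Finset ℤ) : Set ℤ) u) atTop
      (𝓝 u) := by
  have h1 : Tendsto (fun R : ℕ => Finset.Icc (-(R : ℤ) - 1) (R : ℤ)) atTop atTop := by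
    refine tendsto_atTop_finset_of_monotone ?_ ?_
    · intro a b hab
      exact Finset.Icc_subset_Icc (by omega) (by omega)
    · intro m
      refine ⟨m.natAbs, ?_⟩
      rw [Finset.mem_Icc]
      omega
  have h2 := (lp.hasSum_single (p := 2) (by norm_num) u).comp h1
  refine h2.congr fun R => ?_
  exact (lim_PP u _).symm

theorem good_lim (θ : ℕ → ℝ) (h0 : ℕ) (ε : ℝ) (hε : 0 ≤ ε)
    (h : ∀ R : ℕ, ∃ θ' : ℕ → ℝ, Good θ' h0 ε ∧ ∀ m < R, θ' m = θ m) : Good θ h0 ε := by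
  intro k hk n u hu
  have hc : Continuous fun x : KK => ‖PP (Set.Iio (-(k : ℤ))) ((UU θ ^ n) x)‖ :=
    ((PP (Set.Iio (-(k : ℤ)))).continuous.comp (UU θ ^ n).continuous).norm
  refine le_of_tendsto ((hc.tendsto u).comp (lim_tendsto u)) (Eventually.of_forall fun R => ?_)
  show ‖PP (Set.Iio (-(k : ℤ))) ((UU θ ^ n)
    (PP ((Finset.Icc (-(R : ℤ) - 1) (R : ℤ) : Finset ℤ) : Set ℤ) u))‖ ≤ ε * ‖u‖
  set v := PP ((Finset.Icc (-(R : ℤ) - 1) (R : ℤ) : Finset ℤ) : Set ℤ) u with hv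
  obtain ⟨θ', hg, hag⟩ := h (R + n)
  have hvout : ∀ m : ℤ, m < -(R : ℤ) - 1 ∨ (R : ℤ) < m → (v : ℤ → ℂ) m = 0 := by
    intro m hm
    rw [hv, PP_apply, Set.indicator_of_notMem]
    rw [Finset.mem_coe, Finset.mem_Icc]
    omega
  have hvlow : ∀ m : ℤ, m < -(k : ℤ) → (v : ℤ → ℂ) m = 0 := by
    intro m hm
    rw [hv, PP_apply, Set.indicator_apply, hu m hm]
    split_ifs <;> rfl
  have h1 := agree_gen θ θ' R n hag v hvout
  have h2 := hg k hk n v hvlow
  rw [h1] at h2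
  have h3 : ‖v‖ ≤ ‖u‖ := by
    calc ‖v‖ ≤ ‖PP ((Finset.Icc (-(R : ℤ) - 1) (R : ℤ) : Finset ℤ) : Set ℤ)‖ * ‖u‖ :=
          ContinuousLinearMap.le_opNorm _ _
      _ ≤ 1 * ‖u‖ := mul_le_mul_of_nonneg_right (PP_norm _) (norm_nonneg u)
      _ = ‖u‖ := one_mul _
  exact h2.trans (mul_le_mul_of_nonneg_left h3 hε)

end Pool.Agent.Work.MP_ebd05c_an.SG
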