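import Pool.Agent.Work.MP_ebd05c_an.SG.Ext
import Pool.Agent.Work.MP_ebd05c_an.SG.IntExt
import Pool.Agent.Work.MP_ebd05c_an.SG.Thj
import Pool.Agent.Work.MP_ebd05c_an.SG.Lim

set_option autoImplicit false

open scoped BigOperators ENNReal NNReal Topology ComplexConjugate InnerProductSpace
open Finset Filter MeasureTheory

/-!
Inv(J, θ, X) := Sup θ X, h0 <= X, Small θ, Good θ h0 ε, ∫ QM θ (X+1) <= Π_(j<J) (1 - sin(α j)^2/20).
Inv(0, 0, h0) by good_zero and qm_zero. Step: from Inv(J, θ, X) take x >= the two thresholds of good_ext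
and int_ext (cos (θ m) > 0 as 0 <= θ m <= 1/20; 0 < sin (α J) < 1): Inv(J+1, update θ x (α J), x) and x > X
(the factor 1 - sin^2/20 is >= 0). Recursive choice (exists_seq / Nat.rec on a subtype of pairs)
gives states (θ_J, X_J), X_0 = h0, x J := X_(J+1); x is strictly increasing, h0 < x 0, and
θ_J = thJ x α J by thJ_succ. good: Good (thA x α) by good_lim: for R take J with x J >= R (j <= x j),
θ' = thJ x α J, thA_eq.
-/

namespace Pool.Agent.Work.MP_ebd05c_an.SG

open Pool.Agent.Work.MP_ebd05c_an.H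

/-- the invariant of the construction -/
private def Inv (h0 : ℕ) (ε : ℝ) (α : ℕ → ℝ) (J : ℕ) (p : (ℕ → ℝ) × ℕ) : Prop :=
  Sup p.1 p.2 ∧ h0 ≤ p.2 ∧ Small p.1 ∧ Good p.1 h0 ε ∧
    ∫ t, QM p.1 (p.2 + 1) (fourier 1 t) ∂mm ≤ ∏ j ∈ range J, (1 - Real.sin (α j) ^ 2 / 20)

theorem exists_seq (h0 : ℕ) (ε : ℝ) (hε : 0 < ε) (α : ℕ → ℝ) (hα : ∀ j, 0 < α j ∧ α j ≤ 1 / 20)
    (hαε : ∀ j, Real.sin (α j) *
      ((Real.cos (α j) + Real.sin (α j)) / (1 - Real.sin (α j))) < ε) :
    ∃ x : ℕ → ℕ, StrictMono x ∧ h0 < x 0 ∧ Good (thA x α) h0 ε ∧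
      ∀ J : ℕ, ∫ t, QM (thJ x α (J + 1)) (x J + 1) (fourier 1 t) ∂mm ≤
        ∏ j ∈ range (J + 1), (1 - Real.sin (α j) ^ 2 / 20) := by
  have step : ∀ (J : ℕ) (p : (ℕ → ℝ) × ℕ), Inv h0 ε α J p → ∃ x, p.2 < x ∧
      Inv h0 ε α (J + 1) (Function.update p.1 x (α J), x) := by
    rintro J ⟨θ, X⟩ ⟨h1, h2, h3, h4, h5⟩
    obtain ⟨hα1, hα2⟩ := hα J
    have hpi := Real.pi_gt_three
    have hs : 0 ≤ Real.sin (α J) :=
      Real.sin_nonneg_of_nonneg_of_le_pi hα1.le (by linarith)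
    have hs1 : Real.sin (α J) < 1 := by
      have := Real.sin_lt hα1
      linarith
    have hc' : 0 ≤ Real.cos (α J) :=
      (Real.cos_pos_of_mem_Ioo ⟨by linarith, by linarith⟩).le
    have hc : ∀ m, 0 < Real.cos (θ m) := fun m =>
      Real.cos_pos_of_mem_Ioo ⟨by linarith [(h3 m).1], by linarith [(h3 m).2]⟩
    obtain ⟨x0, hx0⟩ := good_ext θ X h0 ε h1 h2 hc h4 (α J) hs hs1 hc' (hαε J)
    obtain ⟨x1, hx1⟩ := int_ext θ X h1 h3 (α J) hα1 hα2
    obtain ⟨hX, hgood⟩ := hx0 (max x0 x1) (le_max_left _ _)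
    obtain ⟨-, hint⟩ := hx1 (max x0 x1) (le_max_right _ _)
    refine ⟨max x0 x1, hX, ?_, ?_, ?_, hgood, ?_⟩
    · intro m hm
      show Function.update θ (max x0 x1) (α J) m = 0
      rw [Function.update_of_ne (ne_of_gt hm)]
      exact h1 m (lt_trans hX hm)
    · exact h2.trans hX.le
    · intro m
      show 0 ≤ Function.update θ (max x0 x1) (α J) m ∧
        Function.update θ (max x0 x1) (α J) m ≤ 1 / 20
      by_cases hm : m = max x0 x1
      · rw [hm, Function.update_self]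
        exact ⟨hα1.le, hα2⟩
      · rw [Function.update_of_ne hm]
        exact h3 m
    · refine hint.trans ?_
      rw [prod_range_succ, mul_comm]
      have h6 : 0 ≤ 1 - Real.sin (α J) ^ 2 / 20 := by nlinarith
      exact mul_le_mul_of_nonneg_right h5 h6
  choose! g hg using step
  let st : ℕ → (ℕ → ℝ) × ℕ := fun J => Nat.rec ((fun _ => 0), h0)
    (fun J p => (Function.update p.1 (g J p) (α J), g J p)) J
  have hst : ∀ J, st (J + 1) = (Function.update (st J).1 (g J (st J)) (α J), g J (st J)) :=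
    fun J => rfl
  have hinv : ∀ J, Inv h0 ε α J (st J) := by
    intro J
    induction J with
    | zero =>
      refine ⟨fun m _ => rfl, le_rfl, fun m => ⟨le_rfl, by
        show (0 : ℝ) ≤ 1 / 20
        norm_num⟩, good_zero h0 ε hε.le, ?_⟩
      rw [range_zero, prod_empty]
      exact (qm_zero _).le
    | succ J ih => exact (hg J (st J) ih).2
  have hx : StrictMono fun J => g J (st J) := by
    apply strictMono_nat_of_lt_succ
    intro J
    exact (hg (J + 1) (st (J + 1)) (hinv (J + 1))).1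
  have hth : ∀ J, (st J).1 = thJ (fun J => g J (st J)) α J := by
    intro J
    induction J with
    | zero =>
      funext m
      show (0 : ℝ) = ∑ j ∈ range 0, _
      rw [range_zero, sum_empty]
    | succ J ih =>
      rw [thJ_succ _ _ hx, ← ih]
  refine ⟨fun J => g J (st J), hx, (hg 0 (st 0) (hinv 0)).1, ?_, ?_⟩
  · apply good_lim _ h0 ε hε.le
    intro R
    refine ⟨thJ (fun J => g J (st J)) α R, ?_, ?_⟩
    · rw [← hth R]
      exact (hinv R).2.2.2.1
    · intro m hm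
      exact (thA_eq _ α hx R m (lt_of_lt_of_le hm (hx.le_apply))).symm
  · intro J
    rw [← hth (J + 1)]
    exact (hinv (J + 1)).2.2.2.2

end Pool.Agent.Work.MP_ebd05c_an.SG
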