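import Pool.Agent.Work.MP_ebd05c_an.SG.StairEx
import Pool.Agent.Work.MP_ebd05c_an.SG.RSmall
import Pool.Agent.Work.MP_ebd05c_an.SG.KComp
import Pool.Agent.Work.MP_ebd05c_an.SG.LowV
import Pool.Agent.Work.MP_ebd05c_an.SG.NoSm
import Pool.Agent.Work.MP_ebd05c_an.SG.SeqEx

set_option autoImplicit false

open scoped BigOperators ENNReal NNReal Topology ComplexConjugate InnerProductSpace
open Finset Filter MeasureTheory

/-!
r = 1 + δ/4, κ = r^I >= 1, L = n0 + 1, Stair from exists_stair. ε = δ/(2κ): κ^2 (1 + 1/δ) ε^2 =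
(δ^2 + δ)/4 <= δ. α j = α0 / sqrt (j+1) with α0 = min (1/20) (min (ε/2) (δ/(8 κ (n0+1)))) > 0.
For 0 < a <= 1/20: sin a <= a, (cos a + sin a)/(1 - sin a) <= (1 + 1/20)/(1 - 1/20) < 2, so
sin a * (..) < 2 a <= ε (strict). x from exists_seq, θ = thA x α.
sum sin(α j)^2 diverges: sin a >= a/2 for 0 <= a <= 1 (Real.mul_le_sin or sin_gt_sub_cube), so
sin(α j)^2 >= α0^2/(4 (j+1)) and the harmonic series diverges (Real.tendsto_sum_range_one_div_nat_succ_atTop).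
T = TT w θ, R = RR w θ, W = UO θ, K = T - W, D = DD w, E = DD w⁻¹: TR, RT: tt_rr; W: uo_ui; ns: no_smooth;
cpt, Kn: k_comp with a = α0 (thA_le, thA_tendsto): (1 - 1/r) + κ α0 <= δ/4 + δ/8;
Tn: tt_norm; Rn: rr_norm; Rs: rr_small: r + κ n (2 α0) <= 1 + δ/4 + δ/4; DE, ED, Dn, En: de_one;
int: E T = W E (TT = D (W E), E D = 1); low: n = x 0, v = ee (-(x 0)): low_vec (thA_low):
κ * |T^n v| = κ κ⁻¹ = 1 = |v|.
-/

namespace Pool.Agent.Work.MP_ebd05c_an.SG

open Pool.Agent.Work.MP_ebd05c_an.H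

/-- the properties of a block -/
structure BlockData (δ κ : ℝ) (n0 : ℕ) (T R W K D E : KK →L[ℂ] KK) : Prop where
  TR : T * R = 1
  RT : R * T = 1
  Wu : W ∈ unitary (KK →L[ℂ] KK)
  ns : ∀ y, Smooth W y → y = 0
  eq : T = W + K
  cpt : IsCompactOperator K
  Kn : ‖K‖ ≤ δ
  Tn : ∀ n : ℕ, ‖T ^ n‖ ≤ 1 + δ
  Rn : ∀ n : ℕ, ‖R ^ n‖ ≤ κ
  Rs : ∀ n : ℕ, n ≤ n0 → ‖R ^ n‖ ≤ 1 + δ
  DE : D * E = 1
  ED : E * D = 1
  Dn : ‖D‖ ≤ κ
  En : ‖E‖ ≤ 1
  int : E * T = W * E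
  low : ∃ (n : ℕ) (v : KK), v ≠ 0 ∧ κ * ‖(T ^ n) v‖ ≤ ‖v‖

private theorem blk_sin_le {a : ℝ} (h0 : 0 < a) (h1 : a ≤ 1 / 20) :
    0 < Real.sin a ∧ Real.sin a ≤ a ∧ a / 2 ≤ Real.sin a ∧
      Real.sin a * ((Real.cos a + Real.sin a) / (1 - Real.sin a)) < 2 * a := by
  have hpi := Real.pi_gt_three
  have hpi4 := Real.pi_le_four
  have s0 : 0 < Real.sin a := Real.sin_pos_of_pos_of_lt_pi h0 (by linarith)
  have s1 : Real.sin a ≤ a := Real.sin_le h0.le
  have s2 : 2 / Real.pi * a ≤ Real.sin a := Real.mul_le_sin h0.le (by linarith)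
  have s3 : a / 2 ≤ Real.sin a := by
    have h2 : 1 / 2 ≤ 2 / Real.pi := by
      rw [div_le_div_iff₀ (by norm_num) (by linarith)]
      linarith
    have h3 := mul_le_mul_of_nonneg_right h2 h0.le
    linarith
  refine ⟨s0, s1, s3, ?_⟩
  have c1 := Real.cos_le_one a
  have h2 : (Real.cos a + Real.sin a) / (1 - Real.sin a) ≤ 21 / 19 := by
    rw [div_le_div_iff₀ (by linarith) (by norm_num)]
    linarith
  calc Real.sin a * ((Real.cos a + Real.sin a) / (1 - Real.sin a)) ≤ Real.sin a * (21 / 19) :=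
        mul_le_mul_of_nonneg_left h2 s0.le
    _ < 2 * a := by linarith

private theorem blk_div {a : ℝ} (ha : 0 < a) (ha1 : a ≤ 1 / 20) :
    Tendsto (fun J => ∑ j ∈ range J, Real.sin (a / Real.sqrt ((j : ℝ) + 1)) ^ 2) atTop atTop := by
  have h1 := Real.tendsto_sum_range_one_div_nat_succ_atTop
  have h2 : Tendsto (fun J : ℕ => (a ^ 2 / 4) * ∑ j ∈ range J, 1 / ((j : ℝ) + 1)) atTop atTop :=
    h1.const_mul_atTop (by positivity)
  refine tendsto_atTop_mono (fun J => ?_) h2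
  rw [Finset.mul_sum]
  apply Finset.sum_le_sum
  intro j _
  have hj : (0 : ℝ) < (j : ℝ) + 1 := by positivity
  have hs : 0 < Real.sqrt ((j : ℝ) + 1) := Real.sqrt_pos.2 hj
  have hs1 : 1 ≤ Real.sqrt ((j : ℝ) + 1) := by
    rw [Real.one_le_sqrt]
    have : (0 : ℝ) ≤ j := by positivity
    linarith
  have h3 := (blk_sin_le (a := a / Real.sqrt ((j : ℝ) + 1)) (by positivity)
    ((div_le_self ha.le hs1).trans ha1)).2.2.1
  have h4 : (a / Real.sqrt ((j : ℝ) + 1) / 2) ^ 2 ≤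
      Real.sin (a / Real.sqrt ((j : ℝ) + 1)) ^ 2 := by
    apply pow_le_pow_left₀ (by positivity) h3
  refine le_trans (le_of_eq ?_) h4
  rw [div_pow, div_pow, Real.sq_sqrt hj.le]
  ring

theorem block (δ : ℝ) (hδ : 0 < δ) (hδ1 : δ ≤ 1) (I n0 : ℕ) :
    ∃ T R W K D E : KK →L[ℂ] KK, BlockData δ ((1 + δ / 4) ^ I) n0 T R W K D E := by
  set r : ℝ := 1 + δ / 4 with hr
  have hr1 : 1 ≤ r := by rw [hr]; linarith
  have hr0 : 0 < r := by linarith
  set κ : ℝ := r ^ I with hκ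
  have hκ1 : 1 ≤ κ := one_le_pow₀ hr1
  have hκ0 : 0 < κ := by linarith
  obtain ⟨h0, γ, h, w, St⟩ := exists_stair r hr1 (n0 + 1) (by omega) I
  rw [← hκ] at St
  set ε : ℝ := δ / (2 * κ) with hε
  have hε0 : 0 < ε := by positivity
  have hn0 : (0 : ℝ) < (n0 : ℝ) + 1 := by positivity
  set a : ℝ := min (1 / 20) (min (ε / 2) (δ / (8 * κ * ((n0 : ℝ) + 1)))) with ha
  have ha0 : 0 < a := by
    rw [ha]
    refine lt_min (by norm_num) (lt_min (by positivity) (by positivity))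
  have ha1 : a ≤ 1 / 20 := min_le_left _ _
  have ha2 : a ≤ ε / 2 := (min_le_right _ _).trans (min_le_left _ _)
  have ha3 : a ≤ δ / (8 * κ * ((n0 : ℝ) + 1)) := (min_le_right _ _).trans (min_le_right _ _)
  have ha4 : κ * ((n0 : ℝ) + 1) * a ≤ δ / 8 := by
    have := mul_le_mul_of_nonneg_left ha3 (by positivity : 0 ≤ κ * ((n0 : ℝ) + 1))
    refine this.trans (le_of_eq ?_)
    field_simp
  have ha5 : κ * a ≤ δ / 8 := by
    refine le_trans ?_ ha4
    have : κ * 1 * a ≤ κ * ((n0 : ℝ) + 1) * a := by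
      have h1 : (1 : ℝ) ≤ (n0 : ℝ) + 1 := by
        have : (0 : ℝ) ≤ n0 := by positivity
        linarith
      gcongr
    linarith
  set α : ℕ → ℝ := fun j => a / Real.sqrt ((j : ℝ) + 1) with hα
  have hs1 : ∀ j : ℕ, 1 ≤ Real.sqrt ((j : ℝ) + 1) := by
    intro j
    rw [Real.one_le_sqrt]
    have : (0 : ℝ) ≤ j := by positivity
    linarith
  have hα0 : ∀ j, 0 < α j := fun j => by
    have := hs1 j
    simp only [hα]
    positivity
  have hαa : ∀ j, α j ≤ a := fun j => div_le_self ha0.le (hs1 j)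
  have hα20 : ∀ j, α j ≤ 1 / 20 := fun j => (hαa j).trans ha1
  have hαt : Tendsto α atTop (𝓝 0) := by
    have h1 : Tendsto (fun j : ℕ => Real.sqrt ((j : ℝ) + 1)) atTop atTop :=
      Real.tendsto_sqrt_atTop.comp
        (tendsto_atTop_add_const_right _ _ tendsto_natCast_atTop_atTop)
    exact h1.const_div_atTop _
  have hαε : ∀ j, Real.sin (α j) *
      ((Real.cos (α j) + Real.sin (α j)) / (1 - Real.sin (α j))) < ε := by
    intro j
    have h1 := (blk_sin_le (hα0 j) (hα20 j)).2.2.2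
    have h2 := hαa j
    linarith
  obtain ⟨x, hx, hx0, hG, hI⟩ := exists_seq h0 ε hε0 α (fun j => ⟨hα0 j, hα20 j⟩) hαε
  set θ : ℕ → ℝ := thA x α with hθ
  have hθa : ∀ m, |θ m| ≤ a := by
    intro m
    have h1 := thA_le x α hx a (fun j => ⟨(hα0 j).le, hαa j⟩) m
    rw [abs_of_nonneg h1.1]
    exact h1.2
  have hθt : Tendsto θ atTop (𝓝 0) := thA_tendsto x α hx hαt
  have hκε : κ ^ 2 * (1 + 1 / δ) * ε ^ 2 ≤ δ := by
    have h1 : κ ^ 2 * (1 + 1 / δ) * ε ^ 2 = (δ ^ 2 + δ) / 4 := by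
      rw [hε]
      field_simp
      ring
    rw [h1]
    nlinarith
  obtain ⟨hDE, hED, hDn, hEn⟩ := de_one κ w St.one_le St.le
  obtain ⟨hTR, hRT⟩ := tt_rr κ w St.one_le St.le θ
  obtain ⟨hKc, hKn⟩ := k_comp r κ hr1 (n0 + 1) h0 I (by omega) γ h w St θ a hθa hθt
  refine ⟨TT w θ, RR w θ, UO θ, TT w θ - UO θ, DD w, DD (fun m => (w m)⁻¹), ?_⟩
  refine
    { TR := hTR
      RT := hRT
      Wu := (uo_ui θ).2.2
      ns := fun y hy => no_smooth x α hx (fun j => ⟨hα0 j, hα20 j⟩) hI (blk_div ha0 ha1) y hy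
      eq := by abel
      cpt := hKc
      Kn := ?_
      Tn := fun n => tt_norm r κ (n0 + 1) h0 I γ h w St θ ε δ hδ hε0.le hG hκε n
      Rn := fun n => rr_norm κ w St.one_le St.le θ n
      Rs := ?_
      DE := hDE
      ED := hED
      Dn := hDn
      En := hEn
      int := ?_
      low := ?_ }
  · refine hKn.trans ?_
    have h1 : 1 - 1 / r ≤ δ / 4 := by
      have h2 : 1 - 1 / r = (δ / 4) / r := by
        rw [hr]
        field_simp
        ring
      rw [h2]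
      exact div_le_self (by positivity) hr1
    linarith
  · intro n hn
    refine (rr_small r κ (n0 + 1) h0 I γ h w St θ a hθa n (by omega)).trans ?_
    have h1 : (n : ℝ) ≤ (n0 : ℝ) + 1 := by
      have : (n : ℝ) ≤ n0 := by exact_mod_cast hn
      linarith
    have h2 : κ * n * (2 * a) ≤ κ * ((n0 : ℝ) + 1) * (2 * a) := by gcongr
    have h3 : κ * ((n0 : ℝ) + 1) * (2 * a) = 2 * (κ * ((n0 : ℝ) + 1) * a) := by ring
    rw [hr]
    linarith
  · show DD (fun m => (w m)⁻¹) * (DD w * (UO θ * DD fun m => (w m)⁻¹)) = _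
    rw [← mul_assoc, hED, one_mul]
  · refine ⟨x 0, ee (-(x 0 : ℤ)), ?_, ?_⟩
    · intro h1
      have h2 := norm_ee (-(x 0 : ℤ))
      rw [h1, norm_zero] at h2
      exact zero_ne_one h2
    · rw [low_vec r κ (n0 + 1) h0 I γ h w St θ (x 0) hx0 (fun m hm => thA_low x α hx m hm),
        norm_smul, norm_ee, norm_ee, Complex.norm_real, Real.norm_eq_abs,
        abs_of_pos (inv_pos.2 hκ0), mul_one, mul_inv_cancel₀ hκ0.ne']

end Pool.Agent.Work.MP_ebd05c_an.SG
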