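import Pool.Agent.Work.MP_ebd05c_an.SG.UU

set_option autoImplicit false

open scoped BigOperators ENNReal NNReal Topology ComplexConjugate InnerProductSpace
open Finset Filter MeasureTheory

/-!
Finite speed and supports. From UU_apply. Step for supp_pow: assume u vanishes outside [-A, B],
A, B >= X. If m + 1 < -A then m < -A - 1, so u m = 0 and ang m = θ (-m-1) = 0 because -m-1 > A >= X.
If m + 1 > B + 1 then m > B >= X, u m = 0 and ang m = -θ m = 0. Induction on n with pow_succ'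
(U^(n+1) u = U (U^n u)), the interval [-A, B + n] satisfies the same hypotheses.
supp_gen: for arbitrary θ the support [-R-1, R] is mapped into [-R, R+1]: both u m and u (sgm m)
vanish unless -R-1 <= m <= R.
agree_step: entrywise by UU_apply: if ang θ m = ang θ' m nothing to do; otherwise
θ i ≠ θ' i for i = m.toNat or i = (-m-1).toNat and both u m and u (sgm m) vanish.
agree_pow: induction on i <= n: (UU θ')^(i+1) u = UU θ' (U^i u) = UU θ (U^i u), since for
θ i0 ≠ θ' i0 we have i0 > Y, thus i0 >= Y + 1 > B + i (outside the support by supp_pow) and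
-i0 - 1 <= -Y - 2 < -A. agree_gen: same with supp_gen.
-/

namespace Pool.Agent.Work.MP_ebd05c_an.SG

open Pool.Agent.Work.MP_ebd05c_an.H

private theorem su_succ (θ : ℕ → ℝ) (n : ℕ) (u : KK) :
    (UU θ ^ (n + 1)) u = UU θ ((UU θ ^ n) u) := by
  rw [pow_succ']
  rfl

private theorem su_ang_pos {θ : ℕ → ℝ} {X : ℕ} (hθ : Sup θ X) {m : ℤ} (h : (X : ℤ) < m) :
    ang θ m = 0 := by
  unfold ang
  rw [if_pos (by omega), hθ _ (by omega), neg_zero]

private theorem su_ang_neg {θ : ℕ → ℝ} {X : ℕ} (hθ : Sup θ X) {m : ℤ} (h : m < -(X : ℤ) - 1) :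
    ang θ m = 0 := by
  unfold ang
  rw [if_neg (by omega), hθ _ (by omega)]

theorem supp_pow (θ : ℕ → ℝ) (X : ℕ) (hθ : Sup θ X) (A B : ℤ) (hA : (X : ℤ) ≤ A) (hB : (X : ℤ) ≤ B)
    (u : KK) (hu : ∀ m : ℤ, m < -A ∨ B < m → (u : ℤ → ℂ) m = 0) (n : ℕ) (m : ℤ)
    (hm : m < -A ∨ B + n < m) : ((UU θ ^ n) u : ℤ → ℂ) m = 0 := by
  induction n generalizing m with
  | zero =>
    rw [pow_zero]
    refine hu m ?_
    simpa using hm
  | succ n ih =>
    obtain ⟨k, rfl⟩ : ∃ k : ℤ, m = k + 1 := ⟨m - 1, by ring⟩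
    push_cast at hm
    rw [su_succ, UU_apply, ih k (by omega)]
    have h1 : ang θ k = 0 := by
      rcases hm with hm | hm
      · exact su_ang_neg hθ (by omega)
      · exact su_ang_pos hθ (by omega)
    rw [h1]
    simp

theorem supp_gen (θ : ℕ → ℝ) (R : ℕ) (u : KK)
    (hu : ∀ m : ℤ, m < -(R : ℤ) - 1 ∨ (R : ℤ) < m → (u : ℤ → ℂ) m = 0) (n : ℕ) (m : ℤ)
    (hm : m < -(R : ℤ) - n - 1 ∨ (R : ℤ) + n < m) : ((UU θ ^ n) u : ℤ → ℂ) m = 0 := by
  induction n generalizing m with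
  | zero =>
    rw [pow_zero]
    refine hu m ?_
    simpa using hm
  | succ n ih =>
    obtain ⟨k, rfl⟩ : ∃ k : ℤ, m = k + 1 := ⟨m - 1, by ring⟩
    push_cast at hm
    rw [su_succ, UU_apply, ih k (by omega), ih (sgm k) (by unfold sgm; omega)]
    simp

theorem agree_step (θ θ' : ℕ → ℝ) (u : KK)
    (h : ∀ m : ℕ, θ m ≠ θ' m → (u : ℤ → ℂ) m = 0 ∧ (u : ℤ → ℂ) (-(m : ℤ) - 1) = 0) :
    UU θ u = UU θ' u := by
  refine KK_ext fun k => ?_
  obtain ⟨m, rfl⟩ : ∃ m : ℤ, k = m + 1 := ⟨k - 1, by ring⟩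
  rw [UU_apply, UU_apply]
  by_cases he : ang θ m = ang θ' m
  · rw [he]
  · have h1 : (u : ℤ → ℂ) m = 0 ∧ (u : ℤ → ℂ) (sgm m) = 0 := by
      unfold ang at he
      by_cases hm : 0 ≤ m
      · rw [if_pos hm, if_pos hm] at he
        have h2 := h m.toNat fun e => he (by rw [e])
        have h3 : ((m.toNat : ℕ) : ℤ) = m := Int.toNat_of_nonneg hm
        rw [h3] at h2
        exact h2
      · rw [if_neg hm, if_neg hm] at he
        have h2 := h (-m - 1).toNat he
        have h3 : (((-m - 1).toNat : ℕ) : ℤ) = -m - 1 := Int.toNat_of_nonneg (by omega)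
        rw [h3] at h2
        refine ⟨?_, h2.1⟩
        have h4 : -(-m - 1) - 1 = m := by ring
        rw [h4] at h2
        exact h2.2
    rw [h1.1, h1.2]
    simp

theorem agree_pow (θ θ' : ℕ → ℝ) (X Y : ℕ) (hθ : Sup θ X) (h : ∀ m ≤ Y, θ' m = θ m) (A B : ℤ)
    (hA : (X : ℤ) ≤ A) (hB : (X : ℤ) ≤ B) (hAY : A ≤ Y + 1) (n : ℕ) (hBY : B + n ≤ Y + 1) (u : KK)
    (hu : ∀ m : ℤ, m < -A ∨ B < m → (u : ℤ → ℂ) m = 0) : (UU θ' ^ n) u = (UU θ ^ n) u := by
  have main : ∀ i : ℕ, i ≤ n → (UU θ' ^ i) u = (UU θ ^ i) u := by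
    intro i
    induction i with
    | zero => intro _; rw [pow_zero, pow_zero]
    | succ i ih =>
      intro hi
      rw [su_succ, su_succ, ih (by omega)]
      refine agree_step θ' θ _ fun m hm => ?_
      have hmY : Y < m := by
        by_contra hcon
        exact hm (h m (by omega))
      exact ⟨supp_pow θ X hθ A B hA hB u hu i _ (by omega),
        supp_pow θ X hθ A B hA hB u hu i _ (by omega)⟩
  exact main n le_rfl

theorem agree_gen (θ θ' : ℕ → ℝ) (R n : ℕ) (h : ∀ m < R + n, θ' m = θ m) (u : KK)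
    (hu : ∀ m : ℤ, m < -(R : ℤ) - 1 ∨ (R : ℤ) < m → (u : ℤ → ℂ) m = 0) :
    (UU θ' ^ n) u = (UU θ ^ n) u := by
  have main : ∀ i : ℕ, i ≤ n → (UU θ' ^ i) u = (UU θ ^ i) u := by
    intro i
    induction i with
    | zero => intro _; rw [pow_zero, pow_zero]
    | succ i ih =>
      intro hi
      rw [su_succ, su_succ, ih (by omega)]
      refine agree_step θ' θ _ fun m hm => ?_
      have hmY : R + n ≤ m := by
        by_contra hcon
        exact hm (h m (by omega))
      exact ⟨supp_gen θ R u hu i _ (by omega), supp_gen θ R u hu i _ (by omega)⟩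
  exact main n le_rfl

end Pool.Agent.Work.MP_ebd05c_an.SG
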