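import Pool.Agent.Work.MP_ebd05c_an.SG.SqSum
import Pool.Agent.Work.MP_ebd05c_an.SG.Supp

set_option autoImplicit false

open scoped BigOperators ENNReal NNReal Topology ComplexConjugate InnerProductSpace
open Finset Filter MeasureTheory

/-!
For all i, k the numbers a_n(i,k) = (U^n e_i)(k) tend to 0 (sqsum, Summable.tendsto_atTop_zero).
Let K = (X + h0 + 1) * (X + 1) (an upper bound for the number of pairs) and choose N such that
|a_n(i,k)| <= η / K for n >= N and all i in [-h0, X], k in [-X, -1] (finitely many). For u vanishing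
outside [-h, X], u = sum over i in [-h, X] of u(i) e_i (KK_ext), so
(U^n u)(k) = sum_i u(i) a_n(i,k), |(U^n u)(k)| <= (X + h0 + 1) (η/K) |u| for -X <= k < -h
(norm_apply_le), and (U^n u)(k) = 0 for k < -X (supp_pow with A = X, B = X; h <= X). So
P v with v = U^n u, P = PP (Iio (-h)), is supported on at most X positions and |P v| is at most the
sum of the absolute values of its entries (P v = sum of (entry) e_k, norm_ee) <= η |u|.
-/

namespace Pool.Agent.Work.MP_ebd05c_an.SG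

open Pool.Agent.Work.MP_ebd05c_an.H

private theorem de_fin (w : KK) (S : Finset ℤ) (h : ∀ m, m ∉ S → (w : ℤ → ℂ) m = 0) :
    w = ∑ i ∈ S, (w : ℤ → ℂ) i • ee i := by
  refine KK_ext fun m => ?_
  rw [lp.coeFn_sum, Finset.sum_apply]
  have h1 : ∀ i ∈ S, (((w : ℤ → ℂ) i • ee i : KK) : ℤ → ℂ) m =
      if m = i then (w : ℤ → ℂ) m else 0 := by
    intro i _
    rw [lp.coeFn_smul, Pi.smul_apply, ee_apply, smul_eq_mul]
    by_cases hm : m = i
    · rw [if_pos hm, if_pos hm, mul_one, hm]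
    · rw [if_neg hm, if_neg hm, mul_zero]
  rw [Finset.sum_congr rfl h1, Finset.sum_ite_eq]
  by_cases hm : m ∈ S
  · rw [if_pos hm]
  · rw [if_neg hm, h m hm]

theorem decay (θ : ℕ → ℝ) (X : ℕ) (hθ : Sup θ X) (hc : ∀ m, 0 < Real.cos (θ m)) (h0 : ℕ)
    (hX : h0 ≤ X) (η : ℝ) (hη : 0 < η) : ∃ N : ℕ, ∀ n ≥ N, ∀ h ≤ h0, ∀ u : KK,
      (∀ m : ℤ, m < -(h : ℤ) ∨ (X : ℤ) < m → (u : ℤ → ℂ) m = 0) →
      ‖PP (Set.Iio (-(h : ℤ))) ((UU θ ^ n) u)‖ ≤ η * ‖u‖ := by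
  obtain ⟨K, hK⟩ : ∃ K : ℝ, K = ((X : ℝ) + h0 + 1) * ((X : ℝ) + 1) := ⟨_, rfl⟩
  have hK0 : 0 < K := by
    rw [hK]
    positivity
  have hev : ∀ᶠ n : ℕ in atTop, ∀ p ∈ Finset.Icc (-(h0 : ℤ)) (X : ℤ) ×ˢ
      Finset.Icc (-(X : ℤ)) (-1), ‖((UU θ ^ n) (ee p.1) : ℤ → ℂ) p.2‖ ≤ η / K := by
    rw [Filter.eventually_all_finset]
    rintro ⟨i, k⟩ _
    have h1 := (sqsum θ X hθ hc (ee i) k).tendsto_atTop_zero
    have h2 : (0 : ℝ) < (η / K) ^ 2 := by positivity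
    filter_upwards [h1.eventually (gt_mem_nhds h2)] with n hn
    have h3 : (0 : ℝ) ≤ η / K := by positivity
    exact (pow_le_pow_iff_left₀ (norm_nonneg _) h3 (by norm_num)).1 hn.le
  obtain ⟨N, hN⟩ := Filter.eventually_atTop.1 hev
  refine ⟨N, fun n hn h hh u hu => ?_⟩
  have hNn := hN n hn
  have hu1 : u = ∑ i ∈ Finset.Icc (-(h0 : ℤ)) (X : ℤ), (u : ℤ → ℂ) i • ee i := by
    refine de_fin u _ fun m hm => ?_
    rw [Finset.mem_Icc] at hm
    exact hu m (by omega)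
  have hentry : ∀ k ∈ Finset.Icc (-(X : ℤ)) (-1), ‖((UU θ ^ n) u : ℤ → ℂ) k‖ ≤
      ((X : ℝ) + h0 + 1) * (‖u‖ * (η / K)) := by
    intro k hk
    have h1 : (UU θ ^ n) u = ∑ i ∈ Finset.Icc (-(h0 : ℤ)) (X : ℤ),
        (u : ℤ → ℂ) i • (UU θ ^ n) (ee i) := by
      conv_lhs => rw [hu1]
      rw [map_sum]
      exact Finset.sum_congr rfl fun i _ => map_smul _ _ _
    have h2 : ((UU θ ^ n) u : ℤ → ℂ) k = ∑ i ∈ Finset.Icc (-(h0 : ℤ)) (X : ℤ),
        (u : ℤ → ℂ) i * ((UU θ ^ n) (ee i) : ℤ → ℂ) k := by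
      rw [h1, lp.coeFn_sum, Finset.sum_apply]
      rfl
    rw [h2]
    refine (norm_sum_le _ _).trans ?_
    have h3 : ∀ i ∈ Finset.Icc (-(h0 : ℤ)) (X : ℤ),
        ‖(u : ℤ → ℂ) i * ((UU θ ^ n) (ee i) : ℤ → ℂ) k‖ ≤ ‖u‖ * (η / K) := by
      intro i hi
      rw [norm_mul]
      exact mul_le_mul (norm_apply_le u i) (hNn (i, k) (Finset.mem_product.2 ⟨hi, hk⟩))
        (norm_nonneg _) (norm_nonneg _)
    refine (Finset.sum_le_sum h3).trans ?_
    rw [Finset.sum_const, nsmul_eq_mul]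
    refine mul_le_mul_of_nonneg_right ?_ (by positivity)
    rw [Int.card_Icc]
    have h4 : ((X : ℤ) + 1 - -(h0 : ℤ)).toNat = X + h0 + 1 := by omega
    rw [h4]
    push_cast
    exact le_rfl
  obtain ⟨v, hv⟩ : ∃ v : KK, v = PP (Set.Iio (-(h : ℤ))) ((UU θ ^ n) u) := ⟨_, rfl⟩
  have hvm : ∀ m : ℤ, (v : ℤ → ℂ) m =
      (Set.Iio (-(h : ℤ))).indicator ((UU θ ^ n) u : ℤ → ℂ) m := by
    intro m
    rw [hv, PP_apply]
  have hv1 : v = ∑ i ∈ Finset.Icc (-(X : ℤ)) (-1), (v : ℤ → ℂ) i • ee i := by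
    refine de_fin v _ fun m hm => ?_
    rw [Finset.mem_Icc] at hm
    rw [hvm]
    by_cases h1 : m < -(h : ℤ)
    · rw [Set.indicator_of_mem (Set.mem_Iio.2 h1)]
      refine supp_pow θ X hθ X X le_rfl le_rfl u (fun m' hm' => hu m' (by omega)) n m
        (Or.inl (by omega))
    · rw [Set.indicator_of_notMem fun h2 => h1 (Set.mem_Iio.1 h2)]
  have hv2 : ∀ k ∈ Finset.Icc (-(X : ℤ)) (-1), ‖(v : ℤ → ℂ) k • ee k‖ ≤
      ((X : ℝ) + h0 + 1) * (‖u‖ * (η / K)) := by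
    intro k hk
    rw [norm_smul, norm_ee, mul_one, hvm]
    exact (norm_indicator_le_norm_self _ _).trans (hentry k hk)
  rw [← hv, hv1]
  refine (norm_sum_le _ _).trans ((Finset.sum_le_sum hv2).trans ?_)
  rw [Finset.sum_const, nsmul_eq_mul, Int.card_Icc]
  have h4 : (-1 + 1 - -(X : ℤ)).toNat = X := by omega
  rw [h4]
  have h5 : (X : ℝ) * (((X : ℝ) + h0 + 1) * (‖u‖ * (η / K))) ≤
      ((X : ℝ) + 1) * (((X : ℝ) + h0 + 1) * (‖u‖ * (η / K))) := by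
    refine mul_le_mul_of_nonneg_right (by linarith) (by positivity)
  refine h5.trans (le_of_eq ?_)
  have h6 : ((X : ℝ) + 1) * (((X : ℝ) + h0 + 1) * (‖u‖ * (η / K))) = K * (‖u‖ * (η / K)) := by
    rw [hK]
    ring
  rw [h6]
  field_simp

end Pool.Agent.Work.MP_ebd05c_an.SG
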