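import Pool.Agent.Work.MP_ebd05c_an.SG.UU

set_option autoImplicit false

open scoped BigOperators ENNReal NNReal Topology ComplexConjugate InnerProductSpace
open Finset Filter MeasureTheory

/-!
duhamel: induction on n, V^(n+1) v = V (V^n v) (pow_succ'), V (U^n v) = U (U^n v) + (V - U) (U^n v), and
V (V^(n-1-m) w) = V^(n-m) w for m < n; the new term is m = n.
diff_apply: compare entries at m + 1 with UU_apply (every integer is of the form m + 1):
the angles of update θ x α and θ agree except at the positions x (angle -α instead of 0) and -x-1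
(angle α instead of 0). At m = x: (cos α - 1) w(x) - sin α w(-x-1); at m = -x-1:
(cos α - 1) w(-x-1) + sin α w(x) (sgm (-x-1) = x, sgm x = -x-1). x + 1 is different from -x.
-/

namespace Pool.Agent.Work.MP_ebd05c_an.SG

open Pool.Agent.Work.MP_ebd05c_an.H

private theorem pow_succ_app (W : KK ≃ₗᵢ[ℂ] KK) (k : ℕ) (x : KK) :
    (W ^ (k + 1)) x = W ((W ^ k) x) := by
  rw [pow_succ']
  rfl

theorem duhamel (U V : KK ≃ₗᵢ[ℂ] KK) (n : ℕ) (v : KK) :
    (V ^ n) v = (U ^ n) v + ∑ m ∈ range n, (V ^ (n - 1 - m)) (V ((U ^ m) v) - U ((U ^ m) v)) := by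
  induction n with
  | zero => simp
  | succ n ih =>
    rw [pow_succ_app V n v, ih, map_add, map_sum, pow_succ_app U n v, Finset.sum_range_succ]
    have h1 : ∀ m ∈ range n, V ((V ^ (n - 1 - m)) (V ((U ^ m) v) - U ((U ^ m) v))) =
        (V ^ (n + 1 - 1 - m)) (V ((U ^ m) v) - U ((U ^ m) v)) := by
      intro m hm
      have hm' := Finset.mem_range.1 hm
      have e : n + 1 - 1 - m = (n - 1 - m) + 1 := by omega
      rw [e, pow_succ_app]
    rw [Finset.sum_congr rfl h1]
    have h2 : n + 1 - 1 - n = 0 := by omega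
    rw [h2, pow_zero]
    show _ = _ + (_ + (V ((U ^ n) v) - U ((U ^ n) v)))
    abel

private theorem ang_update (θ : ℕ → ℝ) (x : ℕ) (α : ℝ) (k : ℤ) (h1 : k ≠ x)
    (h2 : k ≠ -(x : ℤ) - 1) : ang (Function.update θ x α) k = ang θ k := by
  unfold ang
  by_cases h : 0 ≤ k
  · rw [if_pos h, if_pos h, Function.update_of_ne]
    omega
  · rw [if_neg h, if_neg h, Function.update_of_ne]
    omega

theorem diff_apply (θ : ℕ → ℝ) (x : ℕ) (α : ℝ) (h : θ x = 0) (w : KK) :
    UU (Function.update θ x α) w - UU θ w =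
      ((Real.cos α - 1 : ℂ) * (w : ℤ → ℂ) x - (Real.sin α : ℂ) * (w : ℤ → ℂ) (-(x : ℤ) - 1)) •
          ee ((x : ℤ) + 1) +
        ((Real.cos α - 1 : ℂ) * (w : ℤ → ℂ) (-(x : ℤ) - 1) + (Real.sin α : ℂ) * (w : ℤ → ℂ) x) •
          ee (-(x : ℤ)) := by
  apply KK_ext
  intro m
  obtain ⟨k, rfl⟩ : ∃ k : ℤ, m = k + 1 := ⟨m - 1, by ring⟩
  rw [lp.coeFn_sub, Pi.sub_apply, lp.coeFn_add, Pi.add_apply, lp.coeFn_smul, lp.coeFn_smul,
    Pi.smul_apply, Pi.smul_apply, UU_apply, UU_apply, ee_apply, ee_apply, smul_eq_mul,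
    smul_eq_mul]
  by_cases h1 : k = x
  · subst h1
    have e1 : ang (Function.update θ x α) (x : ℤ) = -α := by
      unfold ang
      rw [if_pos (by omega), Int.toNat_natCast, Function.update_self]
    have e2 : ang θ (x : ℤ) = 0 := by
      unfold ang
      rw [if_pos (by omega), Int.toNat_natCast, h, neg_zero]
    rw [e1, e2, if_pos rfl, if_neg (by omega)]
    unfold sgm
    rw [Real.cos_neg, Real.sin_neg, Real.cos_zero, Real.sin_zero]
    push_cast
    ring
  · by_cases h2 : k = -(x : ℤ) - 1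
    · subst h2
      have e0 : (-(-(x : ℤ) - 1) - 1).toNat = x := by omega
      have e1 : ang (Function.update θ x α) (-(x : ℤ) - 1) = α := by
        unfold ang
        rw [if_neg (by omega), e0, Function.update_self]
      have e2 : ang θ (-(x : ℤ) - 1) = 0 := by
        unfold ang
        rw [if_neg (by omega), e0, h]
      have e3 : sgm (-(x : ℤ) - 1) = x := by
        unfold sgm
        ring
      rw [e1, e2, e3, if_neg (by omega), if_pos (by ring), Real.cos_zero, Real.sin_zero]
      push_cast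
      ring
    · rw [ang_update θ x α k h1 h2, if_neg (by omega), if_neg (by omega)]
      ring

end Pool.Agent.Work.MP_ebd05c_an.SG
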