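import Pool.Agent.Work.MP_ebd05c_an.SG.UU

set_option autoImplicit false

open scoped BigOperators ENNReal NNReal Topology ComplexConjugate InnerProductSpace
open Finset Filter MeasureTheory

/-!
Energy balance inside [-x, x]. Both sides are sums over pairs: the left side is the sum over
m in [-x+1, x] of |(U z)(m)|^2 = sum over m in [-x, x-1] of |(U z)(m+1)|^2
= sum over m in [-x, x-1] of |cos(ang m) z(m) + sin(ang m) z(sgm m)|^2 =: S.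
The interval [-x, x-1] is invariant under sgm (sgm (-x) = x - 1), so reindexing with sgm and
ang_sgm, S = sum of |cos(ang m) z(sgm m) - sin(ang m) z(m)|^2; adding the two expressions gives
2 S = sum of (|z(m)|^2 + |z(sgm m)|^2) = 2 * sum over [-x, x-1] of |z(m)|^2, the right side.
(|c a + s b|^2 + |c b - s a|^2 = |a|^2 + |b|^2 for real c, s, c^2 + s^2 = 1.)
-/

namespace Pool.Agent.Work.MP_ebd05c_an.SG

open Pool.Agent.Work.MP_ebd05c_an.H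

private theorem en_ang (θ : ℕ → ℝ) (m : ℤ) : ang θ (sgm m) = -ang θ m := by
  unfold ang sgm
  by_cases h : 0 ≤ m
  · rw [if_pos h, if_neg (by omega), neg_neg]
    congr 1
    omega
  · rw [if_neg h, if_pos (by omega)]

private theorem en_sgm (m : ℤ) : sgm (sgm m) = m := by
  unfold sgm
  ring

private theorem en_rot (c s : ℝ) (h : c ^ 2 + s ^ 2 = 1) (a b : ℂ) :
    ‖(c : ℂ) * a + (s : ℂ) * b‖ ^ 2 + ‖(c : ℂ) * b - (s : ℂ) * a‖ ^ 2 = ‖a‖ ^ 2 + ‖b‖ ^ 2 := by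
  simp only [Complex.sq_norm, Complex.normSq_apply, Complex.add_re, Complex.add_im,
    Complex.sub_re, Complex.sub_im, Complex.mul_re, Complex.mul_im, Complex.ofReal_re,
    Complex.ofReal_im]
  linear_combination (a.re * a.re + a.im * a.im + (b.re * b.re + b.im * b.im)) * h

private theorem en_reidx (x : ℕ) (f : ℤ → ℝ) :
    ∑ m ∈ Finset.Ico (-(x : ℤ)) x, f (sgm m) = ∑ m ∈ Finset.Ico (-(x : ℤ)) x, f m := by
  refine Finset.sum_nbij' sgm sgm ?_ ?_ ?_ ?_ ?_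
  · intro m hm
    rw [Finset.mem_Ico] at *
    unfold sgm
    omega
  · intro m hm
    rw [Finset.mem_Ico] at *
    unfold sgm
    omega
  · intro m _
    exact en_sgm m
  · intro m _
    exact en_sgm m
  · intro m _
    rfl

theorem energy (θ : ℕ → ℝ) (x : ℕ) (z : KK) :
    ∑ m ∈ Finset.Icc (-(x : ℤ)) x, ‖(UU θ z : ℤ → ℂ) m‖ ^ 2 -
        ‖(UU θ z : ℤ → ℂ) (-(x : ℤ))‖ ^ 2 =
      ∑ m ∈ Finset.Icc (-(x : ℤ)) x, ‖(z : ℤ → ℂ) m‖ ^ 2 - ‖(z : ℤ → ℂ) x‖ ^ 2 := by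
  have hle : (-(x : ℤ)) ≤ x := by omega
  have h1 : ∑ m ∈ Finset.Icc (-(x : ℤ)) x, ‖(UU θ z : ℤ → ℂ) m‖ ^ 2 =
      ∑ m ∈ Finset.Ico (-(x : ℤ)) x, ‖(UU θ z : ℤ → ℂ) (m + 1)‖ ^ 2 +
        ‖(UU θ z : ℤ → ℂ) (-(x : ℤ))‖ ^ 2 := by
    have e : Finset.Icc (-(x : ℤ)) x =
        insert (-(x : ℤ)) ((Finset.Ico (-(x : ℤ)) x).image fun m => m + 1) := by
      ext m
      rw [Finset.mem_insert, Finset.mem_image, Finset.mem_Icc]
      constructor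
      · intro h
        by_cases h2 : m = -(x : ℤ)
        · exact Or.inl h2
        · exact Or.inr ⟨m - 1, Finset.mem_Ico.2 (by omega), by ring⟩
      · rintro (h | ⟨k, hk, rfl⟩)
        · omega
        · rw [Finset.mem_Ico] at hk
          omega
    rw [e, Finset.sum_insert, Finset.sum_image, add_comm]
    · intro a _ b _ hab
      exact add_right_cancel hab
    · rw [Finset.mem_image]
      rintro ⟨k, hk, hk2⟩
      rw [Finset.mem_Ico] at hk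
      omega
  have h2 : ∑ m ∈ Finset.Icc (-(x : ℤ)) x, ‖(z : ℤ → ℂ) m‖ ^ 2 =
      ∑ m ∈ Finset.Ico (-(x : ℤ)) x, ‖(z : ℤ → ℂ) m‖ ^ 2 + ‖(z : ℤ → ℂ) x‖ ^ 2 := by
    have e : Finset.Icc (-(x : ℤ)) x = insert (x : ℤ) (Finset.Ico (-(x : ℤ)) x) := by
      ext m
      rw [Finset.mem_insert, Finset.mem_Ico, Finset.mem_Icc]
      omega
    rw [e, Finset.sum_insert (by simp), add_comm]
  rw [h1, h2, add_sub_cancel_right, add_sub_cancel_right]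
  have h3 : ∑ m ∈ Finset.Ico (-(x : ℤ)) x, ‖(UU θ z : ℤ → ℂ) (m + 1)‖ ^ 2 =
      ∑ m ∈ Finset.Ico (-(x : ℤ)) x, ‖(Real.cos (ang θ m) : ℂ) * (z : ℤ → ℂ) m +
        (Real.sin (ang θ m) : ℂ) * (z : ℤ → ℂ) (sgm m)‖ ^ 2 := by
    refine Finset.sum_congr rfl fun m _ => ?_
    rw [UU_apply]
  have h4 : ∑ m ∈ Finset.Ico (-(x : ℤ)) x, ‖(UU θ z : ℤ → ℂ) (m + 1)‖ ^ 2 =
      ∑ m ∈ Finset.Ico (-(x : ℤ)) x, ‖(Real.cos (ang θ m) : ℂ) * (z : ℤ → ℂ) (sgm m) -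
        (Real.sin (ang θ m) : ℂ) * (z : ℤ → ℂ) m‖ ^ 2 := by
    rw [← en_reidx x fun m => ‖(UU θ z : ℤ → ℂ) (m + 1)‖ ^ 2]
    refine Finset.sum_congr rfl fun m _ => ?_
    simp only
    rw [UU_apply, en_ang, en_sgm, Real.cos_neg, Real.sin_neg]
    congr 2
    push_cast
    ring
  have h5 : ∑ m ∈ Finset.Ico (-(x : ℤ)) x, ‖(UU θ z : ℤ → ℂ) (m + 1)‖ ^ 2 +
      ∑ m ∈ Finset.Ico (-(x : ℤ)) x, ‖(UU θ z : ℤ → ℂ) (m + 1)‖ ^ 2 =
      ∑ m ∈ Finset.Ico (-(x : ℤ)) x, ‖(z : ℤ → ℂ) m‖ ^ 2 +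
      ∑ m ∈ Finset.Ico (-(x : ℤ)) x, ‖(z : ℤ → ℂ) m‖ ^ 2 := by
    nth_rewrite 1 [h3]
    rw [h4, ← Finset.sum_add_distrib]
    have e : ∑ m ∈ Finset.Ico (-(x : ℤ)) x, ‖(z : ℤ → ℂ) m‖ ^ 2 +
        ∑ m ∈ Finset.Ico (-(x : ℤ)) x, ‖(z : ℤ → ℂ) m‖ ^ 2 =
        ∑ m ∈ Finset.Ico (-(x : ℤ)) x, (‖(z : ℤ → ℂ) m‖ ^ 2 + ‖(z : ℤ → ℂ) (sgm m)‖ ^ 2) := by
      rw [Finset.sum_add_distrib, en_reidx x fun m => ‖(z : ℤ → ℂ) m‖ ^ 2]
    rw [e]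
    refine Finset.sum_congr rfl fun m _ => ?_
    exact en_rot _ _ (Real.cos_sq_add_sin_sq _) _ _
  linarith

end Pool.Agent.Work.MP_ebd05c_an.SG
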