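import Pool.Agent.Work.MP_ebd05c_an.SG.Flux
import Pool.Agent.Work.MP_ebd05c_an.SG.Duh
import Pool.Agent.Work.MP_ebd05c_an.SG.Supp

set_option autoImplicit false

open scoped BigOperators ENNReal NNReal Topology ComplexConjugate InnerProductSpace
open Finset Filter MeasureTheory

/-!
θ' = update θ x α (so θ' x = α, Sup θ' x), U = UU θ, U' = UU θ', P = PP (Iio (-h)), s = sin α, c = cos α.
v := PP {m | m <= x} u, v' := u - v, supported on m > x: U'^n v' has entries v'(m-n) (right_pow for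
θ', x), which vanish for m < 0; so P U'^n u = P U'^n v; |v| <= |u|.
duhamel (U, U', n, v) and diff_apply (θ x = 0 as x > X): w_m := U^m v vanishes at -x-1 (supp_pow with
A = X, B = x: v supported in [-h, x], h <= X, -x-1 < -X). With r_m = w_m(x):
U' w_m - U w_m = ((c-1) r_m) e_(x+1) + (s r_m) e_(-x).
P U'^k e_(x+1) = P e_(x+1+k) = 0 (ee_right for θ', x). So
P U'^n v = P U^n v + s P (sum_(m<n) r_m U'^(n-1-m) e_(-x)).
(A) |P U^n v| <= η |v|: v = va + vb, va = PP {m | m <= X} v, vb supported in m > X, P U^n vb = 0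
(right_pow for θ, X), |P U^n va| <= η |va| by hdec.
(B) S := sum_(m<n) r_m U'^(n-1-m) e_(-x). |S|^2 = |<S, S>| <= sum_m |r_m| |<U'^(n-1-m) e_(-x), S>|
<= (sum |r_m|^2)^(1/2) (sum_(k<n) |<U'^k e_(-x), S>|^2)^(1/2) <= |v| F |S|, F = (c+s)/(1-s), by
Cauchy-Schwarz, bessel for θ at the position x > X (sum_(m<n) |w_m(x)|^2 <= |v|^2) and flux for θ', x
(sum over k = n-1-m: Finset.sum_range_reflect). So |S| <= F |v|.
Total: (η + s F) |v| <= (η + s F) |u|.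
-/

namespace Pool.Agent.Work.MP_ebd05c_an.SG

open Pool.Agent.Work.MP_ebd05c_an.H

private theorem lt_split (x : ℤ) (u : KK) : u = PP {m | m < x} u + PP {m | x ≤ m} u := by
  classical
  refine KK_ext fun m => ?_
  show (u : ℤ → ℂ) m = (PP {m | m < x} u : ℤ → ℂ) m + (PP {m | x ≤ m} u : ℤ → ℂ) m
  rw [PP_apply, PP_apply]
  by_cases h : m < x
  · rw [Set.indicator_of_mem (by exact h), Set.indicator_of_notMem (by exact not_le.2 h), add_zero]
  · rw [Set.indicator_of_notMem (by exact h), Set.indicator_of_mem (by exact not_lt.1 h), zero_add]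

private theorem lt_le (A : Set ℤ) (u : KK) : ‖PP A u‖ ≤ ‖u‖ := by
  calc ‖PP A u‖ ≤ ‖PP A‖ * ‖u‖ := (PP A).le_opNorm u
    _ ≤ 1 * ‖u‖ := mul_le_mul_of_nonneg_right (PP_norm A) (norm_nonneg _)
    _ = ‖u‖ := one_mul _

/-- free motion to the right does not cross the cuts -/
private theorem lt_right (θ : ℕ → ℝ) (X : ℕ) (hθ : Sup θ X) (u : KK) (n h : ℕ) :
    PP (Set.Iio (-(h : ℤ))) ((UU θ ^ n) (PP {m | (X : ℤ) + 1 ≤ m} u)) = 0 := by
  classical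
  have hz : ∀ m : ℤ, m ≤ (X : ℤ) → (PP {m | (X : ℤ) + 1 ≤ m} u : ℤ → ℂ) m = 0 := by
    intro m hm
    rw [PP_apply]
    exact Set.indicator_of_notMem (by
      show ¬ ((X : ℤ) + 1 ≤ m)
      omega) _
  refine KK_ext fun m => ?_
  rw [PP_apply]
  show _ = (0 : ℂ)
  by_cases h2 : m ∈ Set.Iio (-(h : ℤ))
  · have h3 : m < -(h : ℤ) := h2
    rw [Set.indicator_of_mem h2, right_pow θ X hθ _ hz, hz (m - n) (by omega)]
  · exact Set.indicator_of_notMem h2 _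

private theorem lt_ee (k : ℤ) (h : ℕ) (hk : 0 ≤ k) : PP (Set.Iio (-(h : ℤ))) (ee k) = 0 := by
  classical
  refine KK_ext fun m => ?_
  rw [PP_apply]
  show _ = (0 : ℂ)
  by_cases h2 : m ∈ Set.Iio (-(h : ℤ))
  · have h3 : m < -(h : ℤ) := h2
    rw [Set.indicator_of_mem h2, ee_apply, if_neg (by omega)]
  · exact Set.indicator_of_notMem h2 _

private theorem lt_cs {n : ℕ} (r : ℕ → ℂ) (g : ℕ → KK) (S : KK) {V F : ℝ} (hV : 0 ≤ V) (hF : 0 ≤ F)
    (hS : S = ∑ m ∈ range n, r m • g m) (h1 : ∑ m ∈ range n, ‖r m‖ ^ 2 ≤ V ^ 2)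
    (h2 : ∑ m ∈ range n, ‖⟪g m, S⟫_ℂ‖ ^ 2 ≤ (F * ‖S‖) ^ 2) : ‖S‖ ≤ F * V := by
  have h3 : ‖S‖ ^ 2 ≤ ∑ m ∈ range n, ‖r m‖ * ‖⟪g m, S⟫_ℂ‖ := by
    have h4 : (⟪S, S⟫_ℂ : ℂ) = ∑ m ∈ range n, conj (r m) * ⟪g m, S⟫_ℂ := by
      conv_lhs => rw [hS]
      rw [sum_inner]
      refine Finset.sum_congr rfl fun m _ => ?_
      rw [inner_smul_left, ← hS]
    have h5 : ‖S‖ ^ 2 = ‖(⟪S, S⟫_ℂ : ℂ)‖ := by
      rw [inner_self_eq_norm_sq_to_K]
      simp
    rw [h5, h4]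
    refine (norm_sum_le _ _).trans (le_of_eq ?_)
    refine Finset.sum_congr rfl fun m _ => ?_
    rw [norm_mul, RCLike.norm_conj]
  have h6 : (∑ m ∈ range n, ‖r m‖ * ‖⟪g m, S⟫_ℂ‖) ^ 2 ≤ V ^ 2 * (F * ‖S‖) ^ 2 := by
    refine (Finset.sum_mul_sq_le_sq_mul_sq _ _ _).trans ?_
    exact mul_le_mul h1 h2 (Finset.sum_nonneg fun m _ => by positivity) (by positivity)
  have h7 : ‖S‖ ^ 2 ≤ V * (F * ‖S‖) := by
    refine h3.trans ?_
    refine (pow_le_pow_iff_left₀ (Finset.sum_nonneg fun m _ => by positivity) (by positivity)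
      two_ne_zero).1 ?_
    rw [mul_pow]
    exact h6
  rcases eq_or_lt_of_le (norm_nonneg S) with h8 | h8
  · rw [← h8]
    positivity
  · have h9 : ‖S‖ * ‖S‖ ≤ F * V * ‖S‖ := by nlinarith
    exact le_of_mul_le_mul_right h9 h8

theorem large_time (θ : ℕ → ℝ) (X h0 : ℕ) (hθ : Sup θ X) (hX : h0 ≤ X) (α : ℝ)
    (hs : 0 ≤ Real.sin α) (hs1 : Real.sin α < 1) (hc : 0 ≤ Real.cos α) (x : ℕ) (hx : X < x)
    (η : ℝ) (hη : 0 ≤ η) (n h : ℕ) (hh : h ≤ h0)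
    (hdec : ∀ u : KK, (∀ m : ℤ, m < -(h : ℤ) ∨ (X : ℤ) < m → (u : ℤ → ℂ) m = 0) →
      ‖PP (Set.Iio (-(h : ℤ))) ((UU θ ^ n) u)‖ ≤ η * ‖u‖) (u : KK)
    (hu : ∀ m : ℤ, m < -(h : ℤ) → (u : ℤ → ℂ) m = 0) :
    ‖PP (Set.Iio (-(h : ℤ))) ((UU (Function.update θ x α) ^ n) u)‖ ≤
      (η + Real.sin α * ((Real.cos α + Real.sin α) / (1 - Real.sin α))) * ‖u‖ := by
  classical
  obtain ⟨θ', hθ'⟩ : ∃ θ' : ℕ → ℝ, θ' = Function.update θ x α := ⟨_, rfl⟩
  rw [← hθ']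
  have hsup : Sup θ' x := by
    intro m hm
    rw [hθ', Function.update_of_ne (by omega)]
    exact hθ m (by omega)
  have hx0 : θ x = 0 := hθ x hx
  have hx' : θ' x = α := by
    rw [hθ', Function.update_self]
  obtain ⟨P, hP⟩ : ∃ P : KK →L[ℂ] KK, P = PP (Set.Iio (-(h : ℤ))) := ⟨_, rfl⟩
  rw [← hP]
  obtain ⟨v, hv⟩ : ∃ v : KK, v = PP {m | m < (x : ℤ) + 1} u := ⟨_, rfl⟩
  have hvu : ‖v‖ ≤ ‖u‖ := by
    rw [hv]
    exact lt_le _ _
  have hvz : ∀ m : ℤ, m < -(h : ℤ) ∨ (x : ℤ) < m → (v : ℤ → ℂ) m = 0 := by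
    intro m hm
    rw [hv, PP_apply]
    by_cases h1 : m < (x : ℤ) + 1
    · rw [Set.indicator_of_mem (by exact h1)]
      rcases hm with hm | hm
      · exact hu m hm
      · omega
    · exact Set.indicator_of_notMem (by exact h1) _
  have hPu : P ((UU θ' ^ n) u) = P ((UU θ' ^ n) v) := by
    have h1 := lt_split ((x : ℤ) + 1) u
    rw [← hv] at h1
    have h2 := lt_right θ' x hsup u n h
    rw [← hP] at h2
    conv_lhs => rw [h1]
    rw [map_add, map_add, h2, add_zero]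
  obtain ⟨r, hr⟩ : ∃ r : ℕ → ℂ, r = fun m => ((UU θ ^ m) v : ℤ → ℂ) x := ⟨_, rfl⟩
  have hdiff : ∀ m : ℕ, UU θ' ((UU θ ^ m) v) - UU θ ((UU θ ^ m) v) =
      ((Real.cos α - 1 : ℂ) * r m) • ee ((x : ℤ) + 1) + ((Real.sin α : ℂ) * r m) • ee (-(x : ℤ)) := by
    intro m
    have h1 : ((UU θ ^ m) v : ℤ → ℂ) (-(x : ℤ) - 1) = 0 := by
      refine supp_pow θ X hθ (X : ℤ) (x : ℤ) le_rfl (by omega) v (fun m hm => ?_) m _
        (Or.inl (by omega))
      apply hvz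
      omega
    rw [hθ', diff_apply θ x α hx0, h1, hr]
    simp
  obtain ⟨S, hS⟩ : ∃ S : KK, S = ∑ m ∈ range n, r m • (UU θ' ^ (n - 1 - m)) (ee (-(x : ℤ))) :=
    ⟨_, rfl⟩
  have hdu : P ((UU θ' ^ n) v) = P ((UU θ ^ n) v) + (Real.sin α : ℂ) • P S := by
    rw [duhamel (UU θ) (UU θ') n v, map_add, map_sum, hS, map_sum, Finset.smul_sum]
    congr 1
    refine Finset.sum_congr rfl fun m _ => ?_
    rw [hdiff m, map_add, map_smul, map_smul, ee_right θ' x hsup _ (by omega), map_add, map_smul,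
      map_smul, map_smul, hP, lt_ee _ h (by omega), smul_zero, zero_add, smul_smul]
  have hA : ‖P ((UU θ ^ n) v)‖ ≤ η * ‖v‖ := by
    obtain ⟨va, hva⟩ : ∃ va : KK, va = PP {m | m < (X : ℤ) + 1} v := ⟨_, rfl⟩
    have h1 := lt_split ((X : ℤ) + 1) v
    rw [← hva] at h1
    have h2 := lt_right θ X hθ v n h
    rw [← hP] at h2
    have h3 : P ((UU θ ^ n) v) = P ((UU θ ^ n) va) := by
      conv_lhs => rw [h1]
      rw [map_add, map_add, h2, add_zero]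
    rw [h3]
    have h4 : ‖P ((UU θ ^ n) va)‖ ≤ η * ‖va‖ := by
      rw [hP]
      refine hdec va fun m hm => ?_
      rw [hva, PP_apply]
      by_cases h5 : m < (X : ℤ) + 1
      · rw [Set.indicator_of_mem (by exact h5)]
        rcases hm with hm | hm
        · exact hvz m (Or.inl hm)
        · omega
      · exact Set.indicator_of_notMem (by exact h5) _
    refine h4.trans (mul_le_mul_of_nonneg_left ?_ hη)
    rw [hva]
    exact lt_le _ _
  obtain ⟨F, hF⟩ : ∃ F : ℝ, F = (Real.cos α + Real.sin α) / (1 - Real.sin α) := ⟨_, rfl⟩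
  have hF0 : 0 ≤ F := by
    rw [hF]
    exact div_nonneg (by linarith) (by linarith)
  have hB : ‖S‖ ≤ F * ‖v‖ := by
    refine lt_cs r (fun m => (UU θ' ^ (n - 1 - m)) (ee (-(x : ℤ)))) S (norm_nonneg _) hF0 hS ?_ ?_
    · have h1 := bessel θ X hθ (x : ℤ) (Or.inl (by exact_mod_cast hx)) v
        ((range n).map Nat.castEmbedding)
      rw [Finset.sum_map] at h1
      refine le_trans (le_of_eq ?_) h1
      refine Finset.sum_congr rfl fun m _ => ?_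
      rw [hr]
      show _ = ‖((UU θ ^ ((m : ℕ) : ℤ)) v : ℤ → ℂ) x‖ ^ 2
      rw [zpow_natCast]
    · have h1 := flux θ' x hsup (by rw [hx']; exact hs) (by rw [hx']; exact hs1)
        (by rw [hx']; exact hc) S n
      rw [hx', ← hF] at h1
      rw [Finset.sum_range_reflect (fun k => ‖⟪(UU θ' ^ k) (ee (-(x : ℤ))), S⟫_ℂ‖ ^ 2) n]
      exact h1
  rw [hPu, hdu, ← hF]
  refine (norm_add_le _ _).trans ?_
  rw [norm_smul, Complex.norm_real, Real.norm_eq_abs, abs_of_nonneg hs, add_mul]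
  have hPS : ‖P S‖ ≤ F * ‖u‖ := by
    rw [hP]
    exact (lt_le _ _).trans (hB.trans (mul_le_mul_of_nonneg_left hvu hF0))
  have h1 : η * ‖v‖ ≤ η * ‖u‖ := mul_le_mul_of_nonneg_left hvu hη
  have h2 : Real.sin α * ‖P S‖ ≤ Real.sin α * (F * ‖u‖) := mul_le_mul_of_nonneg_left hPS hs
  linarith

end Pool.Agent.Work.MP_ebd05c_an.SG
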