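import Pool.Agent.Work.MP_ebd05c_an.SG.SmallT
import Pool.Agent.Work.MP_ebd05c_an.SG.LargeT
import Pool.Agent.Work.MP_ebd05c_an.SG.Decay

set_option autoImplicit false

open scoped BigOperators ENNReal NNReal Topology ComplexConjugate InnerProductSpace
open Finset Filter MeasureTheory

/-!
Let F = (cos α + sin α)/(1 - sin α) >= 1 (cos + sin >= 1 as both are in [0,1] and cos^2 + sin^2 = 1), so
sin α <= sin α * F < ε. Put η = ε - sin α * F > 0, take N from decay θ X hθ hc h0 hX η, and
x0 = X + N + 2. For x >= x0 and h, n, u: if n <= N use small_time (X + n + 2 <= x), otherwise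
large_time with hdec from decay.
good_zero: for θ = 0 right_pow with X = 0 does not apply directly; instead: for u vanishing below -h,
(U^n u)(m) = u(m-n) for all m (induction: all angles are 0), which vanishes for m < -h; so PP (..) = 0.
-/

namespace Pool.Agent.Work.MP_ebd05c_an.SG

open Pool.Agent.Work.MP_ebd05c_an.H

theorem good_ext (θ : ℕ → ℝ) (X h0 : ℕ) (ε : ℝ) (hθ : Sup θ X) (hX : h0 ≤ X)
    (hc : ∀ m, 0 < Real.cos (θ m)) (hG : Good θ h0 ε) (α : ℝ) (hs : 0 ≤ Real.sin α)
    (hs1 : Real.sin α < 1) (hc' : 0 ≤ Real.cos α)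
    (hlt : Real.sin α * ((Real.cos α + Real.sin α) / (1 - Real.sin α)) < ε) :
    ∃ x0 : ℕ, ∀ x ≥ x0, X < x ∧ Good (Function.update θ x α) h0 ε := by
  have hcs : 1 ≤ Real.cos α + Real.sin α := by
    have h1 := Real.sin_sq_add_cos_sq α
    have h2 := mul_nonneg hs hc'
    nlinarith
  have h1s : 0 < 1 - Real.sin α := by linarith
  have hF : 1 ≤ (Real.cos α + Real.sin α) / (1 - Real.sin α) := by
    rw [le_div_iff₀ h1s]
    linarith
  have hs2 : Real.sin α ≤ Real.sin α * ((Real.cos α + Real.sin α) / (1 - Real.sin α)) :=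
    le_mul_of_one_le_right hs hF
  have hε : 0 ≤ ε := by linarith
  obtain ⟨N, hN⟩ := decay θ X hθ hc h0 hX
    (ε - Real.sin α * ((Real.cos α + Real.sin α) / (1 - Real.sin α))) (by linarith)
  refine ⟨X + N + 2, fun x hx => ⟨by omega, fun h hh n u hu => ?_⟩⟩
  by_cases hn : n ≤ N
  · exact small_time θ X h0 ε hε hθ hX hG α hs (by linarith) x n (by omega) h hh u hu
  · have h2 := large_time θ X h0 hθ hX α hs hs1 hc' x (by omega)
      (ε - Real.sin α * ((Real.cos α + Real.sin α) / (1 - Real.sin α))) (by linarith) n h hh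
      (fun v hv => hN n (by omega) h hh v hv) u hu
    rw [sub_add_cancel] at h2
    exact h2

theorem good_zero (h0 : ℕ) (ε : ℝ) (hε : 0 ≤ ε) : Good (fun _ => 0) h0 ε := by
  intro h _ n u hu
  have hpow : ∀ (n : ℕ) (m : ℤ), ((UU (fun _ => 0) ^ n) u : ℤ → ℂ) m = (u : ℤ → ℂ) (m - n) := by
    intro n
    induction n with
    | zero =>
      intro m
      rw [Nat.cast_zero, sub_zero, pow_zero]
      rfl
    | succ n ih =>
      intro m
      have h1 : (UU (fun _ => 0) ^ (n + 1)) u = UU (fun _ => 0) ((UU (fun _ => 0) ^ n) u) := by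
        rw [pow_succ']
        rfl
      have h2 := UU_apply (fun _ => 0) ((UU (fun _ => 0) ^ n) u) (m - 1)
      have h3 : ang (fun _ => 0) (m - 1) = 0 := by
        unfold ang
        split_ifs
        · exact neg_zero
        · rfl
      rw [sub_add_cancel, h3, Real.cos_zero, Real.sin_zero, Complex.ofReal_one,
        Complex.ofReal_zero, one_mul, zero_mul, add_zero, ih] at h2
      have h4 : m - 1 - (n : ℤ) = m - ((n + 1 : ℕ) : ℤ) := by
        push_cast
        ring
      rw [h1, h2, h4]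
  have h0 : PP (Set.Iio (-(h : ℤ))) ((UU (fun _ => 0) ^ n) u) = 0 := by
    refine KK_ext fun m => ?_
    rw [PP_apply, lp.coeFn_zero, Pi.zero_apply]
    by_cases hm : m ∈ Set.Iio (-(h : ℤ))
    · rw [Set.indicator_of_mem hm, hpow]
      apply hu
      have h1 : m < -(h : ℤ) := hm
      omega
    · rw [Set.indicator_of_notMem hm]
  rw [h0, norm_zero]
  exact mul_nonneg hε (norm_nonneg _)

end Pool.Agent.Work.MP_ebd05c_an.SG
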