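import Pool.Agent.Work.MP_ebd05c_an.SG.UU

set_option autoImplicit false

open scoped BigOperators ENNReal NNReal Topology ComplexConjugate InnerProductSpace
open Finset Filter MeasureTheory

/-!
Write θ' = update θ x α and v_i = (UU θ')^i u. Claim, by induction on i <= n, for all m <= x:
v_i(m) = if (-x <= m and m <= -x+i-1) then sin α * u(m+2x-i+1) else u(m-i).     (*)
i = 0 is clear. Step, for m <= x - 1, v_(i+1)(m+1) = cos(a) v_i(m) + sin(a) v_i(sgm m), a = ang θ' m.
* m <= -x-2: a = θ'(-m-1) = 0 since -m-1 > x > X; v_i(m) = u(m-i); fine.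
* m = -x-1: a = α; v_i(-x-1) = u(-x-1-i) = 0, v_i(x) = u(x-i) (x > -x+i-1); so sin α u(x-i); fine.
* -x <= m <= x-1 and not (-X-1 <= m <= X): a = 0, v_(i+1)(m+1) = v_i(m); fine in both cases.
* -X-1 <= m <= X: then v_i(m) = 0 = v_i(sgm m): both positions are > -x+i-1 (x >= X+n+2) and
u(m-i) = 0 because m - i <= X < x - n; and (*) at (m+1, i+1) gives u(m-i) = 0 as well.
Result: i = n; for m < 0 outside the first case u(m-n) = 0 since m - n < x - n.
-/

namespace Pool.Agent.Work.MP_ebd05c_an.SG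

open Pool.Agent.Work.MP_ebd05c_an.H

private theorem far_zero {θ : ℕ → ℝ} {X x : ℕ} (hθ : Sup θ X) (α : ℝ) {m : ℤ}
    (h1 : m < -(X : ℤ) - 1 ∨ (X : ℤ) < m) (h2 : m ≠ x) (h3 : m ≠ -(x : ℤ) - 1) :
    ang (Function.update θ x α) m = 0 := by
  unfold ang
  split_ifs with h
  · have h4 : m.toNat ≠ x := by omega
    rw [Function.update_of_ne h4, hθ _ (by omega), neg_zero]
  · have h4 : (-m - 1).toNat ≠ x := by omega
    rw [Function.update_of_ne h4, hθ _ (by omega)]

private theorem far_x (θ : ℕ → ℝ) (x : ℕ) (α : ℝ) :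
    ang (Function.update θ x α) (-(x : ℤ) - 1) = α := by
  unfold ang
  rw [if_neg (by omega)]
  have h4 : (-(-(x : ℤ) - 1) - 1).toNat = x := by omega
  rw [h4, Function.update_self]

private theorem far_aux (θ : ℕ → ℝ) (X x n : ℕ) (hθ : Sup θ X) (α : ℝ) (hx : X + n + 2 ≤ x)
    (u : KK) (hu : ∀ m : ℤ, m < (x : ℤ) - n → (u : ℤ → ℂ) m = 0) (i : ℕ) (hi : i ≤ n) :
    ∀ m : ℤ, m ≤ x → ((UU (Function.update θ x α) ^ i) u : ℤ → ℂ) m =
      if -(x : ℤ) ≤ m ∧ m ≤ -(x : ℤ) + i - 1 then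
        (Real.sin α : ℂ) * (u : ℤ → ℂ) (m + 2 * x - i + 1) else (u : ℤ → ℂ) (m - i) := by
  induction i with
  | zero =>
    intro m _
    rw [if_neg (by push_cast; omega)]
    simp
  | succ i ih =>
    have ih' := ih (by omega)
    intro m' hm'
    obtain ⟨m, rfl⟩ : ∃ m : ℤ, m' = m + 1 := ⟨m' - 1, by ring⟩
    have hs : ((UU (Function.update θ x α) ^ (i + 1)) u : ℤ → ℂ) (m + 1) =
        (Real.cos (ang (Function.update θ x α) m) : ℂ) *
          ((UU (Function.update θ x α) ^ i) u : ℤ → ℂ) m +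
        (Real.sin (ang (Function.update θ x α) m) : ℂ) *
          ((UU (Function.update θ x α) ^ i) u : ℤ → ℂ) (sgm m) := by
      rw [pow_succ']
      exact UU_apply _ _ _
    rw [hs]
    have e1 : m + 1 - ((i + 1 : ℕ) : ℤ) = m - i := by push_cast; ring
    have e2 : m + 1 + 2 * (x : ℤ) - ((i + 1 : ℕ) : ℤ) + 1 = m + 2 * x - i + 1 := by
      push_cast; ring
    rw [e1, e2]
    rcases lt_trichotomy m (-(x : ℤ) - 1) with h | h | h
    · rw [far_zero hθ α (by omega) (by omega) (by omega), ih' m (by omega), if_neg (by omega),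
        if_neg (by push_cast; omega)]
      simp
    · have e3 : sgm m = x := by
        unfold sgm
        omega
      rw [e3, ih' m (by omega), ih' x le_rfl, if_neg (by omega), if_neg (by omega),
        if_pos (by push_cast; omega), hu (m - i) (by omega), h, far_x]
      have e4 : -(x : ℤ) - 1 + 2 * x - i + 1 = x - i := by ring
      rw [e4]
      ring
    · by_cases hX : -(X : ℤ) - 1 ≤ m ∧ m ≤ X
      · have e5 : sgm m = -m - 1 := rfl
        rw [ih' m (by omega), ih' (sgm m) (by rw [e5]; omega), if_neg (by omega),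
          if_neg (by rw [e5]; omega), hu (m - i) (by omega), hu (sgm m - i) (by rw [e5]; omega),
          if_neg (by push_cast; omega)]
        simp
      · rw [far_zero hθ α (by omega) (by omega) (by omega), ih' m (by omega)]
        by_cases h5 : -(x : ℤ) ≤ m ∧ m ≤ -(x : ℤ) + i - 1
        · rw [if_pos h5, if_pos (by push_cast; omega)]
          simp
        · rw [if_neg h5, if_neg (by push_cast; omega)]
          simp

theorem far (θ : ℕ → ℝ) (X x n : ℕ) (hθ : Sup θ X) (α : ℝ) (hx : X + n + 2 ≤ x) (u : KK)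
    (hu : ∀ m : ℤ, m < (x : ℤ) - n → (u : ℤ → ℂ) m = 0) (m : ℤ) (hm : m < 0) :
    ((UU (Function.update θ x α) ^ n) u : ℤ → ℂ) m =
      if -(x : ℤ) ≤ m ∧ m ≤ -(x : ℤ) + n - 1 then
        (Real.sin α : ℂ) * (u : ℤ → ℂ) (m + 2 * x - n + 1) else 0 := by
  rw [far_aux θ X x n hθ α hx u hu n le_rfl m (by omega), hu (m - n) (by omega)]

end Pool.Agent.Work.MP_ebd05c_an.SG
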