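import Pool.Agent.Work.MP_ebd05c_an.SG.Neg3

set_option autoImplicit false

open scoped BigOperators ENNReal NNReal Topology ComplexConjugate InnerProductSpace
open Finset Filter MeasureTheory

/-!
tfae: 1 -> 2: positive (H/Cls.lean). 2 -> 3: the contraction lemma SimilarToUnitary.contraction.
3 -> 1: negative_s by contraposition.
-/

namespace Pool.Agent.Work.MP_ebd05c_an.SG

open Pool.Agent.Work.MP_ebd05c_an.H

theorem main (ε : ℝ) (hε : 0 < ε) (c : ℕ → ℝ) : List.TFAE [
    LimsupPos c,
    ∀ (H : Type) [NormedAddCommGroup H] [InnerProductSpace ℂ H] [CompleteSpace H]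
      (T : H →L[ℂ] H), Cls ε c T → SimilarToUnitary T,
    ∀ (H : Type) [NormedAddCommGroup H] [InnerProductSpace ℂ H] [CompleteSpace H]
      (T : H →L[ℂ] H), Spec0 ε c T → (∃ W, SingularUnitary W ∧ QuasiSimilar T W) →
        SimilarToContraction T] := by
  tfae_have 1 → 2 := fun hc H _ _ _ T hT => positive T c hc (1 + ε) hT.pow_le hT.c11 hT.low
  tfae_have 2 → 3 := fun h H _ _ _ T hT _ => (h H T hT.cls).contraction
  tfae_have 3 → 1 := by
    intro h
    by_contra hc
    obtain ⟨H, i1, i2, i3, T, h1, h2, h3⟩ := negative_s ε hε c hc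
    exact h3 (h H T h1 h2)
  tfae_finish

end Pool.Agent.Work.MP_ebd05c_an.SG
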