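import Pool.Agent.Work.MP_ebd05c_an.SG.Energy
import Pool.Agent.Work.MP_ebd05c_an.SG.Bessel

set_option autoImplicit false

open scoped BigOperators ENNReal NNReal Topology ComplexConjugate InnerProductSpace
open Finset Filter MeasureTheory

/-!
Let z_k = U^(-k) y (k natural), so U z_(k+1) = z_k, |z_k| = |y| and
<U^k e_(-x), y> = <e_(-x), z_k> = z_k(-x) (inner_ee, inner_map_map). Put s = sin (θ x), c = cos (θ x),
D^2 = sum_(k<n) |z_k(-x)|^2, A^2 = sum_(k<n) |z_(k+1)(x)|^2, Q^2 = sum_(k<n) |z_(k+1)(-x-1)|^2.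
(1) Q <= |y| by bessel (position -x-1, F = the integers -(k+1), k < n).
(2) UU_apply at the position -x-1 (ang = θ x, sgm (-x-1) = x): z_k(-x) = c z_(k+1)(-x-1) + s z_(k+1)(x),
so D <= c Q + s A (Minkowski for finite sums: EuclideanSpace norm, or
Real.Lp_add_le / inner_mul_le_norm_mul_norm).
(3) energy for z_(k+1): E(z_k) - |z_k(-x)|^2 = E(z_(k+1)) - |z_(k+1)(x)|^2 with
E(z) = sum over [-x, x] of |z(m)|^2 in [0, |y|^2]; summing over k < n (telescoping)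
A^2 = D^2 + E(z_n) - E(z_0) <= D^2 + |y|^2, so A <= D + |y|.
Hence D <= c |y| + s (D + |y|), D (1 - s) <= (c + s) |y|.
-/

namespace Pool.Agent.Work.MP_ebd05c_an.SG

open Pool.Agent.Work.MP_ebd05c_an.H

private theorem fl_mink (c s : ℝ) (hc : 0 ≤ c) (hs : 0 ≤ s) (n : ℕ) (f g : ℕ → ℂ) :
    √(∑ k ∈ range n, ‖(c : ℂ) * f k + (s : ℂ) * g k‖ ^ 2) ≤
      c * √(∑ k ∈ range n, ‖f k‖ ^ 2) + s * √(∑ k ∈ range n, ‖g k‖ ^ 2) := by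
  have hF : 0 ≤ ∑ k ∈ range n, ‖f k‖ ^ 2 := Finset.sum_nonneg fun k _ => by positivity
  have hG : 0 ≤ ∑ k ∈ range n, ‖g k‖ ^ 2 := Finset.sum_nonneg fun k _ => by positivity
  apply Real.sqrt_le_iff.2
  refine ⟨by positivity, ?_⟩
  have h1 : ∑ k ∈ range n, ‖(c : ℂ) * f k + (s : ℂ) * g k‖ ^ 2 ≤
      ∑ k ∈ range n, (c ^ 2 * ‖f k‖ ^ 2 + 2 * c * s * (‖f k‖ * ‖g k‖) + s ^ 2 * ‖g k‖ ^ 2) := by
    refine Finset.sum_le_sum fun k _ => ?_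
    have h2 : ‖(c : ℂ) * f k + (s : ℂ) * g k‖ ≤ c * ‖f k‖ + s * ‖g k‖ := by
      refine (norm_add_le _ _).trans (le_of_eq ?_)
      rw [norm_mul, norm_mul, Complex.norm_real, Complex.norm_real, Real.norm_of_nonneg hc,
        Real.norm_of_nonneg hs]
    calc ‖(c : ℂ) * f k + (s : ℂ) * g k‖ ^ 2 ≤ (c * ‖f k‖ + s * ‖g k‖) ^ 2 :=
          pow_le_pow_left₀ (norm_nonneg _) h2 2
      _ = _ := by ring
  rw [Finset.sum_add_distrib, Finset.sum_add_distrib, ← Finset.mul_sum, ← Finset.mul_sum,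
    ← Finset.mul_sum] at h1
  have h2 := Real.sum_mul_le_sqrt_mul_sqrt (range n) (fun k => ‖f k‖) (fun k => ‖g k‖)
  have h3 : (c * √(∑ k ∈ range n, ‖f k‖ ^ 2) + s * √(∑ k ∈ range n, ‖g k‖ ^ 2)) ^ 2 =
      c ^ 2 * (∑ k ∈ range n, ‖f k‖ ^ 2) +
        2 * c * s * (√(∑ k ∈ range n, ‖f k‖ ^ 2) * √(∑ k ∈ range n, ‖g k‖ ^ 2)) +
        s ^ 2 * (∑ k ∈ range n, ‖g k‖ ^ 2) := by
    have e1 := Real.sq_sqrt hF
    have e2 := Real.sq_sqrt hG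
    linear_combination c ^ 2 * e1 + s ^ 2 * e2
  rw [h3]
  have h4 : 2 * c * s * (∑ k ∈ range n, ‖f k‖ * ‖g k‖) ≤
      2 * c * s * (√(∑ k ∈ range n, ‖f k‖ ^ 2) * √(∑ k ∈ range n, ‖g k‖ ^ 2)) :=
    mul_le_mul_of_nonneg_left h2 (by positivity)
  linarith

theorem flux (θ : ℕ → ℝ) (x : ℕ) (hθ : Sup θ x) (hs : 0 ≤ Real.sin (θ x))
    (hs1 : Real.sin (θ x) < 1) (hc : 0 ≤ Real.cos (θ x)) (y : KK) (n : ℕ) :
    ∑ k ∈ range n, ‖⟪(UU θ ^ k) (ee (-(x : ℤ))), y⟫_ℂ‖ ^ 2 ≤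
      ((Real.cos (θ x) + Real.sin (θ x)) / (1 - Real.sin (θ x)) * ‖y‖) ^ 2 := by
  obtain ⟨z, hz⟩ : ∃ z : ℕ → KK, ∀ k, z k = (UU θ ^ (-(k : ℤ))) y := ⟨_, fun _ => rfl⟩
  have hzn : ∀ k, ‖z k‖ = ‖y‖ := by
    intro k
    rw [hz, LinearIsometryEquiv.norm_map]
  have hU : ∀ k, UU θ (z (k + 1)) = z k := by
    intro k
    rw [hz, hz]
    have e : (-(k : ℤ)) = 1 + (-((k + 1 : ℕ) : ℤ)) := by push_cast; ring
    rw [e, zpow_one_add]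
    rfl
  have hin : ∀ k, ⟪(UU θ ^ k) (ee (-(x : ℤ))), y⟫_ℂ = (z k : ℤ → ℂ) (-(x : ℤ)) := by
    intro k
    have e1 : (UU θ ^ k) (z k) = y := by
      rw [hz, ← zpow_natCast, zpow_neg]
      exact (UU θ ^ (k : ℤ)).apply_symm_apply y
    have e2 : ⟪(UU θ ^ k) (ee (-(x : ℤ))), y⟫_ℂ =
        ⟪(UU θ ^ k) (ee (-(x : ℤ))), (UU θ ^ k) (z k)⟫_ℂ := by rw [e1]
    rw [e2, LinearIsometryEquiv.inner_map_map, inner_ee]
  simp only [hin]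
  -- the three sums
  have hQ : ∑ k ∈ range n, ‖(z (k + 1) : ℤ → ℂ) (-(x : ℤ) - 1)‖ ^ 2 ≤ ‖y‖ ^ 2 := by
    have h1 := bessel θ x hθ (-(x : ℤ) - 1) (Or.inr le_rfl) y
      ((range n).image fun k : ℕ => -((k + 1 : ℕ) : ℤ))
    rw [Finset.sum_image (by
      intro a _ b _ hab
      simp only at hab
      omega)] at h1
    refine le_trans (le_of_eq ?_) h1
    refine Finset.sum_congr rfl fun k _ => ?_
    rw [hz]
  have hstep : ∀ k, (z k : ℤ → ℂ) (-(x : ℤ)) =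
      (Real.cos (θ x) : ℂ) * (z (k + 1) : ℤ → ℂ) (-(x : ℤ) - 1) +
        (Real.sin (θ x) : ℂ) * (z (k + 1) : ℤ → ℂ) x := by
    intro k
    have h1 := UU_apply θ (z (k + 1)) (-(x : ℤ) - 1)
    rw [hU, sub_add_cancel] at h1
    have e1 : ang θ (-(x : ℤ) - 1) = θ x := by
      unfold ang
      rw [if_neg (by omega)]
      congr 1
      omega
    have e2 : sgm (-(x : ℤ) - 1) = x := by
      unfold sgm
      ring
    rw [e1, e2] at h1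
    exact h1
  have hE0 : ∀ k, 0 ≤ ∑ m ∈ Finset.Icc (-(x : ℤ)) x, ‖(z k : ℤ → ℂ) m‖ ^ 2 := fun k =>
    Finset.sum_nonneg fun m _ => by positivity
  have hE1 : ∀ k, ∑ m ∈ Finset.Icc (-(x : ℤ)) x, ‖(z k : ℤ → ℂ) m‖ ^ 2 ≤ ‖y‖ ^ 2 := by
    intro k
    rw [← hzn k]
    exact sum_le_hasSum _ (fun m _ => by positivity) (norm_sq_hasSum (z k))
  have hA : ∀ n, ∑ k ∈ range n, ‖(z (k + 1) : ℤ → ℂ) x‖ ^ 2 =
      ∑ k ∈ range n, ‖(z k : ℤ → ℂ) (-(x : ℤ))‖ ^ 2 +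
        ∑ m ∈ Finset.Icc (-(x : ℤ)) x, ‖(z n : ℤ → ℂ) m‖ ^ 2 -
        ∑ m ∈ Finset.Icc (-(x : ℤ)) x, ‖(z 0 : ℤ → ℂ) m‖ ^ 2 := by
    intro n
    induction n with
    | zero => simp
    | succ n ih =>
      have h1 := energy θ x (z (n + 1))
      rw [hU] at h1
      rw [Finset.sum_range_succ, Finset.sum_range_succ, ih]
      linarith
  set D := √(∑ k ∈ range n, ‖(z k : ℤ → ℂ) (-(x : ℤ))‖ ^ 2) with hD
  have hD0 : 0 ≤ ∑ k ∈ range n, ‖(z k : ℤ → ℂ) (-(x : ℤ))‖ ^ 2 :=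
    Finset.sum_nonneg fun k _ => by positivity
  have hDsq : D ^ 2 = ∑ k ∈ range n, ‖(z k : ℤ → ℂ) (-(x : ℤ))‖ ^ 2 := Real.sq_sqrt hD0
  have hDn : 0 ≤ D := Real.sqrt_nonneg _
  have hyn : 0 ≤ ‖y‖ := norm_nonneg y
  have h1 : D ≤ Real.cos (θ x) * √(∑ k ∈ range n, ‖(z (k + 1) : ℤ → ℂ) (-(x : ℤ) - 1)‖ ^ 2) +
      Real.sin (θ x) * √(∑ k ∈ range n, ‖(z (k + 1) : ℤ → ℂ) x‖ ^ 2) := by
    have h2 := fl_mink (Real.cos (θ x)) (Real.sin (θ x)) hc hs n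
      (fun k => (z (k + 1) : ℤ → ℂ) (-(x : ℤ) - 1)) (fun k => (z (k + 1) : ℤ → ℂ) x)
    have h3 : D = √(∑ k ∈ range n, ‖(Real.cos (θ x) : ℂ) * (z (k + 1) : ℤ → ℂ) (-(x : ℤ) - 1) +
        (Real.sin (θ x) : ℂ) * (z (k + 1) : ℤ → ℂ) x‖ ^ 2) := by
      rw [hD]
      congr 1
      refine Finset.sum_congr rfl fun k _ => ?_
      rw [hstep k]
    rw [h3]
    exact h2
  have h2 : √(∑ k ∈ range n, ‖(z (k + 1) : ℤ → ℂ) (-(x : ℤ) - 1)‖ ^ 2) ≤ ‖y‖ :=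
    Real.sqrt_le_iff.2 ⟨hyn, hQ⟩
  have h3 : √(∑ k ∈ range n, ‖(z (k + 1) : ℤ → ℂ) x‖ ^ 2) ≤ D + ‖y‖ := by
    apply Real.sqrt_le_iff.2
    refine ⟨by positivity, ?_⟩
    rw [hA n, ← hDsq]
    nlinarith [hE0 0, hE1 n]
  have h4 : D ≤ Real.cos (θ x) * ‖y‖ + Real.sin (θ x) * (D + ‖y‖) := by
    have h5 := mul_le_mul_of_nonneg_left h2 hc
    have h6 := mul_le_mul_of_nonneg_left h3 hs
    linarith
  have h5 : 0 < 1 - Real.sin (θ x) := by linarith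
  have h6 : D ≤ (Real.cos (θ x) + Real.sin (θ x)) / (1 - Real.sin (θ x)) * ‖y‖ := by
    rw [div_mul_eq_mul_div, le_div_iff₀ h5]
    linarith
  rw [← hDsq]
  exact pow_le_pow_left₀ hDn h6 2

end Pool.Agent.Work.MP_ebd05c_an.SG
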