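import Pool.Agent.Work.MP_ebd05c_an.SG.Asm3
import Pool.Agent.Work.MP_ebd05c_an.H.Neg

set_option autoImplicit false

open scoped BigOperators ENNReal NNReal Topology ComplexConjugate InnerProductSpace
open Finset Filter MeasureTheory

/-!
b from exists_b (in H/Neg.lean). δ N = min ε 1 / (N+1), I N with (1 + δ N/4)^(I N) >= N (powers of a number
> 1 are unbounded, pow_unbounded_of_one_lt), κ N = (1 + δ N/4)^(I N) >= 1, n0 N with b n <= 1/κ N for
n > n0 N (b tends to 0), so κ N <= 1/b n. Blocks from block (choose). asm_s; finally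
Spec0 ε b A implies Spec0 ε c A because c n <= b n (Cls: low is monotone in c; low_all: min_le_min).
-/

namespace Pool.Agent.Work.MP_ebd05c_an.SG

open Pool.Agent.Work.MP_ebd05c_an.H

theorem negative_s (ε : ℝ) (hε : 0 < ε) (c : ℕ → ℝ) (hc : ¬ LimsupPos c) :
    ∃ (H : Type) (_ : NormedAddCommGroup H) (_ : InnerProductSpace ℂ H) (_ : CompleteSpace H)
      (T : H →L[ℂ] H), Spec0 ε c T ∧ (∃ W, SingularUnitary W ∧ QuasiSimilar T W) ∧
        ¬ SimilarToContraction T := by
  obtain ⟨b, hb0, hbt, hb1, hcb⟩ := exists_b c hc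
  set e : ℝ := min ε 1 with he
  have he0 : 0 < e := lt_min hε one_pos
  have he1 : e ≤ 1 := min_le_right _ _
  have heε : e ≤ ε := min_le_left _ _
  set δ : ℕ → ℝ := fun N => e / ((N : ℝ) + 1) with hδ
  have hN1 : ∀ N : ℕ, (1 : ℝ) ≤ (N : ℝ) + 1 := by
    intro N
    have : (0 : ℝ) ≤ N := by positivity
    linarith
  have hδ0 : ∀ N, 0 < δ N := by
    intro N
    have := hN1 N
    simp only [hδ]
    positivity
  have hδe : ∀ N, δ N ≤ e := by
    intro N
    exact div_le_self he0.le (hN1 N)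
  have hδt : Tendsto δ atTop (𝓝 0) := by
    have h1 := (tendsto_one_div_add_atTop_nhds_zero_nat (𝕜 := ℝ)).const_mul e
    rw [mul_zero] at h1
    refine h1.congr (fun N => ?_)
    simp only [hδ]
    ring
  have hI : ∀ N : ℕ, ∃ I : ℕ, (N : ℝ) < (1 + δ N / 4) ^ I := by
    intro N
    apply pow_unbounded_of_one_lt
    have := hδ0 N
    linarith
  choose I hI using hI
  set κ : ℕ → ℝ := fun N => (1 + δ N / 4) ^ I N with hκ
  have hκ1 : ∀ N, 1 ≤ κ N := by
    intro N
    apply one_le_pow₀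
    have := hδ0 N
    linarith
  have hn : ∀ N : ℕ, ∃ n0 : ℕ, ∀ n, n0 < n → κ N ≤ 1 / b n := by
    intro N
    have hpos : 0 < κ N := by linarith [hκ1 N]
    have h1 : ∀ᶠ n in atTop, b n < 1 / κ N := hbt.eventually (gt_mem_nhds (by positivity))
    obtain ⟨n0, hn0⟩ := eventually_atTop.1 h1
    refine ⟨n0, fun n hn => ?_⟩
    have h2 := hn0 n hn.le
    rw [lt_div_iff₀ hpos] at h2
    rw [le_div_iff₀ (hb0 n)]
    linarith
  choose n0 hn using hn
  have hblk := fun N : ℕ => block (δ N) (hδ0 N) ((hδe N).trans he1) (I N) (n0 N)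
  choose T R W K D E hB using hblk
  obtain ⟨A, hA1, hA2, hA3⟩ := asm_s ε hε b hb0 hbt hb1 T R W K D E δ κ n0 hB hδ0
    (fun N => (hδe N).trans heε) hδt hκ1 (fun C => by
      obtain ⟨N, hN⟩ := exists_nat_gt C
      exact ⟨N, hN.trans (hI N)⟩) hn
  refine ⟨lp (fun _ : ℕ => KK) 2, inferInstance, inferInstance, inferInstance, A,
    ⟨⟨hA1.cls.c11, hA1.cls.pow_le, ?_⟩, hA1.sep, hA1.pert, hA1.spec, ?_⟩, hA2, hA3⟩
  · filter_upwards [hA1.cls.low] with n hn x
    exact (mul_le_mul_of_nonneg_right (hcb n) (norm_nonneg _)).trans (hn x)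
  · intro n x
    refine le_trans (mul_le_mul_of_nonneg_right ?_ (norm_nonneg _)) (hA1.low_all n x)
    exact min_le_min le_rfl (hcb n)

end Pool.Agent.Work.MP_ebd05c_an.SG
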