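import Pool.Agent.Work.MP_ebd05c_an.SG.Base

set_option autoImplicit false

open scoped BigOperators ENNReal NNReal Topology ComplexConjugate InnerProductSpace
open Finset Filter MeasureTheory

/-!
|sum a_i w^(k i) x|^2 = sum_(i,j) conj (a_i) a_j <w^(k i) x, w^(k j) x> and
<w^k x, w^l x> = <x, w^(l-k) x> (w^k is unitary: adjoint of w^k is w^(-k)) = ∫ fourier (l-k) dμ
= ∫ conj (fourier k) fourier l dμ (fourier_neg, fourier_add). On the other side
|sum a_i fourier (k i)|^2 = sum_(i,j) conj (a_i fourier (k i)) a_j fourier (k j) pointwise, all functions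
continuous and bounded, hence integrable (μ finite). Compare after ofReal.
-/

namespace Pool.Agent.Work.MP_ebd05c_an.SG

open Pool.Agent.Work.MP_ebd05c_an.H

private theorem inner_pow_aux {H : Type} [NormedAddCommGroup H] [InnerProductSpace ℂ H]
    [CompleteSpace H] (w : unitary (H →L[ℂ] H)) (x : H) (k l : ℤ) :
    ⟪((w ^ k : unitary (H →L[ℂ] H)) : H →L[ℂ] H) x,
      ((w ^ l : unitary (H →L[ℂ] H)) : H →L[ℂ] H) x⟫_ℂ =
      ⟪x, ((w ^ (l - k) : unitary (H →L[ℂ] H)) : H →L[ℂ] H) x⟫_ℂ := by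
  have h1 : w ^ (l - k) = star (w ^ k) * w ^ l := by
    rw [Unitary.star_eq_inv, zpow_sub]
    have : Commute (w ^ l) ((w ^ k)⁻¹) := by
      exact ((Commute.refl w).zpow_zpow l k).inv_right
    exact this.eq
  rw [h1]
  rw [← ContinuousLinearMap.adjoint_inner_right]
  rfl

private theorem fourier_conj_mul_aux (k l : ℤ) (t : UnitAddCircle) :
    (starRingEnd ℂ) (fourier k t) * fourier l t = fourier (l - k) t := by
  rw [← fourier_neg, ← fourier_add]
  congr 1
  congr 1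
  ring

private theorem integrable_fourier_aux (μ : Measure UnitAddCircle) [IsFiniteMeasure μ] (n : ℤ) :
    Integrable (fun t : UnitAddCircle => (fourier n t : ℂ)) μ := by
  have hc : Continuous (fun t : UnitAddCircle => (fourier n t : ℂ)) := (fourier n).continuous
  refine Integrable.of_bound hc.aestronglyMeasurable 1 (Filter.Eventually.of_forall (fun t => ?_))
  rw [fourier_apply]
  simp

theorem norm_trig {H : Type} [NormedAddCommGroup H] [InnerProductSpace ℂ H] [CompleteSpace H]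
    (w : unitary (H →L[ℂ] H)) (x : H) (μ : Measure UnitAddCircle) [IsFiniteMeasure μ]
    (hμ : ∀ n : ℤ, ⟪x, ((w ^ n : unitary (H →L[ℂ] H)) : H →L[ℂ] H) x⟫_ℂ = ∫ t, fourier n t ∂μ)
    {ι : Type} (F : Finset ι) (a : ι → ℂ) (k : ι → ℤ) :
    ‖∑ i ∈ F, a i • ((w ^ k i : unitary (H →L[ℂ] H)) : H →L[ℂ] H) x‖ ^ 2 =
      ∫ t, ‖∑ i ∈ F, a i * fourier (k i) t‖ ^ 2 ∂μ := by
  have hL : ((‖∑ i ∈ F, a i • ((w ^ k i : unitary (H →L[ℂ] H)) : H →L[ℂ] H) x‖ ^ 2 : ℝ) : ℂ) =
      ∑ i ∈ F, ∑ j ∈ F, (starRingEnd ℂ) (a i) * (a j * ∫ t, fourier (k j - k i) t ∂μ) := by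
    rw [Complex.ofReal_pow]
    have h0 := inner_self_eq_norm_sq_to_K (𝕜 := ℂ)
      (∑ i ∈ F, a i • ((w ^ k i : unitary (H →L[ℂ] H)) : H →L[ℂ] H) x)
    have h0' : ((‖∑ i ∈ F, a i • ((w ^ k i : unitary (H →L[ℂ] H)) : H →L[ℂ] H) x‖ : ℝ) : ℂ) ^ 2 =
      ⟪∑ i ∈ F, a i • ((w ^ k i : unitary (H →L[ℂ] H)) : H →L[ℂ] H) x,
        ∑ i ∈ F, a i • ((w ^ k i : unitary (H →L[ℂ] H)) : H →L[ℂ] H) x⟫_ℂ := by
      rw [h0]
      rfl
    rw [h0', sum_inner]
    refine Finset.sum_congr rfl (fun i _ => ?_)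
    rw [inner_sum]
    refine Finset.sum_congr rfl (fun j _ => ?_)
    rw [inner_smul_left, inner_smul_right, inner_pow_aux, hμ]
  have hpt : ∀ t : UnitAddCircle, ((‖∑ i ∈ F, a i * fourier (k i) t‖ ^ 2 : ℝ) : ℂ) =
      ∑ i ∈ F, ∑ j ∈ F, (starRingEnd ℂ) (a i) * (a j * fourier (k j - k i) t) := by
    intro t
    rw [Complex.ofReal_pow, ← Complex.conj_mul', map_sum, Finset.sum_mul]
    refine Finset.sum_congr rfl (fun i _ => ?_)
    rw [Finset.mul_sum]
    refine Finset.sum_congr rfl (fun j _ => ?_)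
    rw [← fourier_conj_mul_aux, map_mul]
    ring
  have hR : ((∫ t, ‖∑ i ∈ F, a i * fourier (k i) t‖ ^ 2 ∂μ : ℝ) : ℂ) =
      ∑ i ∈ F, ∑ j ∈ F, (starRingEnd ℂ) (a i) * (a j * ∫ t, fourier (k j - k i) t ∂μ) := by
    rw [← integral_complex_ofReal]
    have h1 : ∫ t, ((‖∑ i ∈ F, a i * fourier (k i) t‖ ^ 2 : ℝ) : ℂ) ∂μ =
        ∫ t, ∑ i ∈ F, ∑ j ∈ F, (starRingEnd ℂ) (a i) * (a j * fourier (k j - k i) t) ∂μ :=
      integral_congr_ae (Filter.Eventually.of_forall (fun t => hpt t))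
    have hint : ∀ i j, Integrable (fun t : UnitAddCircle =>
        (starRingEnd ℂ) (a i) * (a j * fourier (k j - k i) t)) μ := fun i j =>
      ((integrable_fourier_aux μ (k j - k i)).const_mul (a j)).const_mul _
    refine h1.trans ?_
    rw [integral_finsetSum]
    · refine Finset.sum_congr rfl (fun i _ => ?_)
      rw [integral_finsetSum]
      · refine Finset.sum_congr rfl (fun j _ => ?_)
        rw [integral_const_mul, integral_const_mul]
      · exact fun j _ => hint i j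
    · exact fun i _ => integrable_finsetSum _ (fun j _ => hint i j)
  exact Complex.ofReal_injective (hL.trans hR.symm)

end Pool.Agent.Work.MP_ebd05c_an.SG
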