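import Pool.Agent.Work.MP_ebd05c_an.SG.UU

set_option autoImplicit false

open scoped BigOperators ENNReal NNReal Topology ComplexConjugate InnerProductSpace
open Finset Filter MeasureTheory

/-!
Riemann-Lebesgue. G := g as an element of Lp ℂ 2 haarAddCircle (ContinuousMap.toLp); the squares of
its Fourier coefficients are summable (hasSum_sq_fourierCoeff), so they tend to 0 along n = -k
(Summable.comp_injective, tendsto_atTop_zero), and fourierCoeff g (-k) = ∫ fourier k * g
(fourierCoeff definition: ∫ fourier (-n) t • g t; the representative of toLp is a.e. equal to g).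
-/

namespace Pool.Agent.Work.MP_ebd05c_an.SG

open Pool.Agent.Work.MP_ebd05c_an.H

theorem rl (g : C(UnitAddCircle, ℂ)) :
    Tendsto (fun k : ℕ => ∫ t, (fourier (k : ℤ) t : ℂ) * g t ∂mm) atTop (𝓝 0) := by
  have h1 := (hasSum_sq_fourierCoeff (ContinuousMap.toLp (E := ℂ) 2 AddCircle.haarAddCircle ℂ
    g)).summable
  have h2 : Summable fun k : ℕ => ‖fourierCoeff (ContinuousMap.toLp (E := ℂ) 2
      AddCircle.haarAddCircle ℂ g : UnitAddCircle → ℂ) (-(k : ℤ))‖ ^ 2 :=
    h1.comp_injective (i := fun k : ℕ => -(k : ℤ)) (by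
      intro a b hab
      simp only at hab
      omega)
  have h3 := h2.tendsto_atTop_zero
  have h4 : (fun k : ℕ => ∫ t, (fourier (k : ℤ) t : ℂ) * g t ∂mm) = fun k : ℕ =>
      fourierCoeff (ContinuousMap.toLp (E := ℂ) 2 AddCircle.haarAddCircle ℂ g :
        UnitAddCircle → ℂ) (-(k : ℤ)) := by
    funext k
    rw [fourierCoeff_toLp, fourierCoeff]
    simp only [neg_neg, smul_eq_mul]
  rw [h4, tendsto_zero_iff_norm_tendsto_zero]
  have h5 := h3.sqrt
  simpa only [Real.sqrt_sq (norm_nonneg _), Real.sqrt_zero] using h5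

end Pool.Agent.Work.MP_ebd05c_an.SG
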