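import Pool.Agent.Work.MP_ebd05c_an.SG.Far
import Pool.Agent.Work.MP_ebd05c_an.SG.Supp

set_option autoImplicit false

open scoped BigOperators ENNReal NNReal Topology ComplexConjugate InnerProductSpace
open Finset Filter MeasureTheory

/-!
θ' = update θ x α, P = PP (Iio (-h)). Let u1 = PP {m | m < x-n} u, u2 = PP {m | x-n <= m} u, so
u = u1 + u2 and |u|^2 = |u1|^2 + |u2|^2. agree_pow (θ, θ', X, Y = x-1, A = X, B = x-n-1) gives
U'^n u1 = U^n u1 (u1 is supported in [-h, x-n-1], h <= h0 <= X <= x-n-1); so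
P U'^n u1 = P U^n u1 has norm <= ε |u1| (Good; u1 vanishes below -h) and is supported in
[-X, -h-1] (supp_pow). By far, P U'^n u2 is supported in [-x, -x+n-1] with entries
sin α * u2(m+2x-n+1), so its norm is <= sin α |u2| <= ε |u2|. The supports are disjoint as
-x+n-1 < -X, so |P U'^n u|^2 = |P U'^n u1|^2 + |P U'^n u2|^2 <= ε^2 |u|^2 (entrywise: at each
position one of the two vectors vanishes; norm_sq_hasSum, HasSum.add). Conclude by taking roots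
(abs_le_of_sq_le_sq or pow_le_pow_left).
-/

namespace Pool.Agent.Work.MP_ebd05c_an.SG

open Pool.Agent.Work.MP_ebd05c_an.H

private theorem st_sum {a b c : KK} (h : ∀ m : ℤ, (c : ℤ → ℂ) m = (a : ℤ → ℂ) m + (b : ℤ → ℂ) m)
    (h0 : ∀ m : ℤ, (a : ℤ → ℂ) m = 0 ∨ (b : ℤ → ℂ) m = 0) : ‖c‖ ^ 2 = ‖a‖ ^ 2 + ‖b‖ ^ 2 := by
  refine HasSum.unique (norm_sq_hasSum c) ?_
  have h1 := (norm_sq_hasSum a).add (norm_sq_hasSum b)
  have h2 : (fun m : ℤ => ‖(c : ℤ → ℂ) m‖ ^ 2) =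
      fun m : ℤ => ‖(a : ℤ → ℂ) m‖ ^ 2 + ‖(b : ℤ → ℂ) m‖ ^ 2 := by
    funext m
    rw [h m]
    rcases h0 m with h3 | h3
    · rw [h3]
      simp
    · rw [h3]
      simp
  rw [h2]
  exact h1

private theorem st_split (x : ℤ) (u : KK) :
    (∀ m : ℤ, (u : ℤ → ℂ) m = (PP {m | m < x} u : ℤ → ℂ) m + (PP {m | x ≤ m} u : ℤ → ℂ) m) ∧
      ∀ m : ℤ, (PP {m | m < x} u : ℤ → ℂ) m = 0 ∨ (PP {m | x ≤ m} u : ℤ → ℂ) m = 0 := by
  classical
  constructor
  · intro m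
    rw [PP_apply, PP_apply]
    by_cases h : m < x
    · rw [Set.indicator_of_mem (by exact h), Set.indicator_of_notMem (by exact not_le.2 h), add_zero]
    · rw [Set.indicator_of_notMem (by exact h), Set.indicator_of_mem (by exact not_lt.1 h), zero_add]
  · intro m
    rw [PP_apply, PP_apply]
    by_cases h : m < x
    · right
      exact Set.indicator_of_notMem (by exact not_le.2 h) _
    · left
      exact Set.indicator_of_notMem (by exact h) _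

theorem small_time (θ : ℕ → ℝ) (X h0 : ℕ) (ε : ℝ) (hε : 0 ≤ ε) (hθ : Sup θ X) (hX : h0 ≤ X)
    (hG : Good θ h0 ε) (α : ℝ) (hs : 0 ≤ Real.sin α) (hs2 : Real.sin α ≤ ε) (x n : ℕ)
    (hx : X + n + 2 ≤ x) (h : ℕ) (hh : h ≤ h0) (u : KK)
    (hu : ∀ m : ℤ, m < -(h : ℤ) → (u : ℤ → ℂ) m = 0) :
    ‖PP (Set.Iio (-(h : ℤ))) ((UU (Function.update θ x α) ^ n) u)‖ ≤ ε * ‖u‖ := by
  classical
  obtain ⟨hs1, hs0⟩ := st_split ((x : ℤ) - n) u
  obtain ⟨u1, hu1⟩ : ∃ u1 : KK, u1 = PP {m | m < (x : ℤ) - n} u := ⟨_, rfl⟩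
  obtain ⟨u2, hu2⟩ : ∃ u2 : KK, u2 = PP {m | (x : ℤ) - n ≤ m} u := ⟨_, rfl⟩
  rw [← hu1, ← hu2] at hs1 hs0
  have hun : ‖u‖ ^ 2 = ‖u1‖ ^ 2 + ‖u2‖ ^ 2 := st_sum hs1 hs0
  have hu1z : ∀ m : ℤ, m < -(h : ℤ) ∨ (x : ℤ) - n ≤ m → (u1 : ℤ → ℂ) m = 0 := by
    intro m hm
    rw [hu1, PP_apply]
    by_cases h1 : m < (x : ℤ) - n
    · rw [Set.indicator_of_mem (by exact h1)]
      rcases hm with hm | hm
      · exact hu m hm
      · omega
    · exact Set.indicator_of_notMem (by exact h1) _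
  have hu2z : ∀ m : ℤ, m < (x : ℤ) - n → (u2 : ℤ → ℂ) m = 0 := by
    intro m hm
    rw [hu2, PP_apply]
    exact Set.indicator_of_notMem (by exact not_le.2 hm) _
  have hag : (UU (Function.update θ x α) ^ n) u1 = (UU θ ^ n) u1 := by
    refine agree_pow θ (Function.update θ x α) X (x - 1) hθ (fun m hm => ?_) (X : ℤ)
      ((x : ℤ) - n - 1) le_rfl (by omega) (by omega) n (by omega) u1 (fun m hm => ?_)
    · exact Function.update_of_ne (by omega) _ _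
    · apply hu1z
      omega
  obtain ⟨a, ha⟩ : ∃ a : KK, a = PP (Set.Iio (-(h : ℤ))) ((UU (Function.update θ x α) ^ n) u1) :=
    ⟨_, rfl⟩
  obtain ⟨b, hb⟩ : ∃ b : KK, b = PP (Set.Iio (-(h : ℤ))) ((UU (Function.update θ x α) ^ n) u2) :=
    ⟨_, rfl⟩
  have hanorm : ‖a‖ ≤ ε * ‖u1‖ := by
    rw [ha, hag]
    exact hG h hh n u1 fun m hm => hu1z m (Or.inl hm)
  have hasupp : ∀ m : ℤ, m < -(X : ℤ) → (a : ℤ → ℂ) m = 0 := by
    intro m hm
    rw [ha, hag, PP_apply]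
    have h1 : ((UU θ ^ n) u1 : ℤ → ℂ) m = 0 := by
      refine supp_pow θ X hθ (X : ℤ) ((x : ℤ) - n - 1) le_rfl (by omega) u1 (fun m hm => ?_) n m
        (Or.inl hm)
      apply hu1z
      omega
    by_cases h2 : m ∈ Set.Iio (-(h : ℤ))
    · rw [Set.indicator_of_mem h2, h1]
    · exact Set.indicator_of_notMem h2 _
  have hbval : ∀ m : ℤ, (b : ℤ → ℂ) m = 0 ∨ (m < -(X : ℤ) ∧
      (b : ℤ → ℂ) m = (Real.sin α : ℂ) * (u2 : ℤ → ℂ) (m + (2 * x - n + 1))) := by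
    intro m
    rw [hb, PP_apply]
    by_cases h2 : m ∈ Set.Iio (-(h : ℤ))
    · rw [Set.indicator_of_mem h2, far θ X x n hθ α hx u2 hu2z m (by
        have : m < -(h : ℤ) := h2
        omega)]
      by_cases h3 : -(x : ℤ) ≤ m ∧ m ≤ -(x : ℤ) + n - 1
      · right
        refine ⟨by omega, ?_⟩
        have e : m + 2 * (x : ℤ) - n + 1 = m + (2 * x - n + 1) := by ring
        rw [if_pos h3, e]
      · left
        rw [if_neg h3]
    · left
      exact Set.indicator_of_notMem h2 _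
  have hbnorm : ‖b‖ ≤ ε * ‖u2‖ := by
    refine norm_le_of_sq hε fun F => ?_
    have h1 : HasSum (fun m : ℤ => ‖(u2 : ℤ → ℂ) (m + (2 * x - n + 1))‖ ^ 2) (‖u2‖ ^ 2) :=
      (Equiv.addRight ((2 * x - n + 1 : ℤ))).hasSum_iff.2 (norm_sq_hasSum u2)
    have h2 : ∑ m ∈ F, ‖(b : ℤ → ℂ) m‖ ^ 2 ≤
        ∑ m ∈ F, ε ^ 2 * ‖(u2 : ℤ → ℂ) (m + (2 * x - n + 1))‖ ^ 2 := by
      refine Finset.sum_le_sum fun m _ => ?_
      rcases hbval m with h3 | ⟨_, h3⟩
      · rw [h3, norm_zero, zero_pow two_ne_zero]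
        positivity
      · rw [h3, norm_mul, mul_pow]
        refine mul_le_mul_of_nonneg_right ?_ (by positivity)
        rw [Complex.norm_real, Real.norm_eq_abs, abs_of_nonneg hs]
        exact pow_le_pow_left₀ hs hs2 2
    refine h2.trans ?_
    rw [← Finset.mul_sum]
    refine mul_le_mul_of_nonneg_left ?_ (by positivity)
    exact sum_le_hasSum F (fun m _ => by positivity) h1
  have hab : ‖PP (Set.Iio (-(h : ℤ))) ((UU (Function.update θ x α) ^ n) u)‖ ^ 2 =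
      ‖a‖ ^ 2 + ‖b‖ ^ 2 := by
    refine st_sum (fun m => ?_) (fun m => ?_)
    · have h1 : u = u1 + u2 := KK_ext fun m => hs1 m
      rw [h1, map_add, map_add, ← ha, ← hb]
      rfl
    · rcases hbval m with h3 | ⟨h4, _⟩
      · exact Or.inr h3
      · exact Or.inl (hasupp m h4)
  have hfin : ‖PP (Set.Iio (-(h : ℤ))) ((UU (Function.update θ x α) ^ n) u)‖ ^ 2 ≤
      (ε * ‖u‖) ^ 2 := by
    rw [hab, mul_pow, hun, mul_add]
    have h1 : ‖a‖ ^ 2 ≤ ε ^ 2 * ‖u1‖ ^ 2 := by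
      rw [← mul_pow]
      exact pow_le_pow_left₀ (norm_nonneg _) hanorm 2
    have h2 : ‖b‖ ^ 2 ≤ ε ^ 2 * ‖u2‖ ^ 2 := by
      rw [← mul_pow]
      exact pow_le_pow_left₀ (norm_nonneg _) hbnorm 2
    exact add_le_add h1 h2
  exact (pow_le_pow_iff_left₀ (norm_nonneg _) (by positivity) (by norm_num)).1 hfin

end Pool.Agent.Work.MP_ebd05c_an.SG
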