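import Pool.Agent.Work.MP_ebd05c_an.SG.Base
import Pool.Agent.Work.MP_01534c_gt.SpectralRep

set_option autoImplicit false

open scoped BigOperators ENNReal NNReal Topology ComplexConjugate InnerProductSpace
open Finset Filter MeasureTheory

/-!
Apply exists_specData (namespace Pool.Agent.Work.MP_01534c_gt) to N = Multiplicative ℤ and
ρ = zpowersHom of the linear isometry equivalence U of w (Unitary.linearIsometryEquiv, or build U from
w and star w), ξ = x: a finite measure ν on X and unimodular measurable c n with c (m+n) = c m c n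
(so c n = (c 1)^n) and ∫ |sum t_r c_r|^2 dν = |sum t_r U^r x|^2. For n ≠ 0 take F = {0, n}:
∫ |1 + α c_n|^2 = |x + α U^n x|^2, mass = |x|^2, so Re (α ∫ c_n) = Re (α <x, U^n x>) for |α| = 1 (α = 1, I):
∫ c_n dν = <x, U^n x>; n = 0 by mass. Let φ : X -> UnitAddCircle, toCircle (φ p) = c_1 p (the
homeomorphism AddCircle.homeomorphCircle' / AddCircle.homeomorphCircle of ℝ/ℤ and the circle; φ is
measurable) and μ = ν.map φ: ∫ fourier n dμ = ∫ (toCircle (φ p))^n dν = ∫ c_n dν (integral_map,
fourier_apply, toCircle_zsmul).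
-/

namespace Pool.Agent.Work.MP_ebd05c_an.SG

open Pool.Agent.Work.MP_ebd05c_an.H

private theorem norm_add_smul_sq {H : Type} [NormedAddCommGroup H] [InnerProductSpace ℂ H]
    (x y : H) (a : ℂ) : ‖x + a • y‖ ^ 2 = ‖x‖ ^ 2 + ‖a‖ ^ 2 * ‖y‖ ^ 2 + 2 * (a * ⟪x, y⟫_ℂ).re := by
  have h := @norm_add_sq ℂ H _ _ _ x (a • y)
  rw [h, inner_smul_right, norm_smul]
  simp only [RCLike.re_to_complex]
  ring

theorem exists_spec {H : Type} [NormedAddCommGroup H] [InnerProductSpace ℂ H] [CompleteSpace H]
    (w : unitary (H →L[ℂ] H)) (x : H) : ∃ μ : Measure UnitAddCircle, IsFiniteMeasure μ ∧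
      ∀ n : ℤ, ⟪x, ((w ^ n : unitary (H →L[ℂ] H)) : H →L[ℂ] H) x⟫_ℂ = ∫ t, fourier n t ∂μ := by
  classical
  let W : H ≃ₗᵢ[ℂ] H := Unitary.linearIsometryEquiv w
  have hWn : ∀ (n : ℤ) (y : H), (W ^ n) y = ((w ^ n : unitary (H →L[ℂ] H)) : H →L[ℂ] H) y := by
    intro n y
    have h1 : W ^ n = Unitary.linearIsometryEquiv (w ^ n) := (map_zpow _ _ _).symm
    rw [h1]
    rfl
  let ρ : Multiplicative ℤ →* (H ≃ₗᵢ[ℂ] H) := zpowersHom _ W
  have hρ : ∀ n : ℤ, ρ (Multiplicative.ofAdd n) = W ^ n := fun n => rfl
  obtain ⟨D⟩ := Pool.Agent.Work.MP_01534c_gt.exists_specData ρ x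
  let mX : MeasurableSpace D.X := D.mX
  have hfin : IsFiniteMeasure D.μ := D.fin
  let f : D.X → (Multiplicative ℤ →* Circle) := fun p =>
    { toFun := fun r => ⟨D.c r p, by
        rw [Submonoid.unitSphere, ← SetLike.mem_coe]
        simpa using D.norm_c r p⟩
      map_one' := by
        apply Subtype.ext
        have h1 := D.mul_c 1 1 p
        rw [one_mul] at h1
        have h2 : D.c 1 p ≠ 0 := by
          intro h
          have := D.norm_c 1 p
          rw [h] at this
          simp at this
        have h3 : D.c 1 p * 1 = D.c 1 p * D.c 1 p := by rw [mul_one]; exact h1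
        exact (mul_left_cancel₀ h2 h3).symm
      map_mul' := fun r s => by
        apply Subtype.ext
        exact D.mul_c r s p }
  have hf : ∀ p r, ((f p r : Circle) : ℂ) = D.c r p := fun p r => rfl
  let φ : D.X → UnitAddCircle := fun p =>
    (AddCircle.homeomorphCircle (one_ne_zero : (1 : ℝ) ≠ 0)).symm (f p (Multiplicative.ofAdd 1))
  have hφm : Measurable φ := by
    let mC : MeasurableSpace Circle := MeasurableSpace.comap (fun z : Circle => (z : ℂ)) inferInstance
    have bC : BorelSpace Circle := ⟨by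
      have h2 := borel_comap (f := fun z : Circle => (z : ℂ)) (t := inferInstance)
      rw [← BorelSpace.measurable_eq (α := ℂ)] at h2
      exact h2.symm⟩
    refine (AddCircle.homeomorphCircle (one_ne_zero : (1 : ℝ) ≠ 0)).symm.continuous.measurable.comp ?_
    exact measurable_comap_iff.mpr (D.meas _)
  have hφ : ∀ (n : ℤ) p, fourier n (φ p) = D.c (Multiplicative.ofAdd n) p := by
    intro n p
    rw [fourier_apply, AddCircle.toCircle_zsmul]
    have h1 : AddCircle.toCircle (φ p) = f p (Multiplicative.ofAdd 1) := by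
      rw [← AddCircle.homeomorphCircle_apply (one_ne_zero : (1 : ℝ) ≠ 0)]
      exact Homeomorph.apply_symm_apply _ _
    rw [h1, ← map_zpow, ← hf]
    congr 2
    rw [← ofAdd_zsmul]
    simp
  refine ⟨D.μ.map φ, inferInstance, fun n => ?_⟩
  rw [integral_map hφm.aemeasurable (by fun_prop)]
  simp_rw [hφ]
  rw [← hWn]
  have hint : ∀ m : ℤ, Integrable (fun p => D.c (Multiplicative.ofAdd m) p) D.μ := by
    intro m
    refine Integrable.mono' (integrable_const (1 : ℝ)) (D.meas _).aestronglyMeasurable ?_
    exact Filter.Eventually.of_forall fun p => (D.norm_c _ p).le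
  have hc0 : ∀ p, D.c (Multiplicative.ofAdd 0) p = 1 := by
    intro p
    have := (f p).map_one
    have h2 := congrArg (fun z : Circle => (z : ℂ)) this
    exact h2
  by_cases hn : n = 0
  · subst hn
    simp_rw [hc0]
    rw [zpow_zero, integral_const, D.mass]
    simp only [LinearIsometryEquiv.coe_one, id_eq, inner_self_eq_norm_sq_to_K]
    simp
  · have key : ∀ a : ℂ, ‖a‖ = 1 → (a * ⟪x, (W ^ n) x⟫_ℂ).re =
        (a * ∫ p, D.c (Multiplicative.ofAdd n) p ∂D.μ).re := by
      intro a ha
      have hne : (Multiplicative.ofAdd (0 : ℤ)) ≠ Multiplicative.ofAdd n := by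
        intro h
        exact hn (Multiplicative.ofAdd.injective h).symm
      have h1 := D.int_eq {Multiplicative.ofAdd 0, Multiplicative.ofAdd n}
        (fun r => if r = Multiplicative.ofAdd 0 then 1 else a)
      simp only [Finset.sum_pair hne, if_true, if_neg hne.symm, hc0, one_smul, mul_one,
        hρ, zpow_zero] at h1
      have h2 : ‖(1 : H ≃ₗᵢ[ℂ] H) x + a • (W ^ n) x‖ ^ 2 =
          ‖x‖ ^ 2 + ‖x‖ ^ 2 + 2 * (a * ⟪x, (W ^ n) x⟫_ℂ).re := by
        rw [LinearIsometryEquiv.coe_one, id_eq, norm_add_smul_sq, ha,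
          LinearIsometryEquiv.norm_map]
        ring
      rw [h2] at h1
      have h3 : ∀ p, ‖(1 : ℂ) + a * D.c (Multiplicative.ofAdd n) p‖ ^ 2 =
          2 + 2 * (a * D.c (Multiplicative.ofAdd n) p).re := by
        intro p
        have h4 := norm_add_smul_sq (1 : ℂ) (D.c (Multiplicative.ofAdd n) p) a
        rw [smul_eq_mul, ha, D.norm_c] at h4
        rw [h4]
        simp
        ring
      simp_rw [h3] at h1
      have hre : ∫ p, (a * D.c (Multiplicative.ofAdd n) p).re ∂D.μ =
          (a * ∫ p, D.c (Multiplicative.ofAdd n) p ∂D.μ).re := by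
        rw [← integral_const_mul]
        have := integral_re ((hint n).const_mul a)
        simpa using this
      have hi : Integrable (fun p => (a * D.c (Multiplicative.ofAdd n) p).re) D.μ := by
        have := ((hint n).const_mul a).re
        simpa using this
      rw [integral_add (integrable_const _) (hi.const_mul 2), integral_const, D.mass,
        integral_const_mul, hre, smul_eq_mul] at h1
      linarith
    apply Complex.ext
    · have := key 1 (by simp)
      simpa using this
    · have := key Complex.I (by simp)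
      simpa using this

end Pool.Agent.Work.MP_ebd05c_an.SG
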