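import Pool.Agent.Work.MP_ebd05c_an.SG.Bessel

set_option autoImplicit false

open scoped BigOperators ENNReal NNReal Topology ComplexConjugate InnerProductSpace
open Finset Filter MeasureTheory

/-!
Let SQ(k) be the claim. For k > X and for k <= -X-1 it follows from bessel (with F = image of range N
under the cast, nonnegative terms with bounded partial sums: summable_of_sum_range_le; the cast
zpow_natCast). Recurrence (UU_apply, pow_succ'): with v_n = U^n y,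
v_(n+1)(m+1) = cos(ang m) v_n(m) + sin(ang m) v_n(sgm m).
(1) m >= 0, SQ(m+1) and SQ(-m-1) give SQ(m): v_n(m) = (v_(n+1)(m+1) - sin(ang m) v_n(-m-1)) / cos(θ m),
|a - b|^2 <= 2|a|^2 + 2|b|^2, and a summable sequence shifted by one is summable.
(2) m >= 0, SQ(m) and SQ(-m-1) give SQ(-m): apply the recurrence at the position -m-1
(sgm (-m-1) = m): v_(n+1)(-m) = cos(.) v_n(-m-1) + sin(.) v_n(m); summable_nat_add_iff 1.
So J(m) := SQ(m+1) and SQ(-m-1) implies SQ(m) and SQ(-m), that is J(m-1); J(X) holds; descending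
induction gives J(m) for all -1 <= m <= X, so SQ holds everywhere.
-/

namespace Pool.Agent.Work.MP_ebd05c_an.SG

open Pool.Agent.Work.MP_ebd05c_an.H

private theorem ss_rec (θ : ℕ → ℝ) (y : KK) (n : ℕ) (m : ℤ) :
    ((UU θ ^ (n + 1)) y : ℤ → ℂ) (m + 1) =
      (Real.cos (ang θ m) : ℂ) * ((UU θ ^ n) y : ℤ → ℂ) m +
        (Real.sin (ang θ m) : ℂ) * ((UU θ ^ n) y : ℤ → ℂ) (sgm m) := by
  rw [pow_succ']
  exact UU_apply θ ((UU θ ^ n) y) m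

private theorem ss_two (a b : ℂ) (s : ℝ) (hs : |s| ≤ 1) (c : ℝ) (hc : |c| ≤ 1) :
    ‖(c : ℂ) * a + (s : ℂ) * b‖ ^ 2 ≤ 2 * ‖a‖ ^ 2 + 2 * ‖b‖ ^ 2 := by
  have h1 : ‖(c : ℂ) * a + (s : ℂ) * b‖ ≤ ‖a‖ + ‖b‖ := by
    refine (norm_add_le _ _).trans (add_le_add ?_ ?_)
    · rw [norm_mul, Complex.norm_real, Real.norm_eq_abs]
      exact mul_le_of_le_one_left (norm_nonneg _) hc
    · rw [norm_mul, Complex.norm_real, Real.norm_eq_abs]
      exact mul_le_of_le_one_left (norm_nonneg _) hs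
  have h2 : ‖(c : ℂ) * a + (s : ℂ) * b‖ ^ 2 ≤ (‖a‖ + ‖b‖) ^ 2 :=
    pow_le_pow_left₀ (norm_nonneg _) h1 2
  nlinarith [sq_nonneg (‖a‖ - ‖b‖)]

private theorem ss_one (θ : ℕ → ℝ) (hc : ∀ m, 0 < Real.cos (θ m)) (y : KK) (m : ℤ) (hm : 0 ≤ m)
    (h1 : Summable fun n : ℕ => ‖((UU θ ^ n) y : ℤ → ℂ) (m + 1)‖ ^ 2)
    (h2 : Summable fun n : ℕ => ‖((UU θ ^ n) y : ℤ → ℂ) (-m - 1)‖ ^ 2) :
    Summable fun n : ℕ => ‖((UU θ ^ n) y : ℤ → ℂ) m‖ ^ 2 := by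
  obtain ⟨c, hcd⟩ : ∃ c, c = Real.cos (ang θ m) := ⟨_, rfl⟩
  have hc0 : 0 < c := by
    rw [hcd]
    unfold ang
    rw [if_pos hm, Real.cos_neg]
    exact hc _
  obtain ⟨s, hsd⟩ : ∃ s, s = Real.sin (ang θ m) := ⟨_, rfl⟩
  have hs : |s| ≤ 1 := by
    rw [hsd]
    exact Real.abs_sin_le_one _
  have h1' : Summable fun n : ℕ => ‖((UU θ ^ (n + 1)) y : ℤ → ℂ) (m + 1)‖ ^ 2 :=
    (summable_nat_add_iff 1).2 h1
  have h3 : Summable fun n : ℕ => (c⁻¹) ^ 2 * (2 * ‖((UU θ ^ (n + 1)) y : ℤ → ℂ) (m + 1)‖ ^ 2 +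
      2 * ‖((UU θ ^ n) y : ℤ → ℂ) (-m - 1)‖ ^ 2) :=
    ((h1'.mul_left 2).add (h2.mul_left 2)).mul_left _
  refine Summable.of_nonneg_of_le (fun n => sq_nonneg _) (fun n => ?_) h3
  have h4 := ss_rec θ y n m
  rw [← hcd, ← hsd] at h4
  have h5 : sgm m = -m - 1 := rfl
  rw [h5] at h4
  have hcc : (c : ℂ) ≠ 0 := by
    rw [Ne, Complex.ofReal_eq_zero]
    exact hc0.ne'
  have h6 : ((UU θ ^ n) y : ℤ → ℂ) m = ((c⁻¹ : ℝ) : ℂ) *
      (((1 : ℝ) : ℂ) * ((UU θ ^ (n + 1)) y : ℤ → ℂ) (m + 1) +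
        ((-s : ℝ) : ℂ) * ((UU θ ^ n) y : ℤ → ℂ) (-m - 1)) := by
    rw [h4]
    push_cast
    field_simp
    ring
  rw [h6, norm_mul, mul_pow, Complex.norm_real, Real.norm_eq_abs, sq_abs]
  refine mul_le_mul_of_nonneg_left ?_ (sq_nonneg _)
  exact ss_two _ _ _ (by rw [abs_neg]; exact hs) _ (by rw [abs_one])

private theorem ss_neg (θ : ℕ → ℝ) (y : KK) (m : ℤ)
    (h1 : Summable fun n : ℕ => ‖((UU θ ^ n) y : ℤ → ℂ) m‖ ^ 2)
    (h2 : Summable fun n : ℕ => ‖((UU θ ^ n) y : ℤ → ℂ) (-m - 1)‖ ^ 2) :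
    Summable fun n : ℕ => ‖((UU θ ^ n) y : ℤ → ℂ) (-m)‖ ^ 2 := by
  have h3 : Summable fun n : ℕ => (2 * ‖((UU θ ^ n) y : ℤ → ℂ) (-m - 1)‖ ^ 2 +
      2 * ‖((UU θ ^ n) y : ℤ → ℂ) m‖ ^ 2) := (h2.mul_left 2).add (h1.mul_left 2)
  refine (summable_nat_add_iff 1).1 ?_
  refine Summable.of_nonneg_of_le (fun n => sq_nonneg _) (fun n => ?_) h3
  have h4 := ss_rec θ y n (-m - 1)
  have h5 : sgm (-m - 1) = m := by
    unfold sgm
    ring
  have h6 : -m - 1 + 1 = -m := by ring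
  rw [h5, h6] at h4
  rw [h4]
  exact ss_two _ _ _ (Real.abs_sin_le_one _) _ (Real.abs_cos_le_one _)

theorem sqsum (θ : ℕ → ℝ) (X : ℕ) (hθ : Sup θ X) (hc : ∀ m, 0 < Real.cos (θ m)) (y : KK) (k : ℤ) :
    Summable fun n : ℕ => ‖((UU θ ^ n) y : ℤ → ℂ) k‖ ^ 2 := by
  have hbase : ∀ k : ℤ, ((X : ℤ) < k ∨ k ≤ -(X : ℤ) - 1) →
      Summable fun n : ℕ => ‖((UU θ ^ n) y : ℤ → ℂ) k‖ ^ 2 := by
    intro k hk
    refine summable_of_sum_range_le (c := ‖y‖ ^ 2) (fun n => sq_nonneg _) fun N => ?_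
    have h1 := bessel θ X hθ k hk y ((range N).map Nat.castEmbedding)
    rw [sum_map] at h1
    simp only [Nat.castEmbedding_apply, zpow_natCast] at h1
    exact h1
  have hJ : ∀ j : ℕ, j ≤ X + 1 →
      (Summable fun n : ℕ => ‖((UU θ ^ n) y : ℤ → ℂ) ((X : ℤ) - j + 1)‖ ^ 2) ∧
      Summable fun n : ℕ => ‖((UU θ ^ n) y : ℤ → ℂ) (-((X : ℤ) - j) - 1)‖ ^ 2 := by
    intro j
    induction j with
    | zero =>
      intro _
      exact ⟨hbase _ (Or.inl (by push_cast; omega)), hbase _ (Or.inr (by push_cast; omega))⟩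
    | succ j ih =>
      intro hj
      obtain ⟨h1, h2⟩ := ih (by omega)
      have h3 := ss_one θ hc y ((X : ℤ) - j) (by omega) h1 h2
      have h4 := ss_neg θ y ((X : ℤ) - j) h3 h2
      have e1 : (X : ℤ) - ((j + 1 : ℕ) : ℤ) + 1 = (X : ℤ) - j := by push_cast; ring
      have e2 : -((X : ℤ) - ((j + 1 : ℕ) : ℤ)) - 1 = -((X : ℤ) - j) := by push_cast; ring
      rw [e1, e2]
      exact ⟨h3, h4⟩
  by_cases hk : (X : ℤ) < k ∨ k ≤ -(X : ℤ) - 1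
  · exact hbase k hk
  · rcases le_or_gt 0 k with h0 | h0
    · have h1 := (hJ ((X : ℤ) - k + 1).toNat (by omega)).1
      have e1 : (X : ℤ) - (((X : ℤ) - k + 1).toNat : ℤ) + 1 = k := by omega
      rw [e1] at h1
      exact h1
    · have h1 := (hJ ((X : ℤ) + k + 1).toNat (by omega)).2
      have e1 : -((X : ℤ) - (((X : ℤ) + k + 1).toNat : ℤ)) - 1 = k := by omega
      rw [e1] at h1
      exact h1

end Pool.Agent.Work.MP_ebd05c_an.SG
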