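import Pool.Agent.Work.MP_ebd05c_an.SG.Base

set_option autoImplicit false

open scoped BigOperators ENNReal NNReal Topology ComplexConjugate InnerProductSpace
open Finset Filter MeasureTheory

/-!
κ = r^I, h i = i L, h0 = I L, N(m) := card {i < I | i L < -m} (so i in this set iff m < -(h i)),
w m = r^(N m), γ i = r^(2(i+1)) - r^(2i) >= 0. The set is an initial segment of range I (i < j,
j L < -m gives i L < -m), hence = range (N m), and 1 + sum over i < N m of γ i = r^(2 N m)
(telescoping) = w m ^ 2. right: N m = 0 for m >= 0. left: m < -I L gives N m = I. anti: N (m+1) <= N m.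
slow: N(m-n) <= N(m) + 1 for n <= L: i + 1 in the set of m - n means (i+1) L < -m + n <= -m + L, so
i L < -m, i in the set of m (then the sets are range a, range b with a <= b + 1).
-/

namespace Pool.Agent.Work.MP_ebd05c_an.SG

open Pool.Agent.Work.MP_ebd05c_an.H

private def st_k (L I : ℕ) (m : ℤ) : ℕ := min I (((-m).toNat + L - 1) / L)

private theorem st_lt (L I : ℕ) (hL : 1 ≤ L) (m : ℤ) (i : ℕ) (hi : i < I) :
    m < -((i * L : ℕ) : ℤ) ↔ i < st_k L I m := by
  have h1 : i < ((-m).toNat + L - 1) / L ↔ (i + 1) * L ≤ (-m).toNat + L - 1 := by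
    rw [← Nat.le_div_iff_mul_le (by omega)]
    exact Iff.rfl
  unfold st_k
  rw [lt_min_iff, h1, Nat.add_mul, one_mul]
  generalize i * L = q
  omega

theorem exists_stair (r : ℝ) (hr : 1 ≤ r) (L : ℕ) (hL : 1 ≤ L) (I : ℕ) :
    ∃ (h0 : ℕ) (γ : ℕ → ℝ) (h : ℕ → ℕ) (w : ℤ → ℝ), Stair r (r ^ I) L h0 I γ h w := by
  have hr0 : 0 < r := by linarith
  refine ⟨I * L, fun i => r ^ (2 * (i + 1)) - r ^ (2 * i), fun i => i * L,
    fun m => r ^ st_k L I m, ?_⟩
  constructor
  · intro i
    have : r ^ (2 * i) ≤ r ^ (2 * (i + 1)) := pow_le_pow_right₀ hr (by omega)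
    simpa using this
  · intro i hi
    exact Nat.mul_le_mul_right L hi.le
  · intro m
    have hk : st_k L I m ≤ I := min_le_left _ _
    have h1 : ∀ i ∈ range I, (if m < -((i * L : ℕ) : ℤ) then
        r ^ (2 * (i + 1)) - r ^ (2 * i) else 0) =
        if i < st_k L I m then r ^ (2 * (i + 1)) - r ^ (2 * i) else 0 := by
      intro i hi
      have h2 := st_lt L I hL m i (Finset.mem_range.1 hi)
      by_cases h3 : i < st_k L I m
      · rw [if_pos (h2.2 h3), if_pos h3]
      · rw [if_neg (fun h4 => h3 (h2.1 h4)), if_neg h3]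
    rw [Finset.sum_congr rfl h1, ← Finset.sum_filter]
    have h2 : (range I).filter (fun i => i < st_k L I m) = range (st_k L I m) := by
      ext i
      simp only [Finset.mem_filter, Finset.mem_range]
      omega
    rw [h2, Finset.sum_range_sub (fun i => r ^ (2 * i)), ← pow_mul, mul_comm _ 2]
    simp
  · intro m
    exact one_le_pow₀ hr
  · intro m
    exact pow_le_pow_right₀ hr (min_le_left _ _)
  · intro m hm
    have h1 : (-m).toNat = 0 := by omega
    have h2 : (0 + L - 1) / L = 0 := Nat.div_eq_of_lt (by omega)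
    show r ^ st_k L I m = 1
    unfold st_k
    rw [h1, h2, Nat.min_zero, pow_zero]
  · intro m hm
    have h1 : I ≤ ((-m).toNat + L - 1) / L := by
      rw [Nat.le_div_iff_mul_le (by omega)]
      generalize I * L = q at hm ⊢
      omega
    show r ^ st_k L I m = r ^ I
    unfold st_k
    rw [min_eq_left h1]
  · intro m
    apply pow_le_pow_right₀ hr
    unfold st_k
    apply min_le_min le_rfl
    apply Nat.div_le_div_right
    omega
  · intro m n hn
    have h1 : st_k L I (m - n) ≤ st_k L I m + 1 := by
      unfold st_k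
      have h2 : ((-(m - n)).toNat + L - 1) / L ≤ ((-m).toNat + L - 1) / L + 1 := by
        rw [← Nat.add_div_right _ (by omega : 0 < L)]
        apply Nat.div_le_div_right
        omega
      omega
    calc r ^ st_k L I (m - n) ≤ r ^ (st_k L I m + 1) := pow_le_pow_right₀ hr h1
      _ = r * r ^ st_k L I m := by rw [pow_succ]; ring

end Pool.Agent.Work.MP_ebd05c_an.SG
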