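import Pool.Agent.Work.MP_ebd05c_an.SG.UU

set_option autoImplicit false

open scoped BigOperators ENNReal NNReal Topology ComplexConjugate InnerProductSpace
open Finset Filter MeasureTheory

/-!
(U^n y)(m) = <e_m, U^n y> = <U^(-n) e_m, y> (inner_ee, inner_map_map). Choose K natural with |n| <= K for
n in F and u = U^(-K) e_m, |u| = 1: U^(-n) e_m = U^(K-n) u with K - n a natural number <= 2K, and
n -> (K - n).toNat is injective on F. So the sum is <= sum over j < 2K+1 of |<U^j u, y>|^2 <= C (UO_pow,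
zpow_natCast).
-/

namespace Pool.Agent.Work.MP_ebd05c_an.SG

open Pool.Agent.Work.MP_ebd05c_an.H

theorem two_sided (θ : ℕ → ℝ) (y : KK) (C : ℝ)
    (h : ∀ (N : ℕ) (u : KK), ∑ n ∈ range N, ‖⟪(UO θ ^ n) u, y⟫_ℂ‖ ^ 2 ≤ C * ‖u‖ ^ 2) (m : ℤ)
    (F : Finset ℤ) : ∑ n ∈ F, ‖((UU θ ^ n) y : ℤ → ℂ) m‖ ^ 2 ≤ C := by
  classical
  set K : ℕ := F.sup Int.natAbs with hK
  have hKn : ∀ n ∈ F, -(K : ℤ) ≤ n ∧ n ≤ K := by
    intro n hn
    have h1 : n.natAbs ≤ K := Finset.le_sup (f := Int.natAbs) hn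
    omega
  set u : KK := (UU θ ^ (-(K : ℤ))) (ee m) with hu
  have hu1 : ‖u‖ = 1 := by
    rw [hu, LinearIsometryEquiv.norm_map, norm_ee]
  have key : ∀ n ∈ F, ‖((UU θ ^ n) y : ℤ → ℂ) m‖ ^ 2 =
      ‖⟪(UO θ ^ ((K : ℤ) - n).toNat) u, y⟫_ℂ‖ ^ 2 := by
    intro n hn
    have h1 := hKn n hn
    have h2 : (((K : ℤ) - n).toNat : ℤ) = (K : ℤ) - n := Int.toNat_of_nonneg (by omega)
    have h3 : (UO θ ^ ((K : ℤ) - n).toNat) u = (UU θ ^ (-n)) (ee m) := by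
      rw [UO_pow, ← zpow_natCast, h2, hu]
      change (UU θ ^ ((K : ℤ) - n) * UU θ ^ (-(K : ℤ))) (ee m) = _
      rw [← zpow_add]
      congr 2
      ring
    rw [h3, ← inner_ee m ((UU θ ^ n) y)]
    have h4 : ee m = (UU θ ^ n) ((UU θ ^ (-n)) (ee m)) := by
      change ee m = (UU θ ^ n * UU θ ^ (-n)) (ee m)
      rw [← zpow_add, add_neg_cancel, zpow_zero]
      rfl
    conv_lhs => rw [h4]
    rw [LinearIsometryEquiv.inner_map_map]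
  rw [Finset.sum_congr rfl key]
  have hinj : Set.InjOn (fun n : ℤ => ((K : ℤ) - n).toNat) F := by
    intro a ha b hb hab
    have h1 := hKn a ha
    have h2 := hKn b hb
    simp only at hab
    omega
  have h5 : ∑ n ∈ F, ‖⟪(UO θ ^ ((K : ℤ) - n).toNat) u, y⟫_ℂ‖ ^ 2 =
      ∑ j ∈ F.image (fun n : ℤ => ((K : ℤ) - n).toNat), ‖⟪(UO θ ^ j) u, y⟫_ℂ‖ ^ 2 :=
    (Finset.sum_image (f := fun j : ℕ => ‖⟪(UO θ ^ j) u, y⟫_ℂ‖ ^ 2) hinj).symm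
  rw [h5]
  have h6 : F.image (fun n : ℤ => ((K : ℤ) - n).toNat) ⊆ range (2 * K + 1) := by
    intro j hj
    obtain ⟨n, hn, rfl⟩ := Finset.mem_image.1 hj
    have h1 := hKn n hn
    rw [Finset.mem_range]
    omega
  calc ∑ j ∈ F.image (fun n : ℤ => ((K : ℤ) - n).toNat), ‖⟪(UO θ ^ j) u, y⟫_ℂ‖ ^ 2
      ≤ ∑ j ∈ range (2 * K + 1), ‖⟪(UO θ ^ j) u, y⟫_ℂ‖ ^ 2 :=
        Finset.sum_le_sum_of_subset_of_nonneg h6 fun _ _ _ => sq_nonneg _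
    _ ≤ C * ‖u‖ ^ 2 := h _ _
    _ = C := by rw [hu1, one_pow, mul_one]

end Pool.Agent.Work.MP_ebd05c_an.SG
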