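import Pool.Agent.Work.MP_ebd05c_an.SG.Base

set_option autoImplicit false

open scoped BigOperators ENNReal NNReal Topology ComplexConjugate InnerProductSpace
open Finset Filter MeasureTheory

/-!
The coined shift as a unitary operator.
Put F = wo (m -> m-1) (cos (ang (m-1))) + wo (m -> -m) (sin (ang (m-1))), so that
(F u)(m) = cos(ang(m-1)) u(m-1) + sin(ang(m-1)) u(-m), and note sgm (m-1) = -m.
Put G = wo (m -> m+1) (cos (ang m)) + wo (m -> -m) (- sin (ang m)), so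
(G v)(m) = cos(ang m) v(m+1) - sin(ang m) v(-m).
Since ang (sgm m) = - ang m (check the two cases 0 <= m, m < 0), also ang (-m) = - ang (m-1), hence
F (G v) = v and G (F u) = u by cos^2 + sin^2 = 1 (entrywise).
Norm: sum_m |(F u)(m+1)|^2 = sum_m |c_m u(m) + s_m u(sgm m)|^2 =: S. Reindexing by the involution sgm,
S = sum_m |c_m u(sgm m) - s_m u(m)|^2, and adding: 2 S = sum_m (|u(m)|^2 + |u(sgm m)|^2) = 2 |u|^2
(|c a + s b|^2 + |c b - s a|^2 = |a|^2 + |b|^2 for real c, s with c^2 + s^2 = 1).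
Use norm_sq_hasSum, Equiv.tsum_eq / HasSum via Equiv.hasSum_iff.
Then LinearIsometryEquiv from F (linear, norm preserving) with inverse G.
-/

namespace Pool.Agent.Work.MP_ebd05c_an.SG

open Pool.Agent.Work.MP_ebd05c_an.H

theorem ang_sgm (θ : ℕ → ℝ) (m : ℤ) : ang θ (sgm m) = -ang θ m := by
  unfold ang sgm
  by_cases h : 0 ≤ m
  · rw [if_neg (by omega), if_pos h, neg_neg]
    congr 2
    omega
  · rw [if_pos (by omega), if_neg h]

private theorem uEx_sgm (m : ℤ) : sgm (sgm m) = m := by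
  unfold sgm
  omega

private def uExE : ℤ ≃ ℤ where
  toFun := sgm
  invFun := sgm
  left_inv := uEx_sgm
  right_inv := uEx_sgm

private theorem uEx_cos (x : ℝ) : ‖((Real.cos x : ℝ) : ℂ)‖ ≤ 1 := by
  rw [Complex.norm_real, Real.norm_eq_abs]
  exact Real.abs_cos_le_one x

private theorem uEx_sin (x : ℝ) : ‖((Real.sin x : ℝ) : ℂ)‖ ≤ 1 := by
  rw [Complex.norm_real, Real.norm_eq_abs]
  exact Real.abs_sin_le_one x

private theorem uEx_F (θ : ℕ → ℝ) : ∃ F : KK →L[ℂ] KK, ∀ (u : KK) (m : ℤ),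
    (F u : ℤ → ℂ) (m + 1) = (Real.cos (ang θ m) : ℂ) * (u : ℤ → ℂ) m +
      (Real.sin (ang θ m) : ℂ) * (u : ℤ → ℂ) (sgm m) := by
  refine ⟨wo (Equiv.subRight 1) (fun m => (Real.cos (ang θ (m - 1)) : ℂ)) +
    wo (Equiv.neg ℤ) (fun m => (Real.sin (ang θ (m - 1)) : ℂ)), fun u m => ?_⟩
  rw [ContinuousLinearMap.add_apply, lp.coeFn_add, Pi.add_apply,
    wo_apply _ _ ⟨1, zero_le_one, fun j => uEx_cos _⟩,
    wo_apply _ _ ⟨1, zero_le_one, fun j => uEx_sin _⟩]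
  have h1 : (m + 1 : ℤ) - 1 = m := by ring
  have h2 : (Equiv.subRight (1 : ℤ)) (m + 1) = m := h1
  have h3 : (Equiv.neg ℤ) (m + 1) = sgm m := by
    show -(m + 1) = -m - 1
    ring
  rw [h1, h2, h3]

private theorem uEx_G (θ : ℕ → ℝ) : ∃ G : KK →L[ℂ] KK, ∀ (v : KK) (m : ℤ),
    (G v : ℤ → ℂ) m = (Real.cos (ang θ m) : ℂ) * (v : ℤ → ℂ) (m + 1) -
      (Real.sin (ang θ m) : ℂ) * (v : ℤ → ℂ) (-m) := by
  refine ⟨wo (Equiv.addRight 1) (fun m => (Real.cos (ang θ m) : ℂ)) +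
    wo (Equiv.neg ℤ) (fun m => -(Real.sin (ang θ m) : ℂ)), fun v m => ?_⟩
  rw [ContinuousLinearMap.add_apply, lp.coeFn_add, Pi.add_apply,
    wo_apply _ _ ⟨1, zero_le_one, fun j => uEx_cos _⟩,
    wo_apply _ _ ⟨1, zero_le_one, fun j => by rw [norm_neg]; exact uEx_sin _⟩]
  have h2 : (Equiv.addRight (1 : ℤ)) m = m + 1 := rfl
  have h3 : (Equiv.neg ℤ) m = -m := rfl
  rw [h2, h3]
  ring

private theorem uEx_id (c s : ℝ) (h : s ^ 2 + c ^ 2 = 1) (a b : ℂ) :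
    ‖(c : ℂ) * a + (s : ℂ) * b‖ ^ 2 + ‖(c : ℂ) * b - (s : ℂ) * a‖ ^ 2 = ‖a‖ ^ 2 + ‖b‖ ^ 2 := by
  rw [Complex.sq_norm, Complex.sq_norm, Complex.sq_norm, Complex.sq_norm, Complex.normSq_apply,
    Complex.normSq_apply, Complex.normSq_apply, Complex.normSq_apply]
  simp only [Complex.add_re, Complex.add_im, Complex.sub_re, Complex.sub_im, Complex.mul_re,
    Complex.mul_im, Complex.ofReal_re, Complex.ofReal_im]
  linear_combination (a.re ^ 2 + a.im ^ 2 + b.re ^ 2 + b.im ^ 2) * h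

theorem exists_U (θ : ℕ → ℝ) : ∃ U : KK ≃ₗᵢ[ℂ] KK, ∀ (u : KK) (m : ℤ),
    (U u : ℤ → ℂ) (m + 1) = (Real.cos (ang θ m) : ℂ) * (u : ℤ → ℂ) m +
      (Real.sin (ang θ m) : ℂ) * (u : ℤ → ℂ) (sgm m) := by
  obtain ⟨F, hF⟩ := uEx_F θ
  obtain ⟨G, hG⟩ := uEx_G θ
  have hcs : ∀ x : ℝ, ((Real.sin x : ℝ) : ℂ) ^ 2 + ((Real.cos x : ℝ) : ℂ) ^ 2 = 1 := by
    intro x
    have h := Real.sin_sq_add_cos_sq x
    exact_mod_cast congrArg (fun t : ℝ => (t : ℂ)) h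
  have hsg : ∀ m : ℤ, sgm m + 1 = -m := by
    intro m
    unfold sgm
    ring
  have hsn : ∀ m : ℤ, -(sgm m) = m + 1 := by
    intro m
    unfold sgm
    ring
  have hFs : ∀ (u : KK) (m : ℤ), (F u : ℤ → ℂ) (-m) =
      (Real.cos (ang θ m) : ℂ) * (u : ℤ → ℂ) (sgm m) -
        (Real.sin (ang θ m) : ℂ) * (u : ℤ → ℂ) m := by
    intro u m
    rw [← hsg m, hF, ang_sgm, Real.cos_neg, Real.sin_neg, uEx_sgm, Complex.ofReal_neg]
    ring
  have hFG : ∀ v, F (G v) = v := by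
    intro v
    refine KK_ext fun m => ?_
    obtain ⟨k, rfl⟩ : ∃ k, m = k + 1 := ⟨m - 1, by ring⟩
    rw [hF, hG, hG, ang_sgm, Real.cos_neg, Real.sin_neg, hsg, hsn, Complex.ofReal_neg]
    linear_combination ((v : ℤ → ℂ) (k + 1)) * hcs (ang θ k)
  have hGF : ∀ u, G (F u) = u := by
    intro u
    refine KK_ext fun m => ?_
    rw [hG, hF, hFs]
    linear_combination ((u : ℤ → ℂ) m) * hcs (ang θ m)
  have hnorm : ∀ u, ‖F u‖ = ‖u‖ := by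
    intro u
    have h1 : HasSum (fun m : ℤ => ‖(F u : ℤ → ℂ) (m + 1)‖ ^ 2) (‖F u‖ ^ 2) :=
      (Equiv.hasSum_iff (Equiv.addRight (1 : ℤ))).2 (norm_sq_hasSum (F u))
    have h2 : HasSum (fun m : ℤ => ‖(F u : ℤ → ℂ) (-m)‖ ^ 2) (‖F u‖ ^ 2) :=
      (Equiv.hasSum_iff (Equiv.neg ℤ)).2 (norm_sq_hasSum (F u))
    have h3 : HasSum (fun m : ℤ => ‖(u : ℤ → ℂ) (sgm m)‖ ^ 2) (‖u‖ ^ 2) :=
      (Equiv.hasSum_iff uExE).2 (norm_sq_hasSum u)
    have h4 := h1.add h2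
    have h5 := (norm_sq_hasSum u).add h3
    have h6 : (fun m : ℤ => ‖(F u : ℤ → ℂ) (m + 1)‖ ^ 2 + ‖(F u : ℤ → ℂ) (-m)‖ ^ 2) =
        fun m : ℤ => ‖(u : ℤ → ℂ) m‖ ^ 2 + ‖(u : ℤ → ℂ) (sgm m)‖ ^ 2 := by
      funext m
      rw [hF, hFs]
      exact uEx_id _ _ (Real.sin_sq_add_cos_sq _) _ _
    rw [h6] at h4
    have h7 := h4.unique h5
    have h8 : ‖F u‖ ^ 2 = ‖u‖ ^ 2 := by linarith
    exact (pow_left_inj₀ (norm_nonneg _) (norm_nonneg _) two_ne_zero).1 h8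
  refine ⟨⟨LinearEquiv.ofLinearMap (F : KK →ₗ[ℂ] KK) (G : KK →ₗ[ℂ] KK) ?_ ?_, ?_⟩, ?_⟩
  · exact LinearMap.ext hFG
  · exact LinearMap.ext hGF
  · exact hnorm
  · exact hF

end Pool.Agent.Work.MP_ebd05c_an.SG
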