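import Pool.Agent.Work.MP_ebd05c_an.SG.UU

set_option autoImplicit false

open scoped BigOperators ENNReal NNReal Topology ComplexConjugate InnerProductSpace
open Finset Filter MeasureTheory

/-!
For v in KK: |DD w v|^2 = sum_m w(m)^2 |v m|^2 = |v|^2 + sum_(i<I) γ_i |P_i v|^2, P_i = PP (Iio (-(h i)))
(DD_apply, norm_sq_hasSum, Stair.sq; HasSum.add and finite sums of HasSum). At m far left this gives
1 + sum γ_i = κ^2 (Stair.left at m = -h0-1, Stair.cut). For each i put a = |P_i v|, and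
P_i U^n v = P_i U^n (P_i v) + P_i U^n (v - P_i v), v - P_i v vanishes below -(h i), so by Good
|P_i U^n v| <= a + ε |v| and |P_i U^n v|^2 <= (1 + δ) a^2 + (1 + 1/δ) ε^2 |v|^2
(2 x y <= δ x^2 + y^2/δ). Sum up: |DD w (U^n v)|^2 <= |v|^2 + (1 + δ) sum γ_i |P_i v|^2 +
(κ^2 - 1)(1 + 1/δ) ε^2 |v|^2 <= (1 + δ) |DD w v|^2 + δ |v|^2 <= (1 + 2 δ) |DD w v|^2 (|U^n v| = |v|).
-/

namespace Pool.Agent.Work.MP_ebd05c_an.SG

open Pool.Agent.Work.MP_ebd05c_an.H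

private theorem wn_formula (r κ : ℝ) (L h0 I : ℕ) (γ : ℕ → ℝ) (h : ℕ → ℕ) (w : ℤ → ℝ)
    (St : Stair r κ L h0 I γ h w) (v : KK) :
    ‖DD w v‖ ^ 2 = ‖v‖ ^ 2 + ∑ i ∈ range I, γ i * ‖PP (Set.Iio (-(h i : ℤ))) v‖ ^ 2 := by
  classical
  have hw0 : ∀ m, 0 < w m := fun m => lt_of_lt_of_le one_pos (St.one_le m)
  have hbw : ∀ m, |w m| ≤ κ := fun m => by
    rw [abs_of_pos (hw0 m)]
    exact St.le m
  have h1 := norm_sq_hasSum (DD w v)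
  have h2 : HasSum (fun m : ℤ => ‖(v : ℤ → ℂ) m‖ ^ 2 + ∑ i ∈ range I, γ i *
      ‖(PP (Set.Iio (-(h i : ℤ))) v : ℤ → ℂ) m‖ ^ 2)
      (‖v‖ ^ 2 + ∑ i ∈ range I, γ i * ‖PP (Set.Iio (-(h i : ℤ))) v‖ ^ 2) :=
    (norm_sq_hasSum v).add (hasSum_sum fun i _ => (norm_sq_hasSum _).mul_left (γ i))
  refine h1.unique ?_
  convert h2 using 1
  funext m
  rw [DD_apply w κ hbw, norm_mul, mul_pow, Complex.norm_real, Real.norm_eq_abs, sq_abs, St.sq m,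
    add_mul, one_mul, sum_mul]
  congr 1
  refine sum_congr rfl fun i _ => ?_
  rw [PP_apply, Set.indicator_apply]
  by_cases hm : m < -(h i : ℤ)
  · rw [if_pos hm, if_pos (Set.mem_Iio.2 hm)]
  · rw [if_neg hm, if_neg (fun h' => hm (Set.mem_Iio.1 h')), norm_zero]
    ring

theorem weighted (r κ : ℝ) (L h0 I : ℕ) (γ : ℕ → ℝ) (h : ℕ → ℕ) (w : ℤ → ℝ)
    (St : Stair r κ L h0 I γ h w) (θ : ℕ → ℝ) (ε δ : ℝ) (hδ : 0 < δ) (hε : 0 ≤ ε)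
    (hG : Good θ h0 ε) (hκ : κ ^ 2 * (1 + 1 / δ) * ε ^ 2 ≤ δ) (v : KK) (n : ℕ) :
    ‖DD w ((UU θ ^ n) v)‖ ^ 2 ≤ (1 + 2 * δ) * ‖DD w v‖ ^ 2 := by
  classical
  have hsum : ∑ i ∈ range I, γ i ≤ κ ^ 2 := by
    have h1 := St.sq (-(h0 : ℤ) - 1)
    rw [St.left _ (by omega)] at h1
    have h2 : ∑ i ∈ range I, (if -(h0 : ℤ) - 1 < -(h i : ℤ) then γ i else 0) =
        ∑ i ∈ range I, γ i := by
      refine sum_congr rfl fun i hi => ?_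
      have := St.cut i (mem_range.1 hi)
      rw [if_pos (by omega)]
    rw [h2] at h1
    linarith
  have hP : ∀ i ∈ range I, ‖PP (Set.Iio (-(h i : ℤ))) ((UU θ ^ n) v)‖ ^ 2 ≤
      (1 + δ) * ‖PP (Set.Iio (-(h i : ℤ))) v‖ ^ 2 + (1 + 1 / δ) * ε ^ 2 * ‖v‖ ^ 2 := by
    intro i hi
    obtain ⟨P, hPdef⟩ : ∃ P, P = PP (Set.Iio (-(h i : ℤ))) := ⟨_, rfl⟩
    rw [← hPdef]
    have hP1 : ∀ x : KK, ‖P x‖ ≤ ‖x‖ := fun x => by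
      have hn1 : ‖P‖ ≤ 1 := by
        rw [hPdef]
        exact PP_norm _
      have := P.le_of_opNorm_le hn1 x
      rwa [one_mul] at this
    have e1 : P ((UU θ ^ n) v) = P ((UU θ ^ n) (P v)) + P ((UU θ ^ n) (v - P v)) := by
      rw [← map_add, ← map_add]
      congr 2
      abel
    have h3 : ‖P ((UU θ ^ n) (P v))‖ ≤ ‖P v‖ := by
      refine (hP1 _).trans ?_
      rw [LinearIsometryEquiv.norm_map]
    have h4 : v - P v = PP (Set.Iio (-(h i : ℤ)))ᶜ v := by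
      refine KK_ext fun m => ?_
      rw [lp.coeFn_sub, Pi.sub_apply, hPdef, PP_apply, PP_apply, Set.indicator_compl]
      rfl
    have h5 : ‖v - P v‖ ≤ ‖v‖ := by
      rw [h4]
      have := (PP (Set.Iio (-(h i : ℤ)))ᶜ).le_of_opNorm_le (PP_norm _) v
      rwa [one_mul] at this
    have h6 : ‖P ((UU θ ^ n) (v - P v))‖ ≤ ε * ‖v‖ := by
      rw [hPdef]
      refine (hG (h i) (St.cut i (mem_range.1 hi)) n _ ?_).trans ?_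
      · intro m hm
        rw [lp.coeFn_sub, Pi.sub_apply, PP_apply, Set.indicator_of_mem (Set.mem_Iio.2 hm),
          sub_self]
      · rw [hPdef] at h5
        exact mul_le_mul_of_nonneg_left h5 hε
    have h7 : ‖P ((UU θ ^ n) v)‖ ≤ ‖P v‖ + ε * ‖v‖ := by
      rw [e1]
      exact (norm_add_le _ _).trans (add_le_add h3 h6)
    have h8 : ‖P ((UU θ ^ n) v)‖ ^ 2 ≤ (‖P v‖ + ε * ‖v‖) ^ 2 :=
      pow_le_pow_left₀ (norm_nonneg _) h7 2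
    refine h8.trans ?_
    obtain ⟨a, ha⟩ : ∃ a, a = ‖P v‖ := ⟨_, rfl⟩
    obtain ⟨y, hy⟩ : ∃ y, y = ε * ‖v‖ := ⟨_, rfl⟩
    have h9 : (1 + 1 / δ) * ε ^ 2 * ‖v‖ ^ 2 = (1 + 1 / δ) * y ^ 2 := by rw [hy]; ring
    rw [h9, ← ha, ← hy]
    have h10 : 2 * a * y ≤ δ * a ^ 2 + 1 / δ * y ^ 2 := by
      have h11 : 0 ≤ (δ * a - y) ^ 2 / δ := div_nonneg (sq_nonneg _) hδ.le
      have h12 : (δ * a - y) ^ 2 / δ = δ * a ^ 2 - 2 * a * y + 1 / δ * y ^ 2 := by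
        field_simp
        ring
      linarith
    linarith [h10]
  rw [wn_formula r κ L h0 I γ h w St, wn_formula r κ L h0 I γ h w St v,
    LinearIsometryEquiv.norm_map]
  have h1 : ∑ i ∈ range I, γ i * ‖PP (Set.Iio (-(h i : ℤ))) ((UU θ ^ n) v)‖ ^ 2 ≤
      ∑ i ∈ range I, γ i * ((1 + δ) * ‖PP (Set.Iio (-(h i : ℤ))) v‖ ^ 2 +
        (1 + 1 / δ) * ε ^ 2 * ‖v‖ ^ 2) :=
    sum_le_sum fun i hi => mul_le_mul_of_nonneg_left (hP i hi) (St.gam i)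
  have h2 : ∑ i ∈ range I, γ i * ((1 + δ) * ‖PP (Set.Iio (-(h i : ℤ))) v‖ ^ 2 +
        (1 + 1 / δ) * ε ^ 2 * ‖v‖ ^ 2) =
      (1 + δ) * ∑ i ∈ range I, γ i * ‖PP (Set.Iio (-(h i : ℤ))) v‖ ^ 2 +
        (∑ i ∈ range I, γ i) * ((1 + 1 / δ) * ε ^ 2 * ‖v‖ ^ 2) := by
    rw [mul_sum, sum_mul, ← sum_add_distrib]
    exact sum_congr rfl fun i _ => by ring
  have h3 : (∑ i ∈ range I, γ i) * ((1 + 1 / δ) * ε ^ 2 * ‖v‖ ^ 2) ≤ δ * ‖v‖ ^ 2 := by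
    have h4 : (∑ i ∈ range I, γ i) * ((1 + 1 / δ) * ε ^ 2 * ‖v‖ ^ 2) ≤
        κ ^ 2 * ((1 + 1 / δ) * ε ^ 2 * ‖v‖ ^ 2) :=
      mul_le_mul_of_nonneg_right hsum (by positivity)
    have h5 : κ ^ 2 * ((1 + 1 / δ) * ε ^ 2 * ‖v‖ ^ 2) =
        (κ ^ 2 * (1 + 1 / δ) * ε ^ 2) * ‖v‖ ^ 2 := by ring
    rw [h5] at h4
    exact h4.trans (mul_le_mul_of_nonneg_right hκ (sq_nonneg _))
  have h6 : 0 ≤ ∑ i ∈ range I, γ i * ‖PP (Set.Iio (-(h i : ℤ))) v‖ ^ 2 :=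
    sum_nonneg fun i _ => mul_nonneg (St.gam i) (sq_nonneg _)
  have h7 : 0 ≤ δ * ‖v‖ ^ 2 := by positivity
  have h8 : 0 ≤ δ * ∑ i ∈ range I, γ i * ‖PP (Set.Iio (-(h i : ℤ))) v‖ ^ 2 :=
    mul_nonneg hδ.le h6
  rw [h2] at h1
  linarith

end Pool.Agent.Work.MP_ebd05c_an.SG
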