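import Pool.Agent.Work.MP_ebd05c_an.SG.Base

set_option autoImplicit false

open scoped BigOperators ENNReal NNReal Topology ComplexConjugate InnerProductSpace
open Finset Filter MeasureTheory

/-!
Copy of WOp_compact in Pool/Agent/Work/MP_ebd05c_an/D/Comp.lean: for each n let F be the finite set of
j with |a j| > 1/(n+1), b = a on F and 0 elsewhere; wo σ b has all values supported in F, so it is
compact by wop_compact (H/WOp.lean, E = ℂ), and |wo σ a - wo σ b| <= 1/(n+1)
(the difference is wo σ (a - b)); isCompactOperator_of_tendsto.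
-/

namespace Pool.Agent.Work.MP_ebd05c_an.SG

open Pool.Agent.Work.MP_ebd05c_an.H

theorem wo_compact {J : Type} (σ : J ≃ J) (a : J → ℂ) (C : ℝ) (hC : 0 ≤ C) (ha : ∀ j, ‖a j‖ ≤ C)
    (h0 : ∀ ε : ℝ, 0 < ε → {j | ε < ‖a j‖}.Finite) : IsCompactOperator (wo σ a) := by
  classical
  have hfin : ∀ n : ℕ, ∃ A : LS J ℂ →L[ℂ] LS J ℂ, IsCompactOperator A ∧
      ‖wo σ a - A‖ ≤ 1 / ((n : ℝ) + 1) := by
    intro n
    have hε : (0 : ℝ) < 1 / ((n : ℝ) + 1) := by positivity
    obtain ⟨F, hF⟩ : ∃ F : Finset J, F = (h0 _ hε).toFinset := ⟨_, rfl⟩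
    have hmem : ∀ i, i ∈ F ↔ 1 / ((n : ℝ) + 1) < ‖a i‖ := by
      intro i
      rw [hF, Set.Finite.mem_toFinset]
      rfl
    obtain ⟨b, hb⟩ : ∃ b : J → ℂ, b = fun i => if i ∈ F then a i else 0 := ⟨_, rfl⟩
    have hbC : ∀ i, ‖b i‖ ≤ C := by
      intro i
      rw [hb]
      by_cases h : i ∈ F
      · simpa [h] using ha i
      · simpa [h] using hC
    have hd : ∀ i, ‖a i - b i‖ ≤ 1 / ((n : ℝ) + 1) := by
      intro i
      by_cases h : i ∈ F
      · simp only [hb, h, if_true, sub_self, norm_zero]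
        exact hε.le
      · simp only [hb, h, if_false, sub_zero]
        rw [hmem] at h
        exact not_lt.1 h
    refine ⟨wo σ b, ?_, ?_⟩
    · refine wop_compact (wo σ b) F fun x j hj => ?_
      rw [wo_apply σ b ⟨C, hC, hbC⟩, hb]
      simp only [hj, if_false, zero_mul]
    · have he : wo σ a - wo σ b = wo σ (fun i => a i - b i) := by
        ext x j
        rw [wo_apply σ (fun i => a i - b i) ⟨_, hε.le, hd⟩]
        show ((wo σ a x - wo σ b x : LS J ℂ) : J → ℂ) j = _
        rw [lp.coeFn_sub, Pi.sub_apply, wo_apply σ a ⟨C, hC, ha⟩, wo_apply σ b ⟨C, hC, hbC⟩]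
        ring
      rw [he]
      exact wo_norm _ _ _ hε.le hd
  choose A hA1 hA2 using hfin
  have hlim : Tendsto A atTop (𝓝 (wo σ a)) := by
    rw [tendsto_iff_norm_sub_tendsto_zero]
    refine squeeze_zero (fun _ => norm_nonneg _) (fun n => ?_)
      tendsto_one_div_add_atTop_nhds_zero_nat
    rw [norm_sub_rev]
    exact hA2 n
  exact isCompactOperator_of_tendsto hlim (Eventually.of_forall hA1)

end Pool.Agent.Work.MP_ebd05c_an.SG
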